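import Pool.Agent.H34x.MA.Dir1

/-!
# Dirichlet's theorem for the triples with prescribed radicals: infinitely many scales
-/

set_option autoImplicit false

namespace Pool.Agent.H34x.MA

open Filter Topology

section

variable {a b c : ℝ}

/-- the index at the scale `m` -/
noncomputable def MX (a b c : ℝ) (m : ℕ) : ℕ :=
  MM (ex 2 (a * TT m)) (ex 3 (b * TT m)) (ex 5 (c * TT m))

/-- the lattice at the scale `m` -/
def LX (a b c : ℝ) (m : ℕ) (p q : ℤ) : Prop :=
  La (ex 2 (a * TT m)) (ex 3 (b * TT m)) (ex 5 (c * TT m)) p q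

theorem ex_mono {l : ℕ} (hl : 2 ≤ l) {x y : ℝ} (h : x ≤ y) : ex l x ≤ ex l y := by
  unfold ex
  apply Nat.ceil_mono
  have : 0 < Real.log l := Real.log_pos (by exact_mod_cast hl)
  gcongr

theorem TT_succ (m : ℕ) : TT (m + 1) = TT m + Real.log 2 := by
  unfold TT; push_cast; ring

theorem TT_mono {m n : ℕ} (h : m ≤ n) : TT m ≤ TT n := by
  have := log2_pos
  unfold TT
  gcongr

theorem LX_mono (ha : 0 ≤ a) (hb : 0 ≤ b) (hc : 0 ≤ c) {m n : ℕ} (h : m ≤ n) {p q : ℤ}
    (hL : LX a b c n p q) : LX a b c m p q :=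
  La.mono (ex_mono (by norm_num) (mul_le_mul_of_nonneg_left (TT_mono h) ha))
    (ex_mono (by norm_num) (mul_le_mul_of_nonneg_left (TT_mono h) hb))
    (ex_mono (by norm_num) (mul_le_mul_of_nonneg_left (TT_mono h) hc)) hL

theorem MX_ge (a b c : ℝ) (m : ℕ) : Real.exp ((a + b + c) * TT m) ≤ MX a b c m := by
  unfold MX
  rw [MM_cast]
  have h1 := ex_ge (l := 2) (by norm_num) (a * TT m)
  have h2 := ex_ge (l := 3) (by norm_num) (b * TT m)
  have h3 := ex_ge (l := 5) (by norm_num) (c * TT m)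
  push_cast at h1 h2 h3
  calc Real.exp ((a + b + c) * TT m) =
        Real.exp (a * TT m) * Real.exp (b * TT m) * Real.exp (c * TT m) := by
        rw [← Real.exp_add, ← Real.exp_add]; congr 1; ring
    _ ≤ _ := by gcongr

theorem MX_le (ha : 0 ≤ a) (hb : 0 ≤ b) (hc : 0 ≤ c) (m : ℕ) :
    (MX a b c m : ℝ) ≤ 30 * Real.exp ((a + b + c) * TT m) := by
  unfold MX
  rw [MM_cast]
  have hT := TT_nonneg m
  have h1 := ex_le (l := 2) (by norm_num) (y := a * TT m) (by positivity)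
  have h2 := ex_le (l := 3) (by norm_num) (y := b * TT m) (by positivity)
  have h3 := ex_le (l := 5) (by norm_num) (y := c * TT m) (by positivity)
  push_cast at h1 h2 h3
  calc (2 : ℝ) ^ ex 2 (a * TT m) * 3 ^ ex 3 (b * TT m) * 5 ^ ex 5 (c * TT m)
      ≤ (2 * Real.exp (a * TT m)) * (3 * Real.exp (b * TT m)) *
        (5 * Real.exp (c * TT m)) := by gcongr
    _ = 30 * (Real.exp (a * TT m) * Real.exp (b * TT m) * Real.exp (c * TT m)) := by ring
    _ = 30 * Real.exp ((a + b + c) * TT m) := by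
        rw [← Real.exp_add, ← Real.exp_add]; congr 3; ring

theorem MX_pos (a b c : ℝ) (m : ℕ) : (0 : ℝ) < MX a b c m := by
  have := MM_pos (ex 2 (a * TT m)) (ex 3 (b * TT m)) (ex 5 (c * TT m))
  unfold MX
  exact_mod_cast this

theorem exp_TT_zero {x : ℝ} (hx : 0 < x) (C : ℝ) :
    Tendsto (fun m => C * Real.exp (-x * TT m)) atTop (𝓝 0) := by
  have h := (exp_TT_tendsto hx).const_mul C
  simpa using h

theorem MX_succ (ha : 0 ≤ a) (hb : 0 ≤ b) (hc : 0 ≤ c) (ha1 : a ≤ 1) (hb1 : b ≤ 1) (hc1 : c ≤ 1)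
    (m : ℕ) : (MX a b c (m + 1) : ℝ) / 2 ^ (m + 1) ≤ 120 * ((MX a b c m : ℝ) / 2 ^ m) := by
  have h1 := MX_le ha hb hc (m + 1)
  have h2 := MX_ge a b c m
  have h3 : Real.exp ((a + b + c) * TT (m + 1)) ≤ 8 * Real.exp ((a + b + c) * TT m) := by
    rw [TT_succ, mul_add, Real.exp_add, mul_comm]
    have h4 : Real.exp ((a + b + c) * Real.log 2) ≤ 8 := by
      calc Real.exp ((a + b + c) * Real.log 2) ≤ Real.exp (3 * Real.log 2) := by
            apply Real.exp_le_exp.2
            have := log2_pos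
            nlinarith
        _ = 8 := by
            rw [show (3 : ℝ) * Real.log 2 = Real.log 2 + Real.log 2 + Real.log 2 by ring,
              Real.exp_add, Real.exp_add, Real.exp_log (by norm_num)]
            norm_num
    have := Real.exp_pos ((a + b + c) * TT m)
    nlinarith
  rw [pow_succ, div_le_iff₀ (by positivity)]
  have h5 : 120 * ((MX a b c m : ℝ) / 2 ^ m) * (2 ^ m * 2) = 240 * MX a b c m := by
    field_simp
    ring
  rw [h5]
  linarith

/-- **two independent points at infinitely many scales** -/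
theorem two_points (ha : 0 ≤ a) (hb : 0 ≤ b) (hc : 0 ≤ c) (ha1 : a < 1) (hb1 : b < 1) (hc1 : c < 1)
    {ξ : ℝ} (h0 : ξ ≠ 0) (h1 : ξ ≠ 1) (hξ : Irrational ξ ∨ 1 < a + b + c) (m0 : ℕ) :
    ∃ m, m0 ≤ m ∧ ∃ p q p' q' : ℤ, LX a b c m p q ∧ LX a b c m p' q' ∧ p * q' - p' * q ≠ 0 ∧
      0 < q ∧ q ≤ 2 ^ m ∧ 0 < q' ∧ q' ≤ 2 * 2 ^ m ∧
      |(q : ℝ) * ξ - p| ≤ MX a b c m / 2 ^ m ∧ |(q' : ℝ) * ξ - p'| ≤ 120 * (MX a b c m / 2 ^ m) := by
  have hD : ∀ m : ℕ, ∃ p q : ℤ, 0 < q ∧ q ≤ 2 ^ m ∧ LX a b c m p q ∧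
      |(q : ℝ) * ξ - p| ≤ MX a b c m / 2 ^ m := by
    intro m
    obtain ⟨p, q, h1, h2, h3, h4, h5, h6⟩ := dirich (ex 2 (a * TT m)) (ex 3 (b * TT m))
      (ex 5 (c * TT m)) m (ex_le_m (by norm_num) ha1.le m) ξ
    exact ⟨p, q, h1, h2, ⟨h3, h4, h5⟩, h6⟩
  choose p q hq hqm hL hd using hD
  by_contra hcon
  push Not at hcon
  -- all the points are on one line
  have hdet : ∀ m, m0 ≤ m → p m * q (m + 1) - p (m + 1) * q m = 0 := by
    intro m hm
    by_contra hne
    have := hcon m hm (p m) (q m) (p (m + 1)) (q (m + 1)) (hL m)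
      (LX_mono ha hb hc (Nat.le_succ m) (hL (m + 1))) hne (hq m) (hqm m) (hq (m + 1))
      (by have := hqm (m + 1); rw [pow_succ] at this; linarith) (hd m)
    exact absurd (hd (m + 1)) (not_le.2 (lt_of_le_of_lt
      (MX_succ ha hb hc ha1.le hb1.le hc1.le m) this))
  have hline : ∀ k, p (m0 + k) * q m0 = p m0 * q (m0 + k) := by
    intro k
    induction k with
    | zero => simp
    | succ k ih =>
      have h2 := hdet (m0 + k) (Nat.le_add_right _ _)
      have h3 : q (m0 + k) ≠ 0 := (hq _).ne'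
      have h4 : q (m0 + k) * (p (m0 + (k + 1)) * q m0 - p m0 * q (m0 + (k + 1))) = 0 := by
        rw [show m0 + (k + 1) = m0 + k + 1 by ring]
        linear_combination (q (m0 + k + 1)) * ih - (q m0) * h2
      rcases mul_eq_zero.1 h4 with h5 | h5
      · exact absurd h5 h3
      · linarith
  -- the reduced fraction
  obtain ⟨A, B, hB0, hAB, hpq⟩ : ∃ A B : ℤ, 0 < B ∧ IsCoprime A B ∧ p m0 * B = A * q m0 := by
    obtain ⟨G, hG⟩ : ∃ G, G = Int.gcd (p m0) (q m0) := ⟨_, rfl⟩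
    have hg : 0 < G := hG ▸ Int.gcd_pos_of_ne_zero_right _ (hq m0).ne'
    obtain ⟨A, hA⟩ : (G : ℤ) ∣ p m0 := hG ▸ Int.gcd_dvd_left (p m0) (q m0)
    obtain ⟨B, hB⟩ : (G : ℤ) ∣ q m0 := hG ▸ Int.gcd_dvd_right (p m0) (q m0)
    have hgp : (0 : ℤ) < (G : ℤ) := by exact_mod_cast hg
    refine ⟨A, B, ?_, ?_, ?_⟩
    · have := hq m0
      rw [hB] at this
      exact (mul_pos_iff_of_pos_left hgp).1 this
    · rw [Int.isCoprime_iff_gcd_eq_one]
      have h2 : G = G * Int.gcd A B := by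
        conv_lhs => rw [hG, hA, hB]
        rw [Int.gcd_mul_left, Int.natAbs_natCast]
      exact (Nat.eq_of_mul_eq_mul_left hg (by rw [mul_one]; exact h2)).symm
    · rw [hA, hB]; ring
  have hgm : ∀ m, m0 ≤ m → ∃ g : ℤ, 0 < g ∧ q m = g * B ∧ p m = g * A := by
    intro m hm
    obtain ⟨k, rfl⟩ := Nat.exists_eq_add_of_le hm
    have h2 := hline k
    have h3 : p (m0 + k) * B = A * q (m0 + k) := by
      have h4 : q m0 * (p (m0 + k) * B - A * q (m0 + k)) = 0 := by
        linear_combination B * h2 + (q (m0 + k)) * hpq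
      rcases mul_eq_zero.1 h4 with h5 | h5
      · exact absurd h5 (hq m0).ne'
      · linarith
    have h4 : B ∣ q (m0 + k) := hAB.symm.dvd_of_dvd_mul_left ⟨p (m0 + k), by linarith⟩
    obtain ⟨g, hg⟩ := h4
    refine ⟨g, ?_, by rw [hg]; ring, ?_⟩
    · have := hq (m0 + k)
      rw [hg] at this
      exact (mul_pos_iff_of_pos_left hB0).1 this
    · have h5 : B * (p (m0 + k) - g * A) = 0 := by
        rw [hg] at h3
        linear_combination h3
      rcases mul_eq_zero.1 h5 with h6 | h6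
      · exact absurd h6 hB0.ne'
      · linarith
  have hBR : (0 : ℝ) < B := by exact_mod_cast hB0
  -- the end points
  have hend : ∀ (x y : ℝ), 0 < y → y < 1 → (∀ m, m0 ≤ m → |x| ≤ 5 * Real.exp ((y - 1) * TT m)) →
      x = 0 := by
    intro x y _ hy h2
    have h3 := exp_TT_zero (x := 1 - y) (by linarith) 5
    have h4 : |x| ≤ 0 := by
      refine ge_of_tendsto h3 ?_
      filter_upwards [eventually_ge_atTop m0] with m hm
      have := h2 m hm
      rwa [show (y - 1) * TT m = -(1 - y) * TT m by ring] at this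
    exact abs_eq_zero.1 (le_antisymm h4 (abs_nonneg _))
  have hTp : ∀ m : ℕ, (0 : ℝ) < 2 ^ m := fun m => by positivity
  by_cases hA0 : A = 0
  · -- `ξ = 0`
    apply h0
    have h2 : ∀ m, m0 ≤ m → |ξ| ≤ 5 * Real.exp ((b - 1) * TT m) := by
      intro m hm
      obtain ⟨g, hg, hgq, hgp⟩ := hgm m hm
      rw [hA0, mul_zero] at hgp
      have hLm := hL m
      unfold LX La at hLm
      have h3 := hd m
      rw [hgp] at h3 hLm
      obtain ⟨k2, k3, k5⟩ := hLm
      rw [sub_zero] at k5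
      have h4 : (2 : ℤ) ^ ex 2 (a * TT m) * 5 ^ ex 5 (c * TT m) ∣ q m := by
        apply IsCoprime.mul_dvd _ k2 k5
        apply IsCoprime.pow; norm_num
      have h5 := Int.le_of_dvd (hq m) h4
      have h6 : (2 : ℝ) ^ ex 2 (a * TT m) * 5 ^ ex 5 (c * TT m) ≤ q m := by exact_mod_cast h5
      have hq0 : (0 : ℝ) < q m := by exact_mod_cast hq m
      rw [Int.cast_zero, sub_zero, abs_mul, abs_of_pos hq0] at h3
      have h7 : (2 : ℝ) ^ ex 2 (a * TT m) * 5 ^ ex 5 (c * TT m) * |ξ| ≤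
          (2 : ℝ) ^ ex 2 (a * TT m) * 5 ^ ex 5 (c * TT m) * (3 ^ ex 3 (b * TT m) / 2 ^ m) := by
        calc (2 : ℝ) ^ ex 2 (a * TT m) * 5 ^ ex 5 (c * TT m) * |ξ| ≤ q m * |ξ| := by
              gcongr
          _ ≤ MX a b c m / 2 ^ m := h3
          _ = _ := by unfold MX; rw [MM_cast]; ring
      have h8 := le_of_mul_le_mul_left h7 (by positivity)
      refine h8.trans ?_
      rw [div_le_iff₀ (hTp m), exp_TT, mul_assoc, ← Real.exp_add]
      have h9 := ex_le (l := 3) (by norm_num) (y := b * TT m) (mul_nonneg hb (TT_nonneg m))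
      push_cast at h9
      calc (3 : ℝ) ^ ex 3 (b * TT m) ≤ 3 * Real.exp (b * TT m) := h9
        _ ≤ 5 * Real.exp (b * TT m) := by
            have := Real.exp_pos (b * TT m)
            linarith
        _ = 5 * Real.exp ((b - 1) * TT m + TT m) := by congr 2; ring
    rcases hb.eq_or_lt with h3 | h3
    · rw [← h3] at h2
      refine hend ξ (1 / 2) (by norm_num) (by norm_num) fun m hm => (h2 m hm).trans ?_
      have := TT_nonneg m
      have : Real.exp ((0 - 1) * TT m) ≤ Real.exp ((1 / 2 - 1) * TT m) := by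
        apply Real.exp_le_exp.2; nlinarith
      linarith
    · exact hend ξ b h3 hb1 h2
  by_cases hA1 : B - A = 0
  · -- `ξ = 1`
    apply h1
    have h2 : ∀ m, m0 ≤ m → |ξ - 1| ≤ 5 * Real.exp ((c - 1) * TT m) := by
      intro m hm
      obtain ⟨g, hg, hgq, hgp⟩ := hgm m hm
      have hpq' : p m = q m := by rw [hgq, hgp]; linear_combination -g * hA1
      have hLm := hL m
      unfold LX La at hLm
      have h3 := hd m
      rw [hpq'] at h3 hLm
      obtain ⟨k2, k3, k5⟩ := hLm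
      have h4 : (2 : ℤ) ^ ex 2 (a * TT m) * 3 ^ ex 3 (b * TT m) ∣ q m := by
        apply IsCoprime.mul_dvd _ k2 k3
        apply IsCoprime.pow; norm_num
      have h5 := Int.le_of_dvd (hq m) h4
      have h6 : (2 : ℝ) ^ ex 2 (a * TT m) * 3 ^ ex 3 (b * TT m) ≤ q m := by exact_mod_cast h5
      have hq0 : (0 : ℝ) < q m := by exact_mod_cast hq m
      have e3 : (q m : ℝ) * ξ - q m = q m * (ξ - 1) := by ring
      rw [e3, abs_mul, abs_of_pos hq0] at h3
      have h7 : (2 : ℝ) ^ ex 2 (a * TT m) * 3 ^ ex 3 (b * TT m) * |ξ - 1| ≤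
          (2 : ℝ) ^ ex 2 (a * TT m) * 3 ^ ex 3 (b * TT m) * (5 ^ ex 5 (c * TT m) / 2 ^ m) := by
        calc (2 : ℝ) ^ ex 2 (a * TT m) * 3 ^ ex 3 (b * TT m) * |ξ - 1| ≤ q m * |ξ - 1| := by
              gcongr
          _ ≤ MX a b c m / 2 ^ m := h3
          _ = _ := by unfold MX; rw [MM_cast]; ring
      have h8 := le_of_mul_le_mul_left h7 (by positivity)
      refine h8.trans ?_
      rw [div_le_iff₀ (hTp m), exp_TT, mul_assoc, ← Real.exp_add]
      have h9 := ex_le (l := 5) (by norm_num) (y := c * TT m) (mul_nonneg hc (TT_nonneg m))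
      push_cast at h9
      calc (5 : ℝ) ^ ex 5 (c * TT m) ≤ 5 * Real.exp (c * TT m) := h9
        _ = 5 * Real.exp ((c - 1) * TT m + TT m) := by congr 2; ring
    have h4 : ξ - 1 = 0 := by
      rcases hc.eq_or_lt with h3 | h3
      · rw [← h3] at h2
        refine hend (ξ - 1) (1 / 2) (by norm_num) (by norm_num) fun m hm => (h2 m hm).trans ?_
        have := TT_nonneg m
        have : Real.exp ((0 - 1) * TT m) ≤ Real.exp ((1 / 2 - 1) * TT m) := by
          apply Real.exp_le_exp.2; nlinarith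
        linarith
      · exact hend (ξ - 1) c h3 hc1 h2
    linarith
  -- the general case
  obtain ⟨N, hN⟩ : ∃ N : ℤ, N = A * B * (B - A) := ⟨_, rfl⟩
  have hN0 : N ≠ 0 := by
    rw [hN]
    exact mul_ne_zero (mul_ne_zero hA0 hB0.ne') hA1
  have hNR : (0 : ℝ) < |(N : ℝ)| := abs_pos.2 (by exact_mod_cast hN0)
  have hMg : ∀ m, m0 ≤ m → ∃ g : ℤ, 0 < g ∧ q m = g * B ∧ p m = g * A ∧
      (MX a b c m : ℝ) ≤ g * |(N : ℝ)| := by
    intro m hm
    obtain ⟨g, hg, hgq, hgp⟩ := hgm m hm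
    refine ⟨g, hg, hgq, hgp, ?_⟩
    have hLm := hL m
    unfold LX La at hLm
    rw [hgq, hgp] at hLm
    obtain ⟨k2, k3, k5⟩ := hLm
    have h2 : ((MX a b c m : ℕ) : ℤ) ∣ g * N := by
      unfold MX MM
      push_cast
      refine mul_three_dvd_int rfl rfl rfl ?_ ?_ ?_
      · refine k2.trans ⟨A * (B - A), ?_⟩
        rw [hN]; ring
      · refine k3.trans ⟨B * (B - A), ?_⟩
        rw [hN]; ring
      · refine k5.trans ⟨A * B, ?_⟩
        rw [hN]; ring
    have h3 : ((MX a b c m : ℕ) : ℤ) ∣ g * |N| := by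
      rcases abs_choice N with h | h
      · rwa [h]
      · rw [h, mul_neg]
        exact (dvd_neg).2 h2
    have h4 := Int.le_of_dvd (mul_pos hg (abs_pos.2 hN0)) h3
    have h5 : ((MX a b c m : ℕ) : ℝ) ≤ (g : ℝ) * ((|N| : ℤ) : ℝ) := by exact_mod_cast h4
    rwa [Int.cast_abs] at h5
  rcases hξ with hirr | hs
  · -- irrational
    have h2 : ∀ m, m0 ≤ m → |(B : ℝ) * ξ - A| ≤ |(N : ℝ)| * Real.exp (-1 * TT m) := by
      intro m hm
      obtain ⟨g, hg, hgq, hgp, hle⟩ := hMg m hm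
      have hgR : (0 : ℝ) < g := by exact_mod_cast hg
      have h3 := hd m
      have e3 : (q m : ℝ) * ξ - p m = g * (B * ξ - A) := by
        rw [hgq, hgp]; push_cast; ring
      rw [e3, abs_mul, abs_of_pos hgR] at h3
      have h4 : (g : ℝ) * |(B : ℝ) * ξ - A| ≤ g * (|(N : ℝ)| * Real.exp (-1 * TT m)) := by
        refine h3.trans ?_
        rw [exp_TT, div_eq_mul_inv, ← Real.exp_neg, ← mul_assoc]
        rw [show -1 * TT m = -TT m by ring]
        gcongr
      exact le_of_mul_le_mul_left h4 hgR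
    have h3 := exp_TT_zero (x := 1) one_pos |(N : ℝ)|
    have h4 : |(B : ℝ) * ξ - A| ≤ 0 := by
      refine ge_of_tendsto h3 ?_
      filter_upwards [eventually_ge_atTop m0] with m hm
      exact h2 m hm
    have h5 := abs_eq_zero.1 (le_antisymm h4 (abs_nonneg _))
    apply hirr
    refine ⟨(A : ℚ) / B, ?_⟩
    push_cast
    rw [div_eq_iff hBR.ne']
    linarith
  · -- large index
    have h2 : ∀ m, m0 ≤ m → 1 ≤ |(N : ℝ)| * Real.exp (-(a + b + c - 1) * TT m) := by
      intro m hm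
      obtain ⟨g, hg, hgq, hgp, hle⟩ := hMg m hm
      have hgR : (0 : ℝ) < g := by exact_mod_cast hg
      have h3 : (g : ℝ) ≤ Real.exp (TT m) := by
        rw [← exp_TT]
        have h4 : (q m : ℝ) ≤ 2 ^ m := by exact_mod_cast hqm m
        have h5 : (q m : ℝ) = g * B := by rw [hgq]; push_cast; ring
        have h6 : (1 : ℝ) ≤ B := by exact_mod_cast hB0
        nlinarith
      have h4 := MX_ge a b c m
      have h5 : Real.exp ((a + b + c) * TT m) ≤ Real.exp (TT m) * |(N : ℝ)| :=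
        h4.trans (hle.trans (by gcongr))
      have h6 : Real.exp ((a + b + c) * TT m) * Real.exp (-(a + b + c) * TT m) = 1 := by
        rw [← Real.exp_add]
        rw [show (a + b + c) * TT m + -(a + b + c) * TT m = 0 by ring, Real.exp_zero]
      calc (1 : ℝ) = Real.exp ((a + b + c) * TT m) * Real.exp (-(a + b + c) * TT m) := h6.symm
        _ ≤ (Real.exp (TT m) * |(N : ℝ)|) * Real.exp (-(a + b + c) * TT m) := by gcongr
        _ = |(N : ℝ)| * (Real.exp (TT m) * Real.exp (-(a + b + c) * TT m)) := by ring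
        _ = |(N : ℝ)| * Real.exp (-(a + b + c - 1) * TT m) := by
            rw [← Real.exp_add]; congr 2; ring
    have h3 := exp_TT_zero (x := a + b + c - 1) (by linarith) |(N : ℝ)|
    have h4 : (1 : ℝ) ≤ 0 := by
      refine ge_of_tendsto h3 ?_
      filter_upwards [eventually_ge_atTop m0] with m hm
      exact h2 m hm
    linarith

end

end Pool.Agent.H34x.MA
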