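import Pool.Agent.H34x.MA.Params

/-!
# The lemma of Borel and Cantelli
-/

set_option autoImplicit false

namespace Pool.Agent.H34x.MA

open MeasureTheory Finset Filter Topology
open scoped ENNReal

theorem exp_TT_tendsto {x : ℝ} (hx : 0 < x) : Tendsto (fun m => Real.exp (-x * TT m)) atTop (𝓝 0) := by
  apply Real.tendsto_exp_atBot.comp
  have h : Tendsto (fun m => x * TT m) atTop atTop := TT_tendsto.const_mul_atTop hx
  have := tendsto_neg_atTop_atBot.comp h
  refine this.congr fun m => ?_
  simp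

theorem summable_TT {x : ℝ} (hx : 0 < x) :
    Summable (fun m : ℕ => ((m : ℝ) + 1) ^ 4 * Real.exp (-x * TT m)) := by
  have h2 := log2_pos
  have h := Real.summable_pow_mul_exp_neg_nat_mul 4 (r := x * Real.log 2) (by positivity)
  have h3 := (summable_nat_add_iff 1).2 h
  have h4 := h3.mul_left (Real.exp (x * Real.log 2))
  refine h4.congr fun m => ?_
  push_cast
  unfold TT
  rw [← mul_assoc, mul_comm (Real.exp _), mul_assoc, ← Real.exp_add]
  congr 2
  ring

namespace Par

variable (P : Par)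

/-- the data at a scale: a reduced fraction with large divisors -/
def Pt (m : ℕ) (ξ : ℝ) (p q g : ℕ) : Prop :=
  0 < p ∧ p < q ∧ Nat.Coprime p q ∧ 0 < g ∧ g * q ≤ 2 ^ m ∧
      2 ^ m ≤ g * q * 2 ^ P.W m ∧ 2 ^ (P.I m - P.W m) ∣ q ∧ 3 ^ (P.J m - P.W m) ∣ p ∧
      5 ^ (P.K m - P.W m) ∣ q - p ∧ |ξ - (p : ℝ) / q| ≤ P.D m / (g * q)

/-- the bad set of a scale -/
def B (m : ℕ) : Set ℝ := Bad (P.I m) (P.J m) (P.K m) m (P.W m)

/-- **All scales**: a number outside the bad set and not near the end points has a good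
approximation; the bad sets are small. -/
theorem main : ∃ C x : ℝ, 0 < C ∧ 0 < x ∧
    (∀ m, volume (P.B m) ≤ ENNReal.ofReal (C * (((m : ℝ) + 1) ^ 4 * Real.exp (-x * TT m)))) ∧
    ∀ᶠ m in atTop, ∀ ξ : ℝ, C * Real.exp (-x * TT m) < ξ → ξ < 1 - C * Real.exp (-x * TT m) →
      ξ ∉ P.B m → ∃ p q g : ℕ, P.Pt m ξ p q g := by
  obtain ⟨C0, th, hC0, hth, H, hH0, hns, hDH⟩ := P.short
  have ha1 : 0 < 1 - P.b := by linarith [P.b1]
  have hc1 : 0 < 1 - P.c := by linarith [P.c1]
  set x : ℝ := min (min P.e th) (min (1 - P.b) (1 - P.c)) with hx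
  have hx0 : 0 < x := lt_min (lt_min P.e0 hth) (lt_min ha1 hc1)
  have hxe : x ≤ P.e := (min_le_left _ _).trans (min_le_left _ _)
  have hxth : x ≤ th := (min_le_left _ _).trans (min_le_right _ _)
  have hxb : x ≤ 1 - P.b := (min_le_right _ _).trans (min_le_left _ _)
  have hxc : x ≤ 1 - P.c := (min_le_right _ _).trans (min_le_right _ _)
  have hmono : ∀ (m : ℕ) {y : ℝ}, x ≤ y → Real.exp (-y * TT m) ≤ Real.exp (-x * TT m) := by
    intro m y hy
    apply Real.exp_le_exp.2
    have := TT_nonneg m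
    nlinarith
  refine ⟨16 + 4 * C0 + 60, x, by positivity, hx0, ?_, ?_⟩
  · intro m
    unfold B
    refine (vol_bad (hH0 m) (hns m)).trans (ENNReal.ofReal_le_ofReal ?_)
    have hi : ((P.I m : ℕ) : ℝ) ≤ m := by exact_mod_cast P.I_m m
    have hj : ((P.J m : ℕ) : ℝ) ≤ m := by exact_mod_cast P.J_m m
    have hk : ((P.K m : ℕ) : ℝ) ≤ m := by exact_mod_cast P.K_m m
    have hD := P.D_pos m
    have hH := hH0 m
    have h1 : (8 : ℝ) / 2 ^ P.W m ≤ 16 * Real.exp (-x * TT m) := by
      have h2 := ww_pow2' P.e m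
      have h3 := hmono m hxe
      rw [div_le_iff₀ (by positivity)]
      have h4 : Real.exp (P.e * TT m) * Real.exp (-P.e * TT m) = 1 := by
        rw [← Real.exp_add]; simp
      have h5 : 1 ≤ 2 * (2 : ℝ) ^ P.W m * Real.exp (-P.e * TT m) := by
        rw [← h4]
        apply mul_le_mul_of_nonneg_right h2 (Real.exp_pos _).le
      have h6 : (0 : ℝ) < 2 ^ P.W m := by positivity
      have h7 : 2 * (2 : ℝ) ^ P.W m * Real.exp (-P.e * TT m) ≤
          2 * (2 : ℝ) ^ P.W m * Real.exp (-x * TT m) := by gcongr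
      linarith
    have h2 : 4 * dl (P.I m) (P.J m) (P.K m) m / H m ≤ 4 * C0 * Real.exp (-x * TT m) := by
      have h3 := hDH m
      have h4 : P.D m / H m ≤ C0 * Real.exp (-x * TT m) := h3.trans
        (mul_le_mul_of_nonneg_left (hmono m hxth) hC0.le)
      have h5 : 4 * dl (P.I m) (P.J m) (P.K m) m / H m = 4 * (P.D m / H m) := by
        unfold D; ring
      rw [h5]
      linarith
    calc ((P.I m : ℝ) + 1) * (P.J m + 1) * (P.K m + 1) * (m + 1) *
          (8 / 2 ^ P.W m + 4 * dl (P.I m) (P.J m) (P.K m) m / H m)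
        ≤ ((m : ℝ) + 1) * (m + 1) * (m + 1) * (m + 1) *
          (16 * Real.exp (-x * TT m) + 4 * C0 * Real.exp (-x * TT m)) := by
          have hdl : 0 < dl (P.I m) (P.J m) (P.K m) m := dl_pos _ _ _ _
          have h5 : 0 ≤ 8 / 2 ^ P.W m + 4 * dl (P.I m) (P.J m) (P.K m) m / H m := by positivity
          have h6 : ((P.I m : ℝ) + 1) * (P.J m + 1) * (P.K m + 1) * (m + 1) ≤
              ((m : ℝ) + 1) * (m + 1) * (m + 1) * (m + 1) := by gcongr
          exact mul_le_mul h6 (add_le_add h1 h2) h5 (by positivity)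
      _ = (16 + 4 * C0) * (((m : ℝ) + 1) ^ 4 * Real.exp (-x * TT m)) := by ring
      _ ≤ (16 + 4 * C0 + 60) * (((m : ℝ) + 1) ^ 4 * Real.exp (-x * TT m)) :=
          mul_le_mul_of_nonneg_right (by linarith) (by positivity)
  · have ht : Tendsto (fun m => 2 * (C0 * Real.exp (-th * TT m))) atTop (𝓝 0) := by
      have := ((exp_TT_tendsto hth).const_mul C0).const_mul 2
      simpa using this
    filter_upwards [ht.eventually_lt_const (show (0 : ℝ) < 1 by norm_num)] with m hm
    intro ξ hξ0 hξ1 hnb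
    have hD := P.D_pos m
    have hH := hH0 m
    have h1 : 2 * P.D m < H m := by
      have h3 := hDH m
      have : 2 * (P.D m / H m) < 1 := by linarith
      rw [mul_div_assoc', div_lt_one hH] at this
      exact this
    have hkap : kap (P.I m) (P.J m) (P.K m) m (H m) ≤
        (16 + 4 * C0 + 60) * Real.exp (-x * TT m) := by
      unfold kap
      have k1 : 2 * dl (P.I m) (P.J m) (P.K m) m / H m ≤ 2 * C0 * Real.exp (-x * TT m) := by
        have h4 : P.D m / H m ≤ C0 * Real.exp (-x * TT m) :=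
          (hDH m).trans (mul_le_mul_of_nonneg_left (hmono m hxth) hC0.le)
        have h5 : 2 * dl (P.I m) (P.J m) (P.K m) m / H m = 2 * (P.D m / H m) := by
          unfold D; ring
        rw [h5]
        linarith
      have hDle := P.D_le m
      have hI := P.I_ge m
      have hJ := P.J_ge m
      have hK := P.K_ge m
      have k2 : dl (P.I m) (P.J m) (P.K m) m / (2 ^ P.I m * 5 ^ P.K m) ≤
          30 * Real.exp (-x * TT m) := by
        rw [div_le_iff₀ (by positivity)]
        calc dl (P.I m) (P.J m) (P.K m) m ≤ 30 * Real.exp ((P.s - 1) * TT m) := hDle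
          _ = 30 * Real.exp (-(1 - P.b) * TT m) *
              (Real.exp (P.a * TT m) * Real.exp (P.c * TT m)) := by
              rw [mul_assoc, ← Real.exp_add, ← Real.exp_add]
              unfold s
              congr 2
              ring
          _ ≤ 30 * Real.exp (-x * TT m) * (2 ^ P.I m * 5 ^ P.K m) := by
              have := hmono m hxb
              gcongr
      have k3 : dl (P.I m) (P.J m) (P.K m) m / (2 ^ P.I m * 3 ^ P.J m) ≤
          30 * Real.exp (-x * TT m) := by
        rw [div_le_iff₀ (by positivity)]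
        calc dl (P.I m) (P.J m) (P.K m) m ≤ 30 * Real.exp ((P.s - 1) * TT m) := hDle
          _ = 30 * Real.exp (-(1 - P.c) * TT m) *
              (Real.exp (P.a * TT m) * Real.exp (P.b * TT m)) := by
              rw [mul_assoc, ← Real.exp_add, ← Real.exp_add]
              unfold s
              congr 2
              ring
          _ ≤ 30 * Real.exp (-x * TT m) * (2 ^ P.I m * 3 ^ P.J m) := by
              have := hmono m hxc
              gcongr
      have := Real.exp_pos (-x * TT m)
      nlinarith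
    obtain ⟨p, q, g, hh⟩ := good_point (w := P.W m) (P.I_m m) h1 (hns m) (hkap.trans_lt hξ0)
      (by linarith) hnb
    exact ⟨p, q, g, hh⟩

/-- almost every number has good approximations at all large scales -/
theorem ae_pt : ∀ᵐ ξ ∂(volume : Measure ℝ), ξ ∈ Set.Ioo (0 : ℝ) 1 →
    ∀ᶠ m in atTop, ∃ p q g : ℕ, P.Pt m ξ p q g := by
  obtain ⟨C, x, hC, hx, hvol, hpt⟩ := P.main
  have hsum : ∑' m, volume (P.B m) ≠ ∞ := by
    have h1 : Summable (fun m : ℕ => C * (((m : ℝ) + 1) ^ 4 * Real.exp (-x * TT m))) :=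
      (summable_TT hx).mul_left C
    refine ne_top_of_le_ne_top ?_ (ENNReal.tsum_le_tsum hvol)
    exact h1.tsum_ofReal_ne_top
  filter_upwards [ae_eventually_notMem hsum] with ξ hξ hξ01
  have h0 : Tendsto (fun m => C * Real.exp (-x * TT m)) atTop (𝓝 0) := by
    have := (exp_TT_tendsto hx).const_mul C
    simpa using this
  have h2 : ∀ᶠ m in atTop, C * Real.exp (-x * TT m) < ξ := h0.eventually_lt_const hξ01.1
  have h3 : ∀ᶠ m in atTop, C * Real.exp (-x * TT m) < 1 - ξ :=
    h0.eventually_lt_const (by linarith [hξ01.2])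
  filter_upwards [hξ, h2, h3, hpt] with m a1 a2 a3 a4
  exact a4 ξ a2 (by linarith) a1

end Par

end Pool.Agent.H34x.MA
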