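import Pool.Agent.H34x.MA.Scale

/-!
# One scale: the measure of the bad set
-/

set_option autoImplicit false

namespace Pool.Agent.H34x.MA

open MeasureTheory Finset

/-- no short vectors off the three lines -/
def NoShort (i j k : ℕ) (H : ℝ) : Prop := ∀ p q : ℤ, p ≠ 0 → q ≠ 0 → q - p ≠ 0 →
  (2 : ℤ) ^ i ∣ q → (3 : ℤ) ^ j ∣ p → (5 : ℤ) ^ k ∣ q - p → H ≤ max |(p : ℝ)| |(q : ℝ)|

/-- the numbers whose Dirichlet approximation is small or loses too much of its divisors -/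
def Bad (i j k m w : ℕ) : Set ℝ := {ξ | ∃ p q g : ℕ, 0 < p ∧ p < q ∧ Nat.Coprime p q ∧ 0 < g ∧
  g * q ≤ 2 ^ m ∧ 2 ^ i ∣ g * q ∧ 3 ^ j ∣ g * p ∧ 5 ^ k ∣ g * (q - p) ∧
  |ξ - (p : ℝ) / q| ≤ dl i j k m / (g * q) ∧
  (g * q * 2 ^ w < 2 ^ m ∨ ¬ (2 ^ (i - w) ∣ q ∧ 3 ^ (j - w) ∣ p ∧ 5 ^ (k - w) ∣ q - p))}

/-- the radius of the intervals -/
noncomputable def rr (i j k m e1 e2 e3 K : ℕ) : ℝ := dl i j k m / (MM e1 e2 e3 * 2 ^ K)

/-- a piece of the cover -/
noncomputable def VV (i j k m w e1 e2 e3 K : ℕ) : Set ℝ :=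
  ⋃ t ∈ (if 2 ^ K * 2 ^ w ≤ 2 ^ m then FF (i - e1) (j - e2) (k - e3) K else ∅ : Finset (ℕ × ℕ)),
    Set.Icc ((t.1 : ℝ) / t.2 - rr i j k m e1 e2 e3 K) ((t.1 : ℝ) / t.2 + rr i j k m e1 e2 e3 K)

theorem pow_split' (l : ℕ) (hl : l.Prime) (g : ℕ) (hg : g ≠ 0) : ∃ u : ℕ, l ^ u ∣ g ∧
    ∀ (x i : ℕ), l ^ i ∣ g * x → l ^ (i - u) ∣ x := by
  obtain ⟨u, hu, h⟩ := pow_split l hl g hg
  refine ⟨u, hu, fun x i hi => ?_⟩
  have := h x i (by exact_mod_cast hi)
  exact_mod_cast this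

theorem MM_split {i j k e1 e2 e3 : ℕ} (h1 : e1 ≤ i) (h2 : e2 ≤ j) (h3 : e3 ≤ k) :
    MM (i - e1) (j - e2) (k - e3) * MM e1 e2 e3 = MM i j k := by
  unfold MM
  have a1 : 2 ^ (i - e1) * 2 ^ e1 = 2 ^ i := by rw [← pow_add]; congr 1; omega
  have a2 : 3 ^ (j - e2) * 3 ^ e2 = 3 ^ j := by rw [← pow_add]; congr 1; omega
  have a3 : 5 ^ (k - e3) * 5 ^ e3 = 5 ^ k := by rw [← pow_add]; congr 1; omega
  calc 2 ^ (i - e1) * 3 ^ (j - e2) * 5 ^ (k - e3) * (2 ^ e1 * 3 ^ e2 * 5 ^ e3)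
      = (2 ^ (i - e1) * 2 ^ e1) * (3 ^ (j - e2) * 3 ^ e2) * (5 ^ (k - e3) * 5 ^ e3) := by ring
    _ = _ := by rw [a1, a2, a3]

theorem bad_cover (i j k m w : ℕ) : Bad i j k m w ⊆
    ⋃ e ∈ (range (i + 1) ×ˢ range (j + 1)) ×ˢ (range (k + 1) ×ˢ range (m + 1)),
      VV i j k m w e.1.1 e.1.2 e.2.1 e.2.2 := by
  rintro ξ ⟨p, q, g, hp, hpq, hco, hg, hgq, h2, h3, h5, hξ, hbad⟩
  obtain ⟨u, hu, hu'⟩ := pow_split' 2 Nat.prime_two g hg.ne'
  obtain ⟨v, hv, hv'⟩ := pow_split' 3 Nat.prime_three g hg.ne'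
  obtain ⟨x, hx, hx'⟩ := pow_split' 5 Nat.prime_five g hg.ne'
  have d2 := hu' q i h2
  have d3 := hv' p j h3
  have d5 := hx' (q - p) k h5
  set e1 := min i u with he1
  set e2 := min j v with he2
  set e3 := min k x with he3
  have f1 : i - e1 = i - u := by omega
  have f2 : j - e2 = j - v := by omega
  have f3 : k - e3 = k - x := by omega
  have hD : MM e1 e2 e3 ∣ g := mul_three_dvd ((pow_dvd_pow 2 (min_le_right _ _)).trans hu)
    ((pow_dvd_pow 3 (min_le_right _ _)).trans hv) ((pow_dvd_pow 5 (min_le_right _ _)).trans hx)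
  have hDg : MM e1 e2 e3 ≤ g := Nat.le_of_dvd hg hD
  set K := Nat.log 2 q with hK
  have hq0 : q ≠ 0 := by omega
  have hK1 : 2 ^ K ≤ q := Nat.pow_log_le_self 2 hq0
  have hK2 : q < 2 ^ (K + 1) := Nat.lt_pow_succ_log_self (by norm_num) q
  have hDK : MM e1 e2 e3 * 2 ^ K ≤ g * q := Nat.mul_le_mul hDg hK1
  have hDpos := MM_pos e1 e2 e3
  have hKm : 2 ^ K * 2 ^ w ≤ 2 ^ m := by
    rcases hbad with hb | hb
    · calc 2 ^ K * 2 ^ w ≤ MM e1 e2 e3 * 2 ^ K * 2 ^ w := by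
            apply Nat.mul_le_mul_right
            exact Nat.le_mul_of_pos_left _ hDpos
        _ ≤ g * q * 2 ^ w := Nat.mul_le_mul_right _ hDK
        _ ≤ 2 ^ m := hb.le
    · have hwD : 2 ^ w ≤ MM e1 e2 e3 := by
        by_contra hlt
        push Not at hlt
        apply hb
        have g1 : 2 ^ e1 ≤ MM e1 e2 e3 := by
          unfold MM
          calc 2 ^ e1 = 2 ^ e1 * 1 * 1 := by ring
            _ ≤ 2 ^ e1 * 3 ^ e2 * 5 ^ e3 := by
                gcongr <;> exact Nat.one_le_pow _ _ (by norm_num)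
        have g2 : 2 ^ e2 ≤ MM e1 e2 e3 := by
          unfold MM
          calc 2 ^ e2 = 1 * 2 ^ e2 * 1 := by ring
            _ ≤ 2 ^ e1 * 3 ^ e2 * 5 ^ e3 := by
                gcongr
                · exact Nat.one_le_pow _ _ (by norm_num)
                · norm_num
                · exact Nat.one_le_pow _ _ (by norm_num)
        have g3 : 2 ^ e3 ≤ MM e1 e2 e3 := by
          unfold MM
          calc 2 ^ e3 = 1 * 1 * 2 ^ e3 := by ring
            _ ≤ 2 ^ e1 * 3 ^ e2 * 5 ^ e3 := by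
                gcongr
                · exact Nat.one_le_pow _ _ (by norm_num)
                · exact Nat.one_le_pow _ _ (by norm_num)
                · norm_num
        have k1 : e1 < w := (Nat.pow_lt_pow_iff_right (by norm_num)).1 (g1.trans_lt hlt)
        have k2 : e2 < w := (Nat.pow_lt_pow_iff_right (by norm_num)).1 (g2.trans_lt hlt)
        have k3 : e3 < w := (Nat.pow_lt_pow_iff_right (by norm_num)).1 (g3.trans_lt hlt)
        refine ⟨(pow_dvd_pow 2 (by omega)).trans d2, (pow_dvd_pow 3 (by omega)).trans d3,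
          (pow_dvd_pow 5 (by omega)).trans d5⟩
      calc 2 ^ K * 2 ^ w ≤ 2 ^ K * MM e1 e2 e3 := Nat.mul_le_mul_left _ hwD
        _ = MM e1 e2 e3 * 2 ^ K := by ring
        _ ≤ g * q := hDK
        _ ≤ 2 ^ m := hgq
  have hKle : K ≤ m := by
    have h1 : 2 ^ K ≤ 2 ^ m := by
      calc 2 ^ K = 2 ^ K * 1 := by ring
        _ ≤ 2 ^ K * 2 ^ w := by gcongr; exact Nat.one_le_pow _ _ (by norm_num)
        _ ≤ 2 ^ m := hKm
    exact (Nat.pow_le_pow_iff_right (by norm_num)).1 h1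
  rw [Set.mem_iUnion₂]
  refine ⟨((e1, e2), (e3, K)), ?_, ?_⟩
  · simp only [mem_product, mem_range]
    omega
  · unfold VV
    rw [if_pos hKm, Set.mem_iUnion₂]
    refine ⟨(p, q), mem_FF.2 ⟨hp, hpq, hco, by rw [f1]; exact d2, by rw [f2]; exact d3,
      by rw [f3]; exact d5, hK1, hK2⟩, ?_⟩
    have hle : dl i j k m / (g * q) ≤ rr i j k m e1 e2 e3 K := by
      unfold rr
      have h1 : ((MM e1 e2 e3 * 2 ^ K : ℕ) : ℝ) ≤ ((g * q : ℕ) : ℝ) := by exact_mod_cast hDK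
      push_cast at h1
      have h2 : (0 : ℝ) < MM e1 e2 e3 := by exact_mod_cast hDpos
      exact div_le_div_of_nonneg_left (dl_pos i j k m).le (by positivity) h1
    rw [Set.mem_Icc]
    have := abs_le.1 (hξ.trans hle)
    constructor <;> simp only <;> linarith [this.1, this.2]

theorem vol_VV {i j k m w e1 e2 e3 K : ℕ} {H : ℝ} (hH : 0 < H) (hns : NoShort i j k H)
    (h1 : e1 ≤ i) (h2 : e2 ≤ j) (h3 : e3 ≤ k) :
    volume (VV i j k m w e1 e2 e3 K) ≤ ENNReal.ofReal (8 / 2 ^ w + 4 * dl i j k m / H) := by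
  unfold VV
  by_cases hc : 2 ^ K * 2 ^ w ≤ 2 ^ m
  · rw [if_pos hc]
    rcases (FF (i - e1) (j - e2) (k - e3) K).eq_empty_or_nonempty with hemp | hne
    · rw [hemp]
      simp
    · have hr0 : 0 ≤ rr i j k m e1 e2 e3 K := by
        unfold rr
        have := dl_pos i j k m
        positivity
      have hvol : volume (⋃ t ∈ FF (i - e1) (j - e2) (k - e3) K,
          Set.Icc ((t.1 : ℝ) / t.2 - rr i j k m e1 e2 e3 K)
            ((t.1 : ℝ) / t.2 + rr i j k m e1 e2 e3 K)) ≤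
          ENNReal.ofReal (((FF (i - e1) (j - e2) (k - e3) K).card : ℝ) *
            (2 * rr i j k m e1 e2 e3 K)) := by
        refine (measure_biUnion_finset_le _ _).trans ?_
        have : ∀ t ∈ FF (i - e1) (j - e2) (k - e3) K,
            volume (Set.Icc ((t.1 : ℝ) / t.2 - rr i j k m e1 e2 e3 K)
            ((t.1 : ℝ) / t.2 + rr i j k m e1 e2 e3 K)) =
            ENNReal.ofReal (2 * rr i j k m e1 e2 e3 K) := by
          intro t _
          rw [Real.volume_Icc]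
          congr 1
          ring
        rw [Finset.sum_congr rfl this, Finset.sum_const, nsmul_eq_mul,
          ENNReal.ofReal_mul (p := ((FF (i - e1) (j - e2) (k - e3) K).card : ℝ))
            (Nat.cast_nonneg _), ENNReal.ofReal_natCast]
      refine hvol.trans (ENNReal.ofReal_le_ofReal ?_)
      obtain ⟨⟨p, q⟩, hpq⟩ := hne
      rw [mem_FF] at hpq
      obtain ⟨a1, a2, a3, a4, a5, a6, a7, a8⟩ := hpq
      have hD0 : (0 : ℝ) < MM e1 e2 e3 := by exact_mod_cast MM_pos e1 e2 e3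
      have hM0 : (0 : ℝ) < MM i j k := by exact_mod_cast MM_pos i j k
      have hM'0 : (0 : ℝ) < MM (i - e1) (j - e2) (k - e3) := by
        exact_mod_cast MM_pos (i - e1) (j - e2) (k - e3)
      have hsplit : (MM (i - e1) (j - e2) (k - e3) : ℝ) * MM e1 e2 e3 = MM i j k := by
        exact_mod_cast MM_split h1 h2 h3
      -- the shortest vector
      have hshort : H ≤ MM e1 e2 e3 * 2 ^ (K + 1) := by
        have b0 : MM e1 e2 e3 ≠ 0 := (MM_pos e1 e2 e3).ne'
        have b2 : 2 ^ i ∣ MM e1 e2 e3 * q := by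
          have c1 : 2 ^ e1 ∣ MM e1 e2 e3 := by unfold MM; exact ⟨3 ^ e2 * 5 ^ e3, by ring⟩
          have c2 : 2 ^ i = 2 ^ e1 * 2 ^ (i - e1) := by rw [← pow_add]; congr 1; omega
          rw [c2]
          exact mul_dvd_mul c1 a4
        have b3 : 3 ^ j ∣ MM e1 e2 e3 * p := by
          have c1 : 3 ^ e2 ∣ MM e1 e2 e3 := by unfold MM; exact ⟨2 ^ e1 * 5 ^ e3, by ring⟩
          have c2 : 3 ^ j = 3 ^ e2 * 3 ^ (j - e2) := by rw [← pow_add]; congr 1; omega
          rw [c2]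
          exact mul_dvd_mul c1 a5
        have b5 : 5 ^ k ∣ MM e1 e2 e3 * (q - p) := by
          have c1 : 5 ^ e3 ∣ MM e1 e2 e3 := by unfold MM; exact ⟨2 ^ e1 * 3 ^ e2, by ring⟩
          have c2 : 5 ^ k = 5 ^ e3 * 5 ^ (k - e3) := by rw [← pow_add]; congr 1; omega
          rw [c2]
          exact mul_dvd_mul c1 a6
        have hp0 : p ≠ 0 := by omega
        have hq0 : q ≠ 0 := by omega
        have hz5 : ((MM e1 e2 e3 * q : ℕ) : ℤ) - ((MM e1 e2 e3 * p : ℕ) : ℤ) =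
            ((MM e1 e2 e3 * (q - p) : ℕ) : ℤ) := by
          push_cast [Nat.cast_sub a2.le]
          ring
        have hqp0 : MM e1 e2 e3 * (q - p) ≠ 0 := mul_ne_zero b0 (by omega)
        have h4 := hns ((MM e1 e2 e3 * p : ℕ) : ℤ) ((MM e1 e2 e3 * q : ℕ) : ℤ)
          (by exact_mod_cast mul_ne_zero b0 hp0) (by exact_mod_cast mul_ne_zero b0 hq0)
          (by rw [hz5]; exact_mod_cast hqp0) (by exact_mod_cast b2) (by exact_mod_cast b3)
          (by rw [hz5]; exact_mod_cast b5)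
        refine h4.trans ?_
        have c3 : ((MM e1 e2 e3 * p : ℕ) : ℝ) ≤ MM e1 e2 e3 * 2 ^ (K + 1) := by
          have : MM e1 e2 e3 * p ≤ MM e1 e2 e3 * 2 ^ (K + 1) := Nat.mul_le_mul_left _ (by omega)
          exact_mod_cast this
        have c4 : ((MM e1 e2 e3 * q : ℕ) : ℝ) ≤ MM e1 e2 e3 * 2 ^ (K + 1) := by
          have : MM e1 e2 e3 * q ≤ MM e1 e2 e3 * 2 ^ (K + 1) := Nat.mul_le_mul_left _ (by omega)
          exact_mod_cast this
        have c5 : |(((MM e1 e2 e3 * p : ℕ) : ℤ) : ℝ)| = ((MM e1 e2 e3 * p : ℕ) : ℝ) := by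
          rw [Int.cast_natCast]; exact abs_of_nonneg (Nat.cast_nonneg _)
        have c6 : |(((MM e1 e2 e3 * q : ℕ) : ℤ) : ℝ)| = ((MM e1 e2 e3 * q : ℕ) : ℝ) := by
          rw [Int.cast_natCast]; exact abs_of_nonneg (Nat.cast_nonneg _)
        rw [c5, c6]
        exact max_le c3 c4
      have hcard := card_FF (i - e1) (j - e2) (k - e3) K
      have hcR : (2 : ℝ) ^ K * 2 ^ w ≤ 2 ^ m := by exact_mod_cast hc
      calc ((FF (i - e1) (j - e2) (k - e3) K).card : ℝ) * (2 * rr i j k m e1 e2 e3 K)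
          ≤ (4 ^ (K + 1) / MM (i - e1) (j - e2) (k - e3) + 1) *
            (2 * rr i j k m e1 e2 e3 K) := by gcongr
        _ = 8 * (2 ^ K / 2 ^ m) + 2 * (dl i j k m / (MM e1 e2 e3 * 2 ^ K)) := by
            unfold rr dl
            rw [← hsplit, pow_succ, show (4 : ℝ) ^ K = 2 ^ K * 2 ^ K by
              rw [← mul_pow]; norm_num]
            field_simp
            ring
        _ ≤ 8 / 2 ^ w + 4 * dl i j k m / H := by
            apply add_le_add
            · rw [mul_div_assoc']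
              rw [div_le_div_iff₀ (by positivity) (by positivity)]
              nlinarith
            · have hdl := dl_pos i j k m
              rw [mul_div_assoc', div_le_div_iff₀ (by positivity) hH]
              rw [pow_succ] at hshort
              nlinarith
  · rw [if_neg hc]
    simp

/-- **The measure of the bad set.** -/
theorem vol_bad {i j k m w : ℕ} {H : ℝ} (hH : 0 < H) (hns : NoShort i j k H) :
    volume (Bad i j k m w) ≤ ENNReal.ofReal (((i : ℝ) + 1) * (j + 1) * (k + 1) * (m + 1) *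
      (8 / 2 ^ w + 4 * dl i j k m / H)) := by
  have hdl := dl_pos i j k m
  refine (measure_mono (bad_cover i j k m w)).trans ?_
  refine (measure_biUnion_finset_le _ _).trans ?_
  have h1 : ∀ e ∈ (range (i + 1) ×ˢ range (j + 1)) ×ˢ (range (k + 1) ×ˢ range (m + 1)),
      volume (VV i j k m w e.1.1 e.1.2 e.2.1 e.2.2) ≤
        ENNReal.ofReal (8 / 2 ^ w + 4 * dl i j k m / H) := by
    intro e he
    simp only [mem_product, mem_range] at he
    exact vol_VV hH hns (by omega) (by omega) (by omega)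
  refine (Finset.sum_le_sum h1).trans ?_
  rw [Finset.sum_const, nsmul_eq_mul, card_product, card_product, card_product]
  simp only [card_range]
  rw [ENNReal.ofReal_mul (by positivity)]
  apply le_of_eq
  congr 1
  rw [← ENNReal.ofReal_natCast]
  congr 1
  push_cast
  ring

end Pool.Agent.H34x.MA
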