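import Pool.Agent.H34x.MA.BC
import Pool.Agent.R479.DA.Low

/-!
# From the scales to approximations with prescribed radicals
-/

set_option autoImplicit false

namespace Pool.Agent.H34x.MA

open MeasureTheory Finset Filter Topology
open Pool.Agent.H785R2.ABC (rad)
open Pool.Agent.R479.DA (rad_mul_le rad_le_self)

/-- the fractions `p / q` in lowest terms in `(0, 1)` with `rad p ≤ q ^ al`, `rad (q - p) ≤ q ^ be`,
`rad q ≤ q ^ ga` -/
def Ap (al be ga : ℝ) : Set (ℕ × ℕ) :=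
  {t | 0 < t.1 ∧ t.1 < t.2 ∧ Nat.Coprime t.1 t.2 ∧ (rad t.1 : ℝ) ≤ (t.2 : ℝ) ^ al ∧
    (rad (t.2 - t.1) : ℝ) ≤ (t.2 : ℝ) ^ be ∧ (rad t.2 : ℝ) ≤ (t.2 : ℝ) ^ ga}

theorem rad_prime_pow {l : ℕ} (hl : l.Prime) (e : ℕ) : rad (l ^ e) ≤ l := by
  unfold rad
  rcases Nat.eq_zero_or_pos e with h | h
  · subst h
    simpa using hl.one_lt.le
  · rw [Nat.primeFactors_prime_pow h.ne' hl]
    simp

theorem rad_le_of_pow_dvd {l e n : ℕ} (hl : l.Prime) (hn : 0 < n) (h : l ^ e ∣ n) :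
    rad n * l ^ e ≤ l * n := by
  obtain ⟨n1, hn1⟩ := h
  have h1 : 0 < n1 := by
    rcases Nat.eq_zero_or_pos n1 with h0 | h0
    · rw [h0, mul_zero] at hn1; omega
    · exact h0
  have h2 : rad n ≤ l * n1 := by
    rw [hn1]
    calc rad (l ^ e * n1) ≤ rad (l ^ e) * rad n1 := rad_mul_le _ _
      _ ≤ l * n1 := Nat.mul_le_mul (rad_prime_pow hl e) (rad_le_self h1)
  calc rad n * l ^ e ≤ l * n1 * l ^ e := Nat.mul_le_mul_right _ h2
    _ = l * (l ^ e * n1) := by ring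
    _ = l * n := by rw [← hn1]

theorem ev_exp {y : ℝ} (hy : 0 < y) (C : ℝ) : ∀ᶠ m in atTop, C < Real.exp (y * TT m) := by
  have h : Tendsto (fun m => Real.exp (y * TT m)) atTop atTop :=
    Real.tendsto_exp_atTop.comp (TT_tendsto.const_mul_atTop hy)
  exact h.eventually_gt_atTop C

/-- the divisor that is left -/
theorem left_le {l i w : ℕ} (hl : 1 ≤ l) {y z : ℝ} (h1 : Real.exp y ≤ (l : ℝ) ^ i)
    (h2 : (l : ℝ) ^ w ≤ Real.exp z) : Real.exp (y - z) ≤ (l : ℝ) ^ (i - w) := by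
  have hlR : (1 : ℝ) ≤ l := by exact_mod_cast hl
  have h3 : (l : ℝ) ^ i ≤ (l : ℝ) ^ (i - w) * (l : ℝ) ^ w := by
    rw [← pow_add]
    exact pow_le_pow_right₀ hlR (by omega)
  have h4 : Real.exp y ≤ (l : ℝ) ^ (i - w) * Real.exp z := by
    calc Real.exp y ≤ (l : ℝ) ^ i := h1
      _ ≤ (l : ℝ) ^ (i - w) * (l : ℝ) ^ w := h3
      _ ≤ (l : ℝ) ^ (i - w) * Real.exp z := by gcongr
  rw [Real.exp_sub, div_le_iff₀ (Real.exp_pos _)]
  exact h4

/-- the radical of a number with a large power -/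
theorem rad_bound {l n q d : ℕ} (hl : l.Prime) (hn : 0 < n) (hnq : n ≤ q) (h : l ^ d ∣ n)
    {T y ga : ℝ} (hga : ga ≤ 1) (hT : (q : ℝ) ≤ Real.exp T) (hd : Real.exp y ≤ (l : ℝ) ^ d)
    (hy : (l : ℝ) < Real.exp (y - (1 - ga) * T)) : (rad n : ℝ) ≤ (q : ℝ) ^ ga := by
  have hq : (0 : ℝ) < q := by
    have : 0 < q := by omega
    exact_mod_cast this
  have hnR : (n : ℝ) ≤ q := by exact_mod_cast hnq
  have h1 : (rad n : ℝ) * (l : ℝ) ^ d ≤ l * n := by exact_mod_cast rad_le_of_pow_dvd hl hn h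
  have h2 : (rad n : ℝ) * Real.exp y ≤ l * q := by
    calc (rad n : ℝ) * Real.exp y ≤ rad n * (l : ℝ) ^ d := by gcongr
      _ ≤ l * n := h1
      _ ≤ l * q := by gcongr
  have h3 : (q : ℝ) ≤ (q : ℝ) ^ ga * Real.exp ((1 - ga) * T) := by
    have e1 : (q : ℝ) = (q : ℝ) ^ ga * (q : ℝ) ^ (1 - ga) := by
      rw [← Real.rpow_add hq]
      simp
    have e2 : (q : ℝ) ^ (1 - ga) ≤ Real.exp ((1 - ga) * T) := by
      calc (q : ℝ) ^ (1 - ga) ≤ (Real.exp T) ^ (1 - ga) :=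
            Real.rpow_le_rpow hq.le hT (by linarith)
        _ = Real.exp ((1 - ga) * T) := by rw [← Real.exp_mul]; congr 1; ring
    calc (q : ℝ) = (q : ℝ) ^ ga * (q : ℝ) ^ (1 - ga) := e1
      _ ≤ (q : ℝ) ^ ga * Real.exp ((1 - ga) * T) := by gcongr
  have h4 : (rad n : ℝ) * Real.exp y ≤ (q : ℝ) ^ ga * Real.exp y := by
    calc (rad n : ℝ) * Real.exp y ≤ l * q := h2
      _ ≤ Real.exp (y - (1 - ga) * T) * ((q : ℝ) ^ ga * Real.exp ((1 - ga) * T)) := by gcongr
      _ = (q : ℝ) ^ ga * (Real.exp (y - (1 - ga) * T) * Real.exp ((1 - ga) * T)) := by ring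
      _ = (q : ℝ) ^ ga * Real.exp y := by
          rw [← Real.exp_add]; congr 2; ring
  exact le_of_mul_le_mul_right h4 (Real.exp_pos _)

namespace Par

variable (P : Par)

/-- **from a scale to an approximation with prescribed radicals** -/
theorem conv {al be ga τ : ℝ} (hal1 : al ≤ 1) (hbe1 : be ≤ 1) (hga1 : ga ≤ 1)
    (hal : 1 - al < P.b - 2 * P.e) (hbe : 1 - be < P.c - 3 * P.e) (hga : 1 - ga < P.a - P.e)
    (hτ0 : 0 ≤ τ) (hτ : τ + P.e < 2 - P.s) :
    ∀ᶠ m in atTop, ∀ (ξ : ℝ) (p q g : ℕ), P.Pt m ξ p q g → (p, q) ∈ Ap al be ga ∧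
      |ξ - (p : ℝ) / q| < (q : ℝ) ^ (-τ) ∧ Real.exp ((P.a - P.e) * TT m) ≤ q ∧
      (q : ℝ) ≤ Real.exp (TT m) := by
  have x1 : 0 < P.a - P.e - (1 - ga) := by linarith
  have x2 : 0 < P.b - 2 * P.e - (1 - al) := by linarith
  have x3 : 0 < P.c - 3 * P.e - (1 - be) := by linarith
  have x4 : 0 < 2 - P.s - τ - P.e := by linarith
  filter_upwards [ev_exp x1 2, ev_exp x2 3, ev_exp x3 5, ev_exp x4 30] with m m1 m2 m3 m4
  rintro ξ p q g ⟨hp, hpq, hco, hg, hgq, hgq2, h2, h3, h5, hd⟩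
  have hT := TT_nonneg m
  have he := P.e0
  have hqpos : (0 : ℝ) < q := by
    have : 0 < q := by omega
    exact_mod_cast this
  have hgR : (1 : ℝ) ≤ g := by exact_mod_cast hg
  have hQle : (g : ℝ) * q ≤ Real.exp (TT m) := by
    rw [← exp_TT]; exact_mod_cast hgq
  have hqQ : (q : ℝ) ≤ g * q := by nlinarith
  have hqT : (q : ℝ) ≤ Real.exp (TT m) := hqQ.trans hQle
  have l2 : Real.exp (P.a * TT m - P.e * TT m) ≤ (2 : ℝ) ^ (P.I m - P.W m) := by
    have := left_le (l := 2) (i := P.I m) (w := P.W m) (by norm_num)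
      (by exact_mod_cast P.I_ge m) (by exact_mod_cast ww_pow2 he.le m)
    exact_mod_cast this
  have l3 : Real.exp (P.b * TT m - 2 * P.e * TT m) ≤ (3 : ℝ) ^ (P.J m - P.W m) := by
    have := left_le (l := 3) (i := P.J m) (w := P.W m) (by norm_num)
      (by exact_mod_cast P.J_ge m) (by exact_mod_cast ww_pow3 he.le m)
    exact_mod_cast this
  have l5 : Real.exp (P.c * TT m - 3 * P.e * TT m) ≤ (5 : ℝ) ^ (P.K m - P.W m) := by
    have := left_le (l := 5) (i := P.K m) (w := P.W m) (by norm_num)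
      (by exact_mod_cast P.K_ge m) (by exact_mod_cast ww_pow5 he.le m)
    exact_mod_cast this
  refine ⟨⟨hp, hpq, hco, ?_, ?_, ?_⟩, ?_, ?_, hqT⟩
  · refine rad_bound Nat.prime_three hp hpq.le h3 hal1 hqT (by exact_mod_cast l3) ?_
    have : P.b * TT m - 2 * P.e * TT m - (1 - al) * TT m =
      (P.b - 2 * P.e - (1 - al)) * TT m := by ring
    rw [this]
    exact_mod_cast m2
  · refine rad_bound Nat.prime_five (by omega) (by omega) h5 hbe1 hqT
      (by exact_mod_cast l5) ?_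
    have : P.c * TT m - 3 * P.e * TT m - (1 - be) * TT m =
      (P.c - 3 * P.e - (1 - be)) * TT m := by ring
    rw [this]
    exact_mod_cast m3
  · refine rad_bound Nat.prime_two (by omega) le_rfl h2 hga1 hqT
      (by exact_mod_cast l2) ?_
    have : P.a * TT m - P.e * TT m - (1 - ga) * TT m =
      (P.a - P.e - (1 - ga)) * TT m := by ring
    rw [this]
    exact_mod_cast m1
  · -- the distance
    set Q : ℝ := g * q with hQ
    have hQ0 : 0 < Q := by positivity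
    have hQge : Real.exp ((1 - P.e) * TT m) ≤ Q := by
      have h6 : (2 : ℝ) ^ m ≤ Q * 2 ^ P.W m := by rw [hQ]; exact_mod_cast hgq2
      rw [exp_TT] at h6
      have h7 : (2 : ℝ) ^ P.W m ≤ Real.exp (P.e * TT m) := ww_pow2 he.le m
      have h8 : Real.exp (TT m) ≤ Q * Real.exp (P.e * TT m) := by
        refine h6.trans ?_
        gcongr
      have h9 : Real.exp ((1 - P.e) * TT m) * Real.exp (P.e * TT m) = Real.exp (TT m) := by
        rw [← Real.exp_add]; congr 1; ring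
      rw [← h9] at h8
      exact le_of_mul_le_mul_right h8 (Real.exp_pos _)
    have hQpow : Real.exp ((1 - τ - P.e) * TT m) ≤ Q ^ (1 - τ) := by
      rcases le_or_gt τ 1 with h | h
      · calc Real.exp ((1 - τ - P.e) * TT m)
            ≤ Real.exp ((1 - P.e) * TT m * (1 - τ)) := by
              apply Real.exp_le_exp.2
              nlinarith [mul_nonneg hτ0 (mul_nonneg he.le hT)]
          _ = (Real.exp ((1 - P.e) * TT m)) ^ (1 - τ) := Real.exp_mul _ _
          _ ≤ Q ^ (1 - τ) := Real.rpow_le_rpow (Real.exp_pos _).le hQge (by linarith)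
      · calc Real.exp ((1 - τ - P.e) * TT m) ≤ Real.exp (TT m * (1 - τ)) := by
              apply Real.exp_le_exp.2
              nlinarith [mul_nonneg he.le hT]
          _ = (Real.exp (TT m)) ^ (1 - τ) := Real.exp_mul _ _
          _ ≤ Q ^ (1 - τ) := by
              apply Real.rpow_le_rpow_of_nonpos hQ0 hQle (by linarith)
    have hDlt : P.D m < Q ^ (1 - τ) := by
      calc P.D m ≤ 30 * Real.exp ((P.s - 1) * TT m) := P.D_le m
        _ < Real.exp ((2 - P.s - τ - P.e) * TT m) * Real.exp ((P.s - 1) * TT m) := by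
            gcongr
        _ = Real.exp ((1 - τ - P.e) * TT m) := by rw [← Real.exp_add]; congr 1; ring
        _ ≤ Q ^ (1 - τ) := hQpow
    calc |ξ - (p : ℝ) / q| ≤ P.D m / Q := hd
      _ < Q ^ (1 - τ) / Q := by gcongr
      _ = Q ^ (-τ) := by
          rw [show (1 - τ) = -τ + 1 by ring, Real.rpow_add hQ0, Real.rpow_one]
          field_simp
      _ ≤ (q : ℝ) ^ (-τ) := Real.rpow_le_rpow_of_nonpos hqpos hqQ (by linarith)
  · have h6 : (2 : ℝ) ^ (P.I m - P.W m) ≤ q := by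
      have : 2 ^ (P.I m - P.W m) ≤ q := Nat.le_of_dvd (by omega) h2
      exact_mod_cast this
    refine le_trans ?_ h6
    refine le_trans (le_of_eq ?_) l2
    congr 1
    ring

end Par

/-- parameters for given exponents -/
theorem exists_par {al be ga τ : ℝ} (hal0 : 0 < al) (hbe0 : 0 < be) (hga0 : 0 < ga)
    (hal1 : al ≤ 1) (hbe1 : be ≤ 1) (hga1 : ga ≤ 1) (h1 : 1 < al + be + ga)
    (hτ : τ < al + be + ga - 1) : ∃ P : Par, 1 - al < P.b - 2 * P.e ∧ 1 - be < P.c - 3 * P.e ∧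
      1 - ga < P.a - P.e ∧ τ + P.e < 2 - P.s := by
  set s := al + be + ga with hs
  -- `η` small
  obtain ⟨η, hη0, hη⟩ : ∃ η : ℝ, 0 < η ∧ 3 * η < al ∧ 3 * η < be ∧ 3 * η < ga ∧
      10 * η < s - 1 ∧ 10 * η < s - 1 - τ := by
    have hpos : 0 < min (min (min al be) ga) (min (s - 1) (s - 1 - τ)) := by
      refine lt_min (lt_min (lt_min hal0 hbe0) hga0) (lt_min (by linarith) (by linarith))
    set μ := min (min (min al be) ga) (min (s - 1) (s - 1 - τ)) with hμ
    have m1 : μ ≤ al := (min_le_left _ _).trans ((min_le_left _ _).trans (min_le_left _ _))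
    have m2 : μ ≤ be := (min_le_left _ _).trans ((min_le_left _ _).trans (min_le_right _ _))
    have m3 : μ ≤ ga := (min_le_left _ _).trans (min_le_right _ _)
    have m4 : μ ≤ s - 1 := (min_le_right _ _).trans (min_le_left _ _)
    have m5 : μ ≤ s - 1 - τ := (min_le_right _ _).trans (min_le_right _ _)
    exact ⟨μ / 11, by positivity, by linarith, by linarith, by linarith, by linarith, by linarith⟩
  obtain ⟨g1, g2, g3, g4, g5⟩ := hη
  refine ⟨⟨1 - ga + 3 * η, 1 - al + 3 * η, 1 - be + 3 * η, η / 2, by linarith, by linarith,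
    by linarith, by linarith, by linarith, by linarith, by linarith, by linarith⟩, ?_, ?_, ?_, ?_⟩
  · show 1 - al < 1 - al + 3 * η - 2 * (η / 2)
    linarith
  · show 1 - be < 1 - be + 3 * η - 3 * (η / 2)
    linarith
  · show 1 - ga < 1 - ga + 3 * η - η / 2
    linarith
  · show τ + η / 2 < 2 - (1 - ga + 3 * η + (1 - al + 3 * η) + (1 - be + 3 * η))
    linarith

/-- **Almost every number has many approximations with prescribed radicals.** -/
theorem ae_ap {al be ga τ : ℝ} (hal0 : 0 < al) (hbe0 : 0 < be) (hga0 : 0 < ga)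
    (hal1 : al ≤ 1) (hbe1 : be ≤ 1) (hga1 : ga ≤ 1) (h1 : 1 < al + be + ga)
    (hτ : τ < al + be + ga - 1) :
    ∀ᵐ x ∂(volume : Measure ℝ), x ∈ Set.Ioo (0 : ℝ) 1 → ∃ᶠ q : ℕ in atTop,
      ∃ p : ℕ, (p, q) ∈ Ap al be ga ∧ |x - (p : ℝ) / q| < (q : ℝ) ^ (-τ) := by
  set τ' := max τ 0 with hτ'
  have hτ'0 : 0 ≤ τ' := le_max_right _ _
  have hττ' : τ ≤ τ' := le_max_left _ _
  have hτ'1 : τ' < al + be + ga - 1 := max_lt hτ (by linarith)
  obtain ⟨P, p1, p2, p3, p4⟩ := exists_par hal0 hbe0 hga0 hal1 hbe1 hga1 h1 hτ'1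
  have hconv := P.conv hal1 hbe1 hga1 p1 p2 p3 hτ'0 p4
  have hae : 0 < P.a - P.e := by linarith
  filter_upwards [P.ae_pt] with x hx hx01
  rw [Filter.frequently_atTop]
  intro n
  obtain ⟨m, hm1, hm2, hm3⟩ := ((hx hx01).and (hconv.and (ev_exp hae n))).exists
  obtain ⟨p, q, g, hpt⟩ := hm1
  obtain ⟨c1, c2, c3, c4⟩ := hm2 x p q g hpt
  have hq : (n : ℝ) < q := hm3.trans_le c3
  have hq1 : (1 : ℝ) ≤ q := by
    have h2 : 0 < q := by
      have := c1.2.1
      simp only at this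
      omega
    exact_mod_cast h2
  refine ⟨q, by exact_mod_cast hq.le, p, c1, c2.trans_le ?_⟩
  exact Real.rpow_le_rpow_of_exponent_le hq1 (by linarith)

end Pool.Agent.H34x.MA
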