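import Pool.Agent.H34x.MA.Conv
import Pool.Agent.W222.UABC.Tri

/-!
# The Hausdorff dimension
-/

set_option autoImplicit false

namespace Pool.Agent.H34x.MA

open MeasureTheory Finset Filter Topology
open Pool.Agent.H785R2.ABC (rad)
open Pool.Agent.R479.DA (rad_mul_le rad_le_self dimH_approx Sm dim_sm)
open scoped ENNReal NNReal

/-- the real numbers with infinitely many approximations of exponent `τ` from a set of
fractions -/
def WP (P : Set (ℕ × ℕ)) (τ : ℝ) : Set ℝ :=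
  {ξ : ℝ | {t | t ∈ P ∧ |ξ - (t.1 : ℝ) / t.2| ≤ (t.2 : ℝ) ^ (-τ)}.Infinite}

theorem mem_WP_of_frequently {P : Set (ℕ × ℕ)} {τ x : ℝ}
    (h : ∃ᶠ q : ℕ in atTop, ∃ p : ℕ, (p, q) ∈ P ∧ |x - (p : ℝ) / q| ≤ (q : ℝ) ^ (-τ)) :
    x ∈ WP P τ := by
  unfold WP
  simp only [Set.mem_ofPred_eq]
  intro hfin
  have h1 : (Prod.snd '' {t : ℕ × ℕ | t ∈ P ∧
      |x - (t.1 : ℝ) / t.2| ≤ (t.2 : ℝ) ^ (-τ)}).Finite := hfin.image _
  obtain ⟨K, hK⟩ := h1.bddAbove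
  obtain ⟨q, hq, p, hp, hd⟩ := (Filter.frequently_atTop.1 h) (K + 1)
  have h2 : q ≤ K := hK ⟨(p, q), ⟨hp, hd⟩, rfl⟩
  omega

/-- lower bound for the dimension from the mass transference principle -/
theorem dim_lower {P : Set (ℕ × ℕ)} (hP1 : ∀ t ∈ P, 1 ≤ t.2) {σ τ : ℝ} (h1 : 0 < σ)
    (hτ : σ ≤ τ) (hae : ∀ᵐ x ∂(volume : Measure ℝ), x ∈ Set.Ioo (0 : ℝ) 1 → ∃ᶠ q : ℕ in atTop,
      ∃ p : ℕ, (p, q) ∈ P ∧ |x - (p : ℝ) / q| < (q : ℝ) ^ (-σ)) :
    ENNReal.ofReal (σ / τ) ≤ dimH (WP P τ) := by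
  have hτ0 : 0 < τ := by linarith
  set t : ℝ := σ / τ with ht
  have ht0 : 0 < t := div_pos h1 hτ0
  have ht1 : t ≤ 1 := (div_le_one hτ0).2 hτ
  set C : ℕ → Set ℝ := fun q => {c | ∃ p : ℕ, (p, q) ∈ P ∧ c = (p : ℝ) / q} with hC
  set ρ : ℕ → ℝ := fun q => ((max q 1 : ℕ) : ℝ) ^ (-σ) with hρ
  have hρpos : ∀ q, 0 < ρ q := fun q => by
    have : (0 : ℝ) < ((max q 1 : ℕ) : ℝ) := by
      have : 0 < max q 1 := by omega
      exact_mod_cast this
    simp only [hρ]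
    positivity
  have hρ1 : ∀ q : ℕ, 1 ≤ q → ρ q = (q : ℝ) ^ (-σ) := by
    intro q hq
    simp only [hρ]
    rw [max_eq_left hq]
  have hρ0 : Tendsto ρ atTop (𝓝 0) := by
    have h4 : Tendsto (fun q : ℕ => (q : ℝ) ^ (-σ)) atTop (𝓝 0) :=
      (tendsto_rpow_neg_atTop h1).comp tendsto_natCast_atTop_atTop
    refine h4.congr' ?_
    filter_upwards [eventually_ge_atTop 1] with q hq
    exact (hρ1 q hq).symm
  have hSpos : ∀ p q : ℕ, (p, q) ∈ P → 1 ≤ q := fun p q h => hP1 _ h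
  have hfull : ∀ᵐ x ∂(volume : Measure ℝ), x ∈ Set.Ioo 0 1 →
      ∃ᶠ k in atTop, ∃ c ∈ C k, |x - c| < ρ k := by
    filter_upwards [hae] with x hx hx01
    refine (hx hx01).mono ?_
    rintro q ⟨p, hp, hd⟩
    exact ⟨(p : ℝ) / q, ⟨p, hp, rfl⟩, by rw [hρ1 q (hSpos p q hp)]; exact hd⟩
  -- the content
  have hcont : ∀ s : ℝ, 0 < s → s < t → μH[s] (WP P τ) ≠ 0 := by
    intro s hs hst hzero
    have h4 : ENNReal.ofReal (1 / 20) ≤ μH[s] (WP P τ) := by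
      rw [Measure.hausdorffMeasure_apply]
      refine le_trans ?_ (le_iSup₂ (f := fun (r : ℝ≥0∞) (_ : 0 < r) =>
        ⨅ (t : ℕ → Set ℝ) (_ : WP P τ ⊆ ⋃ n, t n) (_ : ∀ n, Metric.ediam (t n) ≤ r),
          ∑' n, ⨆ _ : (t n).Nonempty, Metric.ediam (t n) ^ s) 1 one_pos)
      refine le_iInf fun A => le_iInf fun hA => le_iInf fun _ => ?_
      have h5 := Pool.Agent.R331.MT.content hs hst ht1 C ρ hρpos hρ0 hfull A (by
        refine subset_trans ?_ hA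
        rintro x ⟨-, hx⟩
        apply mem_WP_of_frequently
        refine hx.mono ?_
        rintro q ⟨c, ⟨p, hp, rfl⟩, hc⟩
        refine ⟨p, hp, ?_⟩
        have hq := hSpos p q hp
        rw [hρ1 q hq, ← Real.rpow_mul (Nat.cast_nonneg q)] at hc
        have h6 : -σ * (1 / t) = -τ := by
          rw [ht]
          field_simp
        rw [h6] at hc
        exact hc.le)
      refine h5.trans (ENNReal.tsum_le_tsum fun n => ?_)
      rcases (A n).eq_empty_or_nonempty with hn | hn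
      · rw [hn, Metric.ediam_empty, ENNReal.zero_rpow_of_pos hs]
        exact zero_le
      · exact le_iSup (fun _ : (A n).Nonempty => Metric.ediam (A n) ^ s) hn
    rw [hzero] at h4
    have h5 : ENNReal.ofReal (1 / 20) = 0 := nonpos_iff_eq_zero.1 h4
    rw [ENNReal.ofReal_eq_zero] at h5
    norm_num at h5
  refine le_of_forall_lt fun c hc => ?_
  -- choose `s` between
  obtain ⟨s, hs1, hs2⟩ := ENNReal.lt_iff_exists_real_btwn.1 hc
  obtain ⟨hs2, hs3⟩ := hs2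
  have hst : s < t := (ENNReal.ofReal_lt_ofReal_iff ht0).1 hs3
  have hs0 : 0 < s := by
    have : 0 < ENNReal.ofReal s := lt_of_le_of_lt zero_le hs2
    exact ENNReal.ofReal_pos.1 this
  have h6 := hcont s hs0 hst
  have h7 : ((Real.toNNReal s : ℝ≥0) : ℝ) = s := Real.coe_toNNReal s hs0.le
  have h8 := le_dimH_of_hausdorffMeasure_ne_zero (d := Real.toNNReal s) (s := WP P τ)
    (by rw [h7]; exact h6)
  exact lt_of_lt_of_le hs2 h8

theorem Ap_pos {al be ga : ℝ} : ∀ t ∈ Ap al be ga, 1 ≤ t.2 := by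
  rintro ⟨p, q⟩ ⟨h1, h2, -⟩
  simp only at h1 h2 ⊢
  omega

/-- the lower bound for the dimension -/
theorem dim_ge {al be ga τ : ℝ} (hal0 : 0 < al) (hbe0 : 0 < be) (hga0 : 0 < ga)
    (hal1 : al ≤ 1) (hbe1 : be ≤ 1) (hga1 : ga ≤ 1) (h1 : 1 < al + be + ga) (hτ : 0 < τ) :
    ENNReal.ofReal (min 1 ((al + be + ga - 1) / τ)) ≤ dimH (WP (Ap al be ga) τ) := by
  rw [ENNReal.ofReal_min, ENNReal.ofReal_one]
  rcases lt_or_ge τ (al + be + ga - 1) with h | h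
  · refine (min_le_left _ _).trans ?_
    have h4 : (volume : Measure ℝ) (WP (Ap al be ga) τ) ≠ 0 := by
      intro hzero
      have h5 : (volume : Measure ℝ) (Set.Ioo (0 : ℝ) 1) ≤ volume (WP (Ap al be ga) τ) := by
        apply measure_mono_ae
        filter_upwards [ae_ap hal0 hbe0 hga0 hal1 hbe1 hga1 h1 h] with x hx hx01
        apply mem_WP_of_frequently
        exact (hx hx01).mono fun q ⟨p, hp, hd⟩ => ⟨p, hp, hd.le⟩
      rw [hzero, Real.volume_Ioo] at h5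
      norm_num at h5
    rw [← hausdorffMeasure_real] at h4
    have h6 := le_dimH_of_hausdorffMeasure_ne_zero (d := 1) (s := WP (Ap al be ga) τ)
      (by rw [NNReal.coe_one]; exact h4)
    simpa using h6
  · refine (min_le_right _ _).trans ?_
    set S := al + be + ga - 1 with hS
    have h5 : Tendsto (fun x : ℝ => ENNReal.ofReal (x / τ)) (𝓝[<] S)
        (𝓝 (ENNReal.ofReal (S / τ))) := by
      apply ENNReal.tendsto_ofReal
      apply Tendsto.mono_left _ nhdsWithin_le_nhds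
      exact Continuous.tendsto (by fun_prop) S
    refine le_of_tendsto h5 ?_
    have h6 : ∀ᶠ x : ℝ in 𝓝[<] S, 0 < x := by
      apply eventually_nhdsWithin_of_eventually_nhds
      exact lt_mem_nhds (by linarith)
    filter_upwards [h6, self_mem_nhdsWithin] with x hx hx'
    have hx'' : x < S := hx'
    exact dim_lower Ap_pos hx (by linarith) (ae_ap hal0 hbe0 hga0 hal1 hbe1 hga1 h1 hx'')

/-- the count of the integers with a small radical -/
theorem card_rad {η : ℝ} (hη : 0 < η) : ∃ D : ℝ, 0 < D ∧ ∀ (X x : ℝ) (E : Finset ℕ), 1 ≤ X →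
    (∀ n ∈ E, 0 < n ∧ (n : ℝ) ≤ X ∧ (rad n : ℝ) ≤ X ^ x) → (E.card : ℝ) ≤ D * X ^ (x + η) := by
  obtain ⟨D, hD, h⟩ := Pool.Agent.W222.UABC.sum_gw hη
  refine ⟨D, hD, fun X x E hX hE => ?_⟩
  have hX0 : 0 < X := by linarith
  have h1 := h E fun n hn => (hE n hn).1.ne'
  have h2 : ∀ n ∈ E, X ^ (-(x + η)) ≤
      Real.exp (-(Real.log (Pool.Agent.W222.UABC.rd n)) - η * Real.log n) := by
    intro n hn
    obtain ⟨a1, a2, a3⟩ := hE n hn
    have hn0 : (0 : ℝ) < n := by exact_mod_cast a1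
    have hr0 : (0 : ℝ) < Pool.Agent.W222.UABC.rd n := by
      exact_mod_cast Pool.Agent.W222.UABC.rd_pos n
    have hr : ((Pool.Agent.W222.UABC.rd n : ℕ) : ℝ) ≤ X ^ x := a3
    have e1 : Real.log (Pool.Agent.W222.UABC.rd n) ≤ x * Real.log X := by
      rw [← Real.log_rpow hX0]
      exact Real.log_le_log hr0 hr
    have e2 : Real.log n ≤ Real.log X := Real.log_le_log hn0 a2
    rw [Real.rpow_def_of_pos hX0]
    apply Real.exp_le_exp.2
    nlinarith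
  have h3 : (E.card : ℝ) * X ^ (-(x + η)) ≤ D := by
    calc (E.card : ℝ) * X ^ (-(x + η)) = ∑ n ∈ E, X ^ (-(x + η)) := by
          rw [Finset.sum_const, nsmul_eq_mul]
      _ ≤ _ := Finset.sum_le_sum h2
      _ ≤ D := h1
  rw [Real.rpow_neg hX0.le, ← div_eq_mul_inv, div_le_iff₀ (by positivity)] at h3
  exact h3

/-- **upper bound from two of the radicals** -/
theorem dim_two {P : Set (ℕ × ℕ)} (hP1 : ∀ t ∈ P, 1 ≤ t.2) (u v : ℕ × ℕ → ℕ) (x y : ℝ)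
    (hx : 0 ≤ x) (hy : 0 ≤ y)
    (hinj : Set.InjOn (fun t => (u t, v t)) P)
    (hu : ∀ t ∈ P, 0 < u t ∧ u t ≤ t.2 ∧ (rad (u t) : ℝ) ≤ (t.2 : ℝ) ^ x)
    (hv : ∀ t ∈ P, 0 < v t ∧ v t ≤ t.2 ∧ (rad (v t) : ℝ) ≤ (t.2 : ℝ) ^ y) {τ : ℝ} (hτ : 0 < τ) :
    dimH (WP P τ) ≤ ENNReal.ofReal ((x + y) / τ) := by
  classical
  apply dimH_approx P hP1 (by positivity) hτ
  intro ε hε
  obtain ⟨D, hD, hc⟩ := card_rad (half_pos hε)
  refine ⟨D * D, fun X hX => ?_⟩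
  have hX0 : 0 < X := by linarith
  set S := {t | t ∈ P ∧ (t.2 : ℝ) ≤ X} with hS
  set N := ⌊X⌋₊ with hN
  set U : Finset ℕ := (Finset.range (N + 1)).filter fun n => 0 < n ∧ (n : ℝ) ≤ X ∧
    (rad n : ℝ) ≤ X ^ x with hU
  set V : Finset ℕ := (Finset.range (N + 1)).filter fun n => 0 < n ∧ (n : ℝ) ≤ X ∧
    (rad n : ℝ) ≤ X ^ y with hV
  have hmaps : Set.MapsTo (fun t => (u t, v t)) S ((U ×ˢ V : Finset (ℕ × ℕ)) : Set (ℕ × ℕ)) := by
    intro t ht
    obtain ⟨htP, htX⟩ := ht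
    obtain ⟨a1, a2, a3⟩ := hu t htP
    obtain ⟨b1, b2, b3⟩ := hv t htP
    have t0 : (0 : ℝ) ≤ t.2 := Nat.cast_nonneg _
    have a4 : ((u t : ℕ) : ℝ) ≤ X := le_trans (by exact_mod_cast a2) htX
    have b4 : ((v t : ℕ) : ℝ) ≤ X := le_trans (by exact_mod_cast b2) htX
    rw [Finset.mem_coe, Finset.mem_product, hU, hV]
    simp only [Finset.mem_filter, Finset.mem_range]
    refine ⟨⟨Nat.lt_succ_of_le (Nat.le_floor a4), a1, a4, a3.trans ?_⟩,
      ⟨Nat.lt_succ_of_le (Nat.le_floor b4), b1, b4, b3.trans ?_⟩⟩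
    · exact Real.rpow_le_rpow t0 htX hx
    · exact Real.rpow_le_rpow t0 htX hy
  have hinjS : Set.InjOn (fun t => (u t, v t)) S := hinj.mono fun t ht => ht.1
  have hfin : S.Finite := (Finset.finite_toSet (U ×ˢ V)).of_injOn hmaps hinjS
  refine ⟨hfin, ?_⟩
  have h1 := Set.ncard_le_ncard_of_injOn _ hmaps hinjS (Finset.finite_toSet _)
  rw [Set.ncard_coe_finset, Finset.card_product] at h1
  have h2 : (U.card : ℝ) ≤ D * X ^ (x + ε / 2) := hc X x U hX fun n hn => by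
    rw [hU, Finset.mem_filter] at hn
    exact hn.2
  have h3 : (V.card : ℝ) ≤ D * X ^ (y + ε / 2) := hc X y V hX fun n hn => by
    rw [hV, Finset.mem_filter] at hn
    exact hn.2
  calc ((S.ncard : ℕ) : ℝ) ≤ ((U.card * V.card : ℕ) : ℝ) := by exact_mod_cast h1
    _ = (U.card : ℝ) * V.card := by push_cast; ring
    _ ≤ (D * X ^ (x + ε / 2)) * (D * X ^ (y + ε / 2)) := by gcongr
    _ = D * D * (X ^ (x + ε / 2) * X ^ (y + ε / 2)) := by ring
    _ = D * D * X ^ (x + y + ε) := by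
        rw [← Real.rpow_add hX0]; congr 2; ring

/-- **the upper bounds for the dimension** -/
theorem dim_le {al be ga τ : ℝ} (hal0 : 0 < al) (hbe0 : 0 < be) (hga0 : 0 < ga) (hτ : 0 < τ) :
    dimH (WP (Ap al be ga) τ) ≤ ENNReal.ofReal ((al + be) / τ) ∧
    dimH (WP (Ap al be ga) τ) ≤ ENNReal.ofReal ((al + ga) / τ) ∧
    dimH (WP (Ap al be ga) τ) ≤ ENNReal.ofReal ((be + ga) / τ) ∧
    dimH (WP (Ap al be ga) τ) ≤
      ENNReal.ofReal (Pool.Agent.W221.ABC7.Fx (al + be + ga) / τ) := by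
  refine ⟨?_, ?_, ?_, ?_⟩
  · apply dim_two Ap_pos (fun t => t.1) (fun t => t.2 - t.1) al be hal0.le hbe0.le _ _ _ hτ
    · rintro ⟨p, q⟩ ⟨h1, h2, -⟩ ⟨p', q'⟩ ⟨h1', h2', -⟩ h
      simp only [Prod.mk.injEq] at h h1 h2 h1' h2'
      ext <;> simp only <;> omega
    · rintro ⟨p, q⟩ ⟨h1, h2, h3, h4, h5, h6⟩
      exact ⟨h1, h2.le, h4⟩
    · rintro ⟨p, q⟩ ⟨h1, h2, h3, h4, h5, h6⟩
      simp only at h1 h2 h5 ⊢
      exact ⟨by omega, by omega, h5⟩
  · apply dim_two Ap_pos (fun t => t.1) (fun t => t.2) al ga hal0.le hga0.le _ _ _ hτ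
    · rintro ⟨p, q⟩ - ⟨p', q'⟩ - h
      exact h
    · rintro ⟨p, q⟩ ⟨h1, h2, h3, h4, h5, h6⟩
      exact ⟨h1, h2.le, h4⟩
    · rintro ⟨p, q⟩ ⟨h1, h2, h3, h4, h5, h6⟩
      simp only at h1 h2 h6 ⊢
      exact ⟨by omega, le_rfl, h6⟩
  · apply dim_two Ap_pos (fun t => t.2 - t.1) (fun t => t.2) be ga hbe0.le hga0.le _ _ _ hτ
    · rintro ⟨p, q⟩ ⟨h1, h2, -⟩ ⟨p', q'⟩ ⟨h1', h2', -⟩ h
      simp only [Prod.mk.injEq] at h h1 h2 h1' h2'
      ext <;> simp only <;> omega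
    · rintro ⟨p, q⟩ ⟨h1, h2, h3, h4, h5, h6⟩
      simp only at h1 h2 h5 ⊢
      exact ⟨by omega, by omega, h5⟩
    · rintro ⟨p, q⟩ ⟨h1, h2, h3, h4, h5, h6⟩
      simp only at h1 h2 h6 ⊢
      exact ⟨by omega, le_rfl, h6⟩
  · refine le_trans (dimH_mono ?_) (dim_sm 1 (al + be + ga) τ (by linarith) hτ)
    intro ξ hξ
    unfold WP at hξ
    simp only [Set.mem_ofPred_eq] at hξ ⊢
    refine hξ.mono ?_
    rintro ⟨p, q⟩ ⟨⟨h1, h2, h3, h4, h5, h6⟩, h7⟩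
    refine ⟨⟨h1, h2, h3, ?_⟩, h7⟩
    simp only at h1 h2 h4 h5 h6 ⊢
    have hq : (0 : ℝ) < q := by
      have : 0 < q := by omega
      exact_mod_cast this
    have h8 : rad (p * q * (q - p)) ≤ rad p * rad q * rad (q - p) :=
      (rad_mul_le _ _).trans (Nat.mul_le_mul_right _ (rad_mul_le _ _))
    calc (rad (p * q * (q - p)) : ℝ) ≤ rad p * rad q * rad (q - p) := by exact_mod_cast h8
      _ ≤ (q : ℝ) ^ al * (q : ℝ) ^ ga * (q : ℝ) ^ be := by gcongr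
      _ = 1 * (q : ℝ) ^ (al + be + ga) := by
          rw [← Real.rpow_add hq, ← Real.rpow_add hq, one_mul]
          congr 1
          ring

/-- **the exact dimension** -/
theorem dim_exact {al be ga τ : ℝ} (hal0 : 0 < al) (hbe0 : 0 < be) (hga0 : 0 < ga)
    (hal1 : al ≤ 1) (hbe1 : be ≤ 1) (hga1 : ga ≤ 1) (h1 : 1 < al + be + ga) (hτ : 0 < τ)
    (hcase : 2 ≤ al + be + ga ∨ al = 1 ∨ be = 1 ∨ ga = 1) :
    dimH (WP (Ap al be ga) τ) = ENNReal.ofReal (min 1 ((al + be + ga - 1) / τ)) := by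
  apply le_antisymm _ (dim_ge hal0 hbe0 hga0 hal1 hbe1 hga1 h1 hτ)
  rw [ENNReal.ofReal_min, ENNReal.ofReal_one]
  obtain ⟨d1, d2, d3, d4⟩ := dim_le (al := al) (be := be) (ga := ga) hal0 hbe0 hga0 hτ
  apply le_min
  · rw [← Real.dimH_univ]
    exact dimH_mono (Set.subset_univ _)
  · rcases hcase with h | h | h | h
    · rwa [Pool.Agent.W221.ABC7.Fx_two _ h] at d4
    · subst h
      have : 1 + be + ga - 1 = be + ga := by ring
      rwa [this]
    · subst h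
      have : al + 1 + ga - 1 = al + ga := by ring
      rwa [this]
    · subst h
      have : al + be + 1 - 1 = al + be := by ring
      rwa [this]

end Pool.Agent.H34x.MA
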