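import Pool.Agent.H34x.MA.Conv

/-!
# Dirichlet's theorem for the triples with prescribed radicals: two points of a lattice
-/

set_option autoImplicit false

namespace Pool.Agent.H34x.MA

/-- the lattice -/
def La (i j k : ℕ) (p q : ℤ) : Prop := (2 : ℤ) ^ i ∣ q ∧ (3 : ℤ) ^ j ∣ p ∧ (5 : ℤ) ^ k ∣ q - p

theorem La.mono {i j k i' j' k' : ℕ} (hi : i ≤ i') (hj : j ≤ j') (hk : k ≤ k') {p q : ℤ}
    (h : La i' j' k' p q) : La i j k p q :=
  ⟨(pow_dvd_pow _ hi).trans h.1, (pow_dvd_pow _ hj).trans h.2.1, (pow_dvd_pow _ hk).trans h.2.2⟩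

theorem mul_three_dvd_int {a b c x : ℤ} {i j k : ℕ} (ha : a = 2 ^ i) (hb : b = 3 ^ j)
    (hc : c = 5 ^ k) (h1 : a ∣ x) (h2 : b ∣ x) (h3 : c ∣ x) : a * b * c ∣ x := by
  subst ha hb hc
  have c1 : IsCoprime ((2 : ℤ) ^ i) ((3 : ℤ) ^ j) := by
    apply IsCoprime.pow; norm_num
  have c2 : IsCoprime ((2 : ℤ) ^ i) ((5 : ℤ) ^ k) := by
    apply IsCoprime.pow; norm_num
  have c3 : IsCoprime ((3 : ℤ) ^ j) ((5 : ℤ) ^ k) := by
    apply IsCoprime.pow; norm_num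
  exact (IsCoprime.mul_left c2 c3).mul_dvd (c1.mul_dvd h1 h2) h3

theorem La.det {i j k : ℕ} {p q p' q' : ℤ} (h : La i j k p q) (h' : La i j k p' q') :
    ((MM i j k : ℕ) : ℤ) ∣ p * q' - p' * q := by
  have e : ((MM i j k : ℕ) : ℤ) = 2 ^ i * 3 ^ j * 5 ^ k := by unfold MM; push_cast; ring
  rw [e]
  refine mul_three_dvd_int rfl rfl rfl ?_ ?_ ?_
  · exact dvd_sub (h'.1.mul_left _) (h.1.mul_left _)
  · exact dvd_sub (h.2.1.mul_right _) (h'.2.1.mul_right _)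
  · have e2 : p * q' - p' * q = p * (q' - p') - p' * (q - p) := by ring
    rw [e2]
    exact dvd_sub (h'.2.2.mul_left _) (h.2.2.mul_left _)

/-- a residue class that avoids the multiples of a prime power -/
theorem avoid (l : ℕ) (hl : l.Prime) (r : ℕ) (u u' : ℤ)
    (h : ¬ ((l : ℤ) ^ r ∣ u ∧ (l : ℤ) ^ r ∣ u')) :
    ∃ c : ℤ, ∀ y : ℤ, (l : ℤ) ∣ y - c → ¬ (l : ℤ) ^ r ∣ u + y * u' := by
  by_cases hb : ∃ y0 : ℤ, (l : ℤ) ^ r ∣ u + y0 * u'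
  · obtain ⟨y0, hy0⟩ := hb
    refine ⟨y0 + 1, fun y hy hd => h ?_⟩
    have h1 : (l : ℤ) ^ r ∣ (y - y0) * u' := by
      have := dvd_sub hd hy0
      have e : u + y * u' - (u + y0 * u') = (y - y0) * u' := by ring
      rwa [e] at this
    have hlp : Prime (l : ℤ) := Nat.prime_iff_prime_int.1 hl
    have h2 : ¬ (l : ℤ) ∣ y - y0 := by
      intro h3
      have h4 : (l : ℤ) ∣ 1 := by
        have := dvd_sub h3 hy
        have e : y - y0 - (y - (y0 + 1)) = 1 := by ring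
        rwa [e] at this
      exact hlp.not_isUnit (isUnit_of_dvd_one h4)
    have h3 : IsCoprime ((l : ℤ) ^ r) (y - y0) := by
      apply IsCoprime.pow_left
      exact (Prime.coprime_iff_not_dvd hlp).2 h2
    have h4 : (l : ℤ) ^ r ∣ u' := h3.dvd_of_dvd_mul_left h1
    refine ⟨?_, h4⟩
    have := dvd_sub hy0 (h4.mul_left y0)
    simpa using this
  · push Not at hb
    exact ⟨0, fun y _ => hb y⟩

/-- the first power of a prime that does not divide -/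
theorem first_pow (l : ℕ) (hl : l.Prime) (t : ℤ) (ht : t ≠ 0) :
    ∃ r : ℕ, ¬ (l : ℤ) ^ r ∣ t ∧ ∀ s : ℕ, s < r → (l : ℤ) ^ s ∣ t := by
  classical
  have hfin : ∃ r : ℕ, ¬ (l : ℤ) ^ r ∣ t := by
    refine ⟨t.natAbs, fun hd => ?_⟩
    have h1 : l ^ t.natAbs ∣ t.natAbs := by
      have := Int.natAbs_dvd_natAbs.2 hd
      rwa [Int.natAbs_pow, Int.natAbs_natCast] at this
    have h2 := Nat.le_of_dvd (Int.natAbs_pos.2 ht) h1
    have h3 : t.natAbs < l ^ t.natAbs := Nat.lt_pow_self hl.one_lt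
    omega
  refine ⟨Nat.find hfin, Nat.find_spec hfin, fun s hs => ?_⟩
  have := Nat.find_min hfin hs
  push Not at this
  exact this

/-- the parts of a number -/
theorem dvd_of_parts {g : ℕ} (hg : g ≠ 0) {i j k : ℕ} {t : ℤ}
    (h : (g : ℤ) ∣ ((MM i j k : ℕ) : ℤ) * t)
    (h2 : ∀ r : ℕ, (2 : ℤ) ^ r ∣ g → (2 : ℤ) ^ r ∣ t)
    (h3 : ∀ r : ℕ, (3 : ℤ) ^ r ∣ g → (3 : ℤ) ^ r ∣ t)
    (h5 : ∀ r : ℕ, (5 : ℤ) ^ r ∣ g → (5 : ℤ) ^ r ∣ t) : (g : ℤ) ∣ t := by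
  obtain ⟨x, g1, hg1, e1⟩ := Nat.exists_eq_pow_mul_and_not_dvd hg 2 (by norm_num)
  have g10 : g1 ≠ 0 := by rintro rfl; simp at hg1
  obtain ⟨y, g2, hg2, e2⟩ := Nat.exists_eq_pow_mul_and_not_dvd g10 3 (by norm_num)
  have g20 : g2 ≠ 0 := by rintro rfl; simp at hg2
  obtain ⟨z, g3, hg3, e3⟩ := Nat.exists_eq_pow_mul_and_not_dvd g20 5 (by norm_num)
  have n2 : ¬ 2 ∣ g3 := fun h => hg1 (by rw [e2, e3]; exact (h.mul_left _).mul_left _)
  have n3 : ¬ 3 ∣ g3 := fun h => hg2 (by rw [e3]; exact h.mul_left _)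
  have e : (g : ℤ) = 2 ^ x * 3 ^ y * 5 ^ z * g3 := by
    rw [e1, e2, e3]; push_cast; ring
  have k2 : (2 : ℤ) ^ x ∣ t := h2 x (by rw [e]; exact ⟨3 ^ y * 5 ^ z * g3, by ring⟩)
  have k3 : (3 : ℤ) ^ y ∣ t := h3 y (by rw [e]; exact ⟨2 ^ x * 5 ^ z * g3, by ring⟩)
  have k5 : (5 : ℤ) ^ z ∣ t := h5 z (by rw [e]; exact ⟨2 ^ x * 3 ^ y * g3, by ring⟩)
  have c2 : IsCoprime (g3 : ℤ) 2 := by
    have := (Nat.Prime.coprime_iff_not_dvd Nat.prime_two).2 n2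
    exact_mod_cast (Nat.isCoprime_iff_coprime.2 this).symm
  have c3 : IsCoprime (g3 : ℤ) 3 := by
    have := (Nat.Prime.coprime_iff_not_dvd Nat.prime_three).2 n3
    exact_mod_cast (Nat.isCoprime_iff_coprime.2 this).symm
  have c5 : IsCoprime (g3 : ℤ) 5 := by
    have := (Nat.Prime.coprime_iff_not_dvd Nat.prime_five).2 hg3
    exact_mod_cast (Nat.isCoprime_iff_coprime.2 this).symm
  have k : (g3 : ℤ) ∣ t := by
    have h1 : (g3 : ℤ) ∣ ((MM i j k : ℕ) : ℤ) * t := by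
      refine dvd_trans ⟨2 ^ x * 3 ^ y * 5 ^ z, ?_⟩ h
      rw [e]; ring
    have h4 : IsCoprime (g3 : ℤ) ((MM i j k : ℕ) : ℤ) := by
      have e4 : ((MM i j k : ℕ) : ℤ) = 2 ^ i * 3 ^ j * 5 ^ k := by unfold MM; push_cast; ring
      rw [e4]
      exact ((c2.pow_right).mul_right (c3.pow_right)).mul_right c5.pow_right
    exact h4.dvd_of_dvd_mul_left h1
  rw [e]
  refine IsCoprime.mul_dvd ?_ (mul_three_dvd_int rfl rfl rfl k2 k3 k5) k
  exact ((c2.pow_right).mul_right (c3.pow_right)).mul_right c5.pow_right |>.symm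

/-- a combination with a bounded common divisor -/
theorem combine {i j k : ℕ} {p q p' q' t : ℤ} (h : La i j k p q) (h' : La i j k p' q')
    (ht : t ≠ 0) (hdet : p * q' - p' * q = ((MM i j k : ℕ) : ℤ) * t) :
    ∃ y0 : ℤ, 0 ≤ y0 ∧ y0 < 30 ∧ ∀ y : ℤ, (30 : ℤ) ∣ y - y0 →
      ((Int.gcd (p + y * p') (q + y * q') : ℕ) : ℤ) ∣ t := by
  obtain ⟨r2, hr2, hr2'⟩ := first_pow 2 Nat.prime_two t ht
  obtain ⟨r3, hr3, hr3'⟩ := first_pow 3 Nat.prime_three t ht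
  obtain ⟨r5, hr5, hr5'⟩ := first_pow 5 Nat.prime_five t ht
  have eM : ((MM i j k : ℕ) : ℤ) = 2 ^ i * 3 ^ j * 5 ^ k := by unfold MM; push_cast; ring
  have cc23 : ∀ a b : ℕ, IsCoprime ((2 : ℤ) ^ a) ((3 : ℤ) ^ b) := fun a b => by
    apply IsCoprime.pow; norm_num
  have cc25 : ∀ a b : ℕ, IsCoprime ((2 : ℤ) ^ a) ((5 : ℤ) ^ b) := fun a b => by
    apply IsCoprime.pow; norm_num
  have cc35 : ∀ a b : ℕ, IsCoprime ((3 : ℤ) ^ a) ((5 : ℤ) ^ b) := fun a b => by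
    apply IsCoprime.pow; norm_num
  have a2 : ¬ ((2 : ℤ) ^ r2 ∣ p ∧ (2 : ℤ) ^ r2 ∣ p') := by
    rintro ⟨k1, k2⟩
    apply hr2
    have h1 : (2 : ℤ) ^ i * 2 ^ r2 ∣ 2 ^ i * (3 ^ j * 5 ^ k * t) := by
      have e : (2 : ℤ) ^ i * (3 ^ j * 5 ^ k * t) = q' * p - q * p' := by
        rw [eM] at hdet; linear_combination -hdet
      rw [e]
      exact dvd_sub (mul_dvd_mul h'.1 k1) (mul_dvd_mul h.1 k2)
    have h2 := (mul_dvd_mul_iff_left (pow_ne_zero i (by norm_num : (2 : ℤ) ≠ 0))).1 h1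
    exact_mod_cast ((cc23 r2 j).mul_right (cc25 r2 k)).dvd_of_dvd_mul_left h2
  have a3 : ¬ ((3 : ℤ) ^ r3 ∣ q ∧ (3 : ℤ) ^ r3 ∣ q') := by
    rintro ⟨k1, k2⟩
    apply hr3
    have h1 : (3 : ℤ) ^ j * 3 ^ r3 ∣ 3 ^ j * (2 ^ i * 5 ^ k * t) := by
      have e : (3 : ℤ) ^ j * (2 ^ i * 5 ^ k * t) = p * q' - p' * q := by
        rw [eM] at hdet; linear_combination -hdet
      rw [e]
      exact dvd_sub (mul_dvd_mul h.2.1 k2) (mul_dvd_mul h'.2.1 k1)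
    have h2 := (mul_dvd_mul_iff_left (pow_ne_zero j (by norm_num : (3 : ℤ) ≠ 0))).1 h1
    exact_mod_cast ((cc23 i r3).symm.mul_right (cc35 r3 k)).dvd_of_dvd_mul_left h2
  have a5 : ¬ ((5 : ℤ) ^ r5 ∣ p ∧ (5 : ℤ) ^ r5 ∣ p') := by
    rintro ⟨k1, k2⟩
    apply hr5
    have h1 : (5 : ℤ) ^ k * 5 ^ r5 ∣ 5 ^ k * (2 ^ i * 3 ^ j * t) := by
      have e : (5 : ℤ) ^ k * (2 ^ i * 3 ^ j * t) = (q' - p') * p - (q - p) * p' := by
        rw [eM] at hdet; linear_combination -hdet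
      rw [e]
      exact dvd_sub (mul_dvd_mul h'.2.2 k1) (mul_dvd_mul h.2.2 k2)
    have h2 := (mul_dvd_mul_iff_left (pow_ne_zero k (by norm_num : (5 : ℤ) ≠ 0))).1 h1
    exact_mod_cast ((cc25 i r5).symm.mul_right (cc35 j r5).symm).dvd_of_dvd_mul_left h2
  obtain ⟨c2, hc2⟩ := avoid 2 Nat.prime_two r2 p p' (by exact_mod_cast a2)
  obtain ⟨c3, hc3⟩ := avoid 3 Nat.prime_three r3 q q' (by exact_mod_cast a3)
  obtain ⟨c5, hc5⟩ := avoid 5 Nat.prime_five r5 p p' (by exact_mod_cast a5)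
  refine ⟨(15 * c2 + 10 * c3 + 6 * c5) % 30, by omega, by omega, fun y hy => ?_⟩
  have y2 : (2 : ℤ) ∣ y - c2 := by omega
  have y3 : (3 : ℤ) ∣ y - c3 := by omega
  have y5 : (5 : ℤ) ∣ y - c5 := by omega
  have b2 := hc2 y (by exact_mod_cast y2)
  have b3 := hc3 y (by exact_mod_cast y3)
  have b5 := hc5 y (by exact_mod_cast y5)
  push_cast at b2 b3 b5
  set g : ℕ := Int.gcd (p + y * p') (q + y * q') with hg
  have gP : (g : ℤ) ∣ p + y * p' := Int.gcd_dvd_left _ _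
  have gQ : (g : ℤ) ∣ q + y * q' := Int.gcd_dvd_right _ _
  have hdet' : (p + y * p') * q' - p' * (q + y * q') = ((MM i j k : ℕ) : ℤ) * t := by
    linear_combination hdet
  have hgdet : (g : ℤ) ∣ ((MM i j k : ℕ) : ℤ) * t := by
    rw [← hdet']
    exact dvd_sub (gP.mul_right _) (gQ.mul_left _)
  have hM0 : ((MM i j k : ℕ) : ℤ) ≠ 0 := by exact_mod_cast (MM_pos i j k).ne'
  have hg0 : g ≠ 0 := by
    intro h0
    rw [h0] at hgdet
    simp only [Nat.cast_zero, zero_dvd_iff, mul_eq_zero] at hgdet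
    rcases hgdet with h1 | h1
    · exact hM0 h1
    · exact ht h1
  refine dvd_of_parts hg0 hgdet ?_ ?_ ?_
  · intro r hr
    by_contra hcon
    rcases Nat.lt_or_ge r r2 with h1 | h1
    · exact hcon (by exact_mod_cast hr2' r h1)
    · exact b2 ((pow_dvd_pow _ h1).trans (hr.trans gP))
  · intro r hr
    by_contra hcon
    rcases Nat.lt_or_ge r r3 with h1 | h1
    · exact hcon (by exact_mod_cast hr3' r h1)
    · exact b3 ((pow_dvd_pow _ h1).trans (hr.trans gQ))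
  · intro r hr
    by_contra hcon
    rcases Nat.lt_or_ge r r5 with h1 | h1
    · exact hcon (by exact_mod_cast hr5' r h1)
    · exact b5 ((pow_dvd_pow _ h1).trans (hr.trans gP))

end Pool.Agent.H34x.MA
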