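import Pool.Agent.H34x.MA.Dir2

/-!
# Dirichlet's theorem for the triples with prescribed radicals
-/

set_option autoImplicit false

namespace Pool.Agent.H34x.MA

open Filter Topology
open Pool.Agent.H785R2.ABC (rad)
open Pool.Agent.R479.DA (rad_mul_le rad_le_self)

theorem rad_le_mul {g n : ℕ} (hg : 0 < g) (hn : 0 < n) : rad n ≤ rad (g * n) := by
  unfold rad
  apply Finset.prod_le_prod_of_subset_of_one_le' (Nat.primeFactors_mono (dvd_mul_left _ _)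
    (by positivity))
  intro p hp _
  exact (Nat.prime_of_mem_primeFactors hp).one_lt.le

/-- a coprime point from two independent points -/
theorem one_point {i j k m : ℕ} {ξ : ℝ} {p q p' q' : ℤ} (h : La i j k p q) (h' : La i j k p' q')
    (hne : p * q' - p' * q ≠ 0) (hq : 0 < q) (hqm : q ≤ 2 ^ m) (hq' : 0 < q')
    (hqm' : q' ≤ 2 * 2 ^ m) (hd : |(q : ℝ) * ξ - p| ≤ MM i j k / 2 ^ m)
    (hd' : |(q' : ℝ) * ξ - p'| ≤ 120 * (MM i j k / 2 ^ m)) :
    ∃ P Q g : ℤ, 0 < g ∧ g ≤ 122 ∧ IsCoprime P Q ∧ 0 < Q ∧ La i j k (g * P) (g * Q) ∧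
      2 ^ m ≤ 120 * (g * Q) ∧ g * Q ≤ 119 * 2 ^ m ∧
      |(g : ℝ) * (Q * ξ - P)| ≤ 7081 * (MM i j k / 2 ^ m) := by
  obtain ⟨D, hD⟩ : ∃ D : ℝ, D = MM i j k / 2 ^ m := ⟨_, rfl⟩
  have hMp : (0 : ℝ) < MM i j k := by exact_mod_cast MM_pos i j k
  have hTp : (0 : ℝ) < 2 ^ m := by positivity
  have hDp : 0 < D := by rw [hD]; positivity
  have hDT : D * 2 ^ m = MM i j k := by rw [hD]; field_simp
  rw [← hD] at hd hd' ⊢
  obtain ⟨t, ht⟩ := h.det h'
  have ht0 : t ≠ 0 := by rintro rfl; exact hne (by rw [ht, mul_zero])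
  have hqR : (0 : ℝ) < q := by exact_mod_cast hq
  have hqR' : (0 : ℝ) < q' := by exact_mod_cast hq'
  have hqmR : (q : ℝ) ≤ 2 ^ m := by exact_mod_cast hqm
  have hqmR' : (q' : ℝ) ≤ 2 * 2 ^ m := by exact_mod_cast hqm'
  have hdetR : |((MM i j k : ℕ) : ℝ) * t| ≤ q' * D + q * (120 * D) := by
    have e : ((MM i j k : ℕ) : ℝ) * t = q * (q' * ξ - p') - q' * (q * ξ - p) := by
      have : ((p * q' - p' * q : ℤ) : ℝ) = ((MM i j k : ℕ) : ℝ) * t := by
        rw [ht]; push_cast; ring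
      rw [← this]; push_cast; ring
    rw [e]
    calc |(q : ℝ) * (q' * ξ - p') - q' * (q * ξ - p)|
        ≤ |(q : ℝ) * (q' * ξ - p')| + |(q' : ℝ) * (q * ξ - p)| := abs_sub _ _
      _ = q * |(q' : ℝ) * ξ - p'| + q' * |(q : ℝ) * ξ - p| := by
          rw [abs_mul, abs_mul, abs_of_pos hqR, abs_of_pos hqR']
      _ ≤ q * (120 * D) + q' * D := by gcongr
      _ = q' * D + q * (120 * D) := by ring
  have htabs : (1 : ℝ) ≤ |(t : ℝ)| := by
    have : (1 : ℤ) ≤ |t| := Int.one_le_abs ht0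
    exact_mod_cast this
  rw [abs_mul, abs_of_pos hMp] at hdetR
  have ht122 : |(t : ℝ)| ≤ 122 := by
    have h1 : (MM i j k : ℝ) * |(t : ℝ)| ≤ MM i j k * 122 := by
      calc (MM i j k : ℝ) * |(t : ℝ)| ≤ q' * D + q * (120 * D) := hdetR
        _ ≤ (2 * 2 ^ m) * D + 2 ^ m * (120 * D) := by gcongr
        _ = (D * 2 ^ m) * 122 := by ring
        _ = MM i j k * 122 := by rw [hDT]
    exact le_of_mul_le_mul_left h1 hMp
  have hsize : (2 : ℝ) ^ m ≤ q' + 120 * q := by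
    have h1 : D * 2 ^ m ≤ D * (q' + 120 * q) := by
      calc D * 2 ^ m = MM i j k * 1 := by rw [hDT, mul_one]
        _ ≤ MM i j k * |(t : ℝ)| := by gcongr
        _ ≤ q' * D + q * (120 * D) := hdetR
        _ = D * (q' + 120 * q) := by ring
    exact le_of_mul_le_mul_left h1 hDp
  obtain ⟨y0, hy0, hy30, hy⟩ := combine h h' ht0 ht
  have hg := hy (y0 + 30) ⟨1, by ring⟩
  obtain ⟨y, hyd⟩ : ∃ y, y = y0 + 30 := ⟨_, rfl⟩
  rw [← hyd] at hg
  obtain ⟨g, hgd⟩ : ∃ g, g = Int.gcd (p + y * p') (q + y * q') := ⟨_, rfl⟩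
  rw [← hgd] at hg
  have hQw : 0 < q + y * q' := by
    have : 0 ≤ y * q' := mul_nonneg (by omega) hq'.le
    omega
  have hg0 : 0 < g := hgd ▸ Int.gcd_pos_of_ne_zero_right _ hQw.ne'
  have hgz : (0 : ℤ) < g := by exact_mod_cast hg0
  obtain ⟨P, hP⟩ : (g : ℤ) ∣ p + y * p' := hgd ▸ Int.gcd_dvd_left _ _
  obtain ⟨Q, hQ⟩ : (g : ℤ) ∣ q + y * q' := hgd ▸ Int.gcd_dvd_right _ _
  have hyR0 : (30 : ℝ) ≤ y := by
    have : (30 : ℤ) ≤ y := by omega
    exact_mod_cast this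
  have hyR1 : (y : ℝ) ≤ 59 := by
    have : y ≤ (59 : ℤ) := by omega
    exact_mod_cast this
  refine ⟨P, Q, g, hgz, ?_, ?_, ?_, ?_, ?_, ?_, ?_⟩
  · have h1 := Int.le_of_dvd (abs_pos.2 ht0) ((dvd_abs _ _).2 hg)
    have h2 : |t| ≤ 122 := by exact_mod_cast ht122
    linarith
  · rw [Int.isCoprime_iff_gcd_eq_one]
    have h2 : g = g * Int.gcd P Q := by
      conv_lhs => rw [hgd, hP, hQ]
      rw [Int.gcd_mul_left, Int.natAbs_natCast]
    exact (Nat.eq_of_mul_eq_mul_left hg0 (by rw [mul_one]; exact h2)).symm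
  · rw [hQ] at hQw
    exact (mul_pos_iff_of_pos_left hgz).1 hQw
  · rw [← hP, ← hQ]
    refine ⟨dvd_add h.1 (h'.1.mul_left _), dvd_add h.2.1 (h'.2.1.mul_left _), ?_⟩
    have e : q + y * q' - (p + y * p') = (q - p) + y * (q' - p') := by ring
    rw [e]
    exact dvd_add h.2.2 (h'.2.2.mul_left _)
  · rw [← hQ]
    have : ((2 ^ m : ℤ) : ℝ) ≤ ((120 * (q + y * q') : ℤ) : ℝ) := by
      push_cast
      nlinarith
    exact_mod_cast this
  · rw [← hQ]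
    have : ((q + y * q' : ℤ) : ℝ) ≤ ((119 * 2 ^ m : ℤ) : ℝ) := by
      push_cast
      nlinarith
    exact_mod_cast this
  · have e : (g : ℝ) * (Q * ξ - P) = (q * ξ - p) + y * (q' * ξ - p') := by
      have e1 : ((p + y * p' : ℤ) : ℝ) = ((g * P : ℤ) : ℝ) := by rw [hP]
      have e2 : ((q + y * q' : ℤ) : ℝ) = ((g * Q : ℤ) : ℝ) := by rw [hQ]
      push_cast at e1 e2
      linear_combination (-ξ) * e2 + e1
    have e' : (((g : ℤ)) : ℝ) = (g : ℝ) := by push_cast; rfl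
    rw [e', e]
    calc |(q : ℝ) * ξ - p + y * (q' * ξ - p')| ≤ |(q : ℝ) * ξ - p| + |(y : ℝ) * (q' * ξ - p')| :=
          abs_add_le _ _
      _ = |(q : ℝ) * ξ - p| + y * |(q' : ℝ) * ξ - p'| := by
          rw [abs_mul, abs_of_nonneg (by linarith : (0 : ℝ) ≤ y)]
      _ ≤ D + 59 * (120 * D) := by gcongr
      _ = 7081 * D := by ring

/-- the radical of a number a multiple of which is divisible by a power -/
theorem rad_scale {l n g Q i m : ℕ} (hl : l.Prime) (hl5 : l ≤ 5) (hn : 0 < n) (hnQ : n ≤ Q)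
    (hg : 0 < g) (hg2 : g ≤ 122) (h : l ^ i ∣ g * n) {a : ℝ} (ha : 0 ≤ a) (ha1 : a ≤ 1)
    (hi : Real.exp (a * TT m) ≤ (l : ℝ) ^ i) (hQ : (Q : ℝ) ≤ 119 * 2 ^ m) :
    (rad n : ℝ) ≤ 72590 * (Q : ℝ) ^ (1 - a) := by
  have hQ0 : (0 : ℝ) < Q := by
    have : 0 < Q := by omega
    exact_mod_cast this
  have h1 : rad n * l ^ i ≤ l * (g * n) := by
    calc rad n * l ^ i ≤ rad (g * n) * l ^ i := Nat.mul_le_mul_right _ (rad_le_mul hg hn)
      _ ≤ l * (g * n) := rad_le_of_pow_dvd hl (Nat.mul_pos hg hn) h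
  have h2 : (rad n : ℝ) * (l : ℝ) ^ i ≤ 5 * (122 * Q) := by
    have h3 : (rad n : ℝ) * (l : ℝ) ^ i ≤ l * (g * n) := by exact_mod_cast h1
    refine h3.trans ?_
    have hl5' : (l : ℝ) ≤ 5 := by exact_mod_cast hl5
    have hg2' : (g : ℝ) ≤ 122 := by exact_mod_cast hg2
    have hnQ' : (n : ℝ) ≤ Q := by exact_mod_cast hnQ
    gcongr
  have h4 : (Q : ℝ) ^ a ≤ 119 * Real.exp (a * TT m) := by
    rw [exp_TT] at hQ
    calc (Q : ℝ) ^ a ≤ (119 * Real.exp (TT m)) ^ a := Real.rpow_le_rpow hQ0.le hQ ha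
      _ = (119 : ℝ) ^ a * Real.exp (a * TT m) := by
          rw [Real.mul_rpow (by norm_num) (Real.exp_pos _).le, ← Real.exp_mul]
          congr 2; ring
      _ ≤ (119 : ℝ) ^ (1 : ℝ) * Real.exp (a * TT m) := by
          gcongr
          · norm_num
      _ = 119 * Real.exp (a * TT m) := by rw [Real.rpow_one]
  have h5 : (rad n : ℝ) * (Q : ℝ) ^ a ≤ 72590 * Q := by
    calc (rad n : ℝ) * (Q : ℝ) ^ a ≤ rad n * (119 * Real.exp (a * TT m)) := by gcongr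
      _ = 119 * (rad n * Real.exp (a * TT m)) := by ring
      _ ≤ 119 * (rad n * (l : ℝ) ^ i) := by gcongr
      _ ≤ 119 * (5 * (122 * Q)) := by gcongr
      _ = 72590 * Q := by ring
  have h6 : (Q : ℝ) = (Q : ℝ) ^ (1 - a) * (Q : ℝ) ^ a := by
    rw [← Real.rpow_add hQ0]; simp
  have h7 : (rad n : ℝ) * (Q : ℝ) ^ a ≤ (72590 * (Q : ℝ) ^ (1 - a)) * (Q : ℝ) ^ a := by
    calc (rad n : ℝ) * (Q : ℝ) ^ a ≤ 72590 * Q := h5
      _ = (72590 * (Q : ℝ) ^ (1 - a)) * (Q : ℝ) ^ a := by rw [mul_assoc, ← h6]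
  exact le_of_mul_le_mul_right h7 (Real.rpow_pos_of_pos hQ0 _)

/-- the coprime `0 < p < q` with radicals at most `C q ^ al`, `C q ^ be`, `C q ^ ga` and
`|ξ - p / q| ≤ C q ^ (1 - al - be - ga)` -/
def DP (C al be ga ξ : ℝ) : Set (ℕ × ℕ) :=
  {t | 0 < t.1 ∧ t.1 < t.2 ∧ Nat.Coprime t.1 t.2 ∧ (rad t.1 : ℝ) ≤ C * (t.2 : ℝ) ^ al ∧
    (rad (t.2 - t.1) : ℝ) ≤ C * (t.2 : ℝ) ^ be ∧ (rad t.2 : ℝ) ≤ C * (t.2 : ℝ) ^ ga ∧
    |ξ - (t.1 : ℝ) / t.2| ≤ C * (t.2 : ℝ) ^ (-(al + be + ga - 1))}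

/-- **Dirichlet's theorem for the triples with prescribed radicals** -/
theorem dirichlet_rad {al be ga : ℝ} (a0 : 0 < al) (b0 : 0 < be) (c0 : 0 < ga) (a1 : al ≤ 1)
    (b1 : be ≤ 1) (c1 : ga ≤ 1) (hs : 1 < al + be + ga) {ξ : ℝ} (h0 : 0 < ξ) (h1 : ξ < 1)
    (hξ : Irrational ξ ∨ al + be + ga < 2) : (DP (10 ^ 13) al be ga ξ).Infinite := by
  intro hfin
  obtain ⟨N, hN⟩ := (hfin.image fun t : ℕ × ℕ => t.2).bddAbove
  obtain ⟨s, hsd⟩ : ∃ s, s = al + be + ga := ⟨_, rfl⟩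
  have hz := exp_TT_zero (x := s - 1) (by linarith) (10 ^ 8)
  have e1 : ∀ᶠ m in atTop, (10 : ℝ) ^ 8 * Real.exp (-(s - 1) * TT m) < ξ :=
    hz.eventually_lt_const h0
  have e2 : ∀ᶠ m in atTop, (10 : ℝ) ^ 8 * Real.exp (-(s - 1) * TT m) < 1 - ξ :=
    hz.eventually_lt_const (by linarith)
  have e3 : ∀ᶠ m in atTop, (14640 * (N + 1) : ℝ) < Real.exp (1 * TT m) := ev_exp one_pos _
  obtain ⟨m0, hm0⟩ := eventually_atTop.1 (e1.and (e2.and e3))
  obtain ⟨m, hm, p, q, p', q', hL, hL', hne, hq, hqm, hq', hqm', hd, hd'⟩ :=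
    two_points (a := 1 - ga) (b := 1 - al) (c := 1 - be) (by linarith) (by linarith) (by linarith)
      (by linarith) (by linarith) (by linarith) h0.ne' h1.ne
      (hξ.imp id fun h => by linarith) m0
  obtain ⟨f1, f2, f3⟩ := hm0 m hm
  obtain ⟨P, Q, g, hg, hg2, hco, hQ, hLg, hsz, hsz', hdist⟩ :=
    one_point hL hL' hne hq hqm hq' hqm' hd hd'
  have hT1 := TT_nonneg m
  have hTm : (0 : ℝ) < 2 ^ m := by positivity
  have hgR : (1 : ℝ) ≤ g := by exact_mod_cast hg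
  have hg2R : (g : ℝ) ≤ 122 := by exact_mod_cast hg2
  have hQR : (0 : ℝ) < Q := by exact_mod_cast hQ
  have hszR : (2 : ℝ) ^ m ≤ 120 * (g * Q) := by exact_mod_cast hsz
  have hszR' : (g : ℝ) * Q ≤ 119 * 2 ^ m := by exact_mod_cast hsz'
  have hQ119 : (Q : ℝ) ≤ 119 * 2 ^ m := by nlinarith
  -- the distance
  have hM := MX_le (a := 1 - ga) (b := 1 - al) (c := 1 - be) (by linarith) (by linarith)
    (by linarith) m
  unfold MX at hM
  rw [show (1 - ga + (1 - al) + (1 - be)) = 3 - s by rw [hsd]; ring] at hM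
  have hdist2 : |ξ - (P : ℝ) / Q| ≤ 10 ^ 8 * Real.exp (-(s - 1) * TT m) := by
    have e : ξ - (P : ℝ) / Q = (g * (Q * ξ - P)) / (g * Q) := by
      field_simp
    rw [e, abs_div, abs_of_pos (by positivity : (0 : ℝ) < g * Q), div_le_iff₀ (by positivity)]
    refine hdist.trans ?_
    have k1 : (MM (ex 2 ((1 - ga) * TT m)) (ex 3 ((1 - al) * TT m)) (ex 5 ((1 - be) * TT m)) : ℝ) /
        2 ^ m ≤ 30 * Real.exp (-(s - 1) * TT m) * 2 ^ m := by
      rw [div_le_iff₀ hTm, exp_TT]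
      refine hM.trans_eq ?_
      rw [mul_assoc, mul_assoc, ← Real.exp_add, ← Real.exp_add]
      congr 2
      ring
    have k2 : (0 : ℝ) ≤ 30 * Real.exp (-(s - 1) * TT m) := by positivity
    calc 7081 * ((MM (ex 2 ((1 - ga) * TT m)) (ex 3 ((1 - al) * TT m))
          (ex 5 ((1 - be) * TT m)) : ℝ) / 2 ^ m)
        ≤ 7081 * (30 * Real.exp (-(s - 1) * TT m) * 2 ^ m) := by gcongr
      _ ≤ 7081 * (30 * Real.exp (-(s - 1) * TT m) * (120 * (g * Q))) := by gcongr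
      _ = 25491600 * Real.exp (-(s - 1) * TT m) * (g * Q) := by ring
      _ ≤ 10 ^ 8 * Real.exp (-(s - 1) * TT m) * (g * Q) := by
          have : (0 : ℝ) ≤ Real.exp (-(s - 1) * TT m) * (g * Q) := by positivity
          nlinarith
  have hPabs := abs_le.1 hdist2
  have hP0 : (0 : ℝ) < P := by
    have h3 : 0 < (P : ℝ) / Q := by linarith [hPabs.2]
    exact (div_pos_iff_of_pos_right hQR).1 h3
  have hP1 : (P : ℝ) < Q := by
    have h3 : (P : ℝ) / Q < 1 := by linarith [hPabs.1]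
    rwa [div_lt_one hQR] at h3
  have hP0' : 0 < P := by exact_mod_cast hP0
  have hP1' : P < Q := by exact_mod_cast hP1
  obtain ⟨x, rfl⟩ := Int.eq_ofNat_of_zero_le hP0'.le
  obtain ⟨y, rfl⟩ := Int.eq_ofNat_of_zero_le hQ.le
  obtain ⟨u, rfl⟩ := Int.eq_ofNat_of_zero_le hg.le
  simp only [Int.cast_natCast] at *
  have hx0 : 0 < x := by exact_mod_cast hP0'
  have hy0 : 0 < y := by exact_mod_cast hQ
  have hu0 : 0 < u := by exact_mod_cast hg
  have hxy : x < y := by exact_mod_cast hP1'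
  have hu2 : u ≤ 122 := by exact_mod_cast hg2
  have hcoN : Nat.Coprime x y := Nat.isCoprime_iff_coprime.1 hco
  obtain ⟨k2, k3, k5⟩ := hLg
  have n2 : 2 ^ ex 2 ((1 - ga) * TT m) ∣ u * y := by exact_mod_cast k2
  have n3 : 3 ^ ex 3 ((1 - al) * TT m) ∣ u * x := by exact_mod_cast k3
  have n5 : 5 ^ ex 5 ((1 - be) * TT m) ∣ u * (y - x) := by
    have e4 : (((u * (y - x) : ℕ)) : ℤ) = (u : ℤ) * y - u * x := by
      push_cast [Nat.cast_sub hxy.le]; ring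
    have : ((5 ^ ex 5 ((1 - be) * TT m) : ℕ) : ℤ) ∣ ((u * (y - x) : ℕ) : ℤ) := by
      rw [e4]; exact_mod_cast k5
    exact_mod_cast this
  have r1 := rad_scale (l := 3) (by norm_num) (by norm_num) hx0 hxy.le hu0 hu2 n3
    (a := 1 - al) (by linarith) (by linarith)
    (ex_ge (l := 3) (by norm_num) _) hQ119
  have r2 := rad_scale (l := 5) (n := y - x) (by norm_num) (by norm_num) (by omega) (Nat.sub_le _ _)
    hu0 hu2 n5 (a := 1 - be) (by linarith) (by linarith)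
    (ex_ge (l := 5) (by norm_num) _) hQ119
  have r3 := rad_scale (l := 2) (by norm_num) (by norm_num) hy0 le_rfl hu0 hu2 n2
    (a := 1 - ga) (by linarith) (by linarith)
    (ex_ge (l := 2) (by norm_num) _) hQ119
  rw [show (1 : ℝ) - (1 - al) = al by ring] at r1
  rw [show (1 : ℝ) - (1 - be) = be by ring] at r2
  rw [show (1 : ℝ) - (1 - ga) = ga by ring] at r3
  have hbig : ∀ z : ℝ, 72590 * (y : ℝ) ^ z ≤ 10 ^ 13 * (y : ℝ) ^ z := fun z => by
    have : (0 : ℝ) ≤ (y : ℝ) ^ z := by positivity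
    nlinarith
  have hdist3 : |ξ - (x : ℝ) / y| ≤ 10 ^ 13 * (y : ℝ) ^ (-(al + be + ga - 1)) := by
    refine hdist2.trans ?_
    rw [← hsd]
    have k1 : (y : ℝ) ^ (s - 1) ≤ 10 ^ 4 * 2 * Real.exp ((s - 1) * TT m) := by
      calc (y : ℝ) ^ (s - 1) ≤ (119 * Real.exp (TT m)) ^ (s - 1) := by
            rw [exp_TT] at hQ119
            exact Real.rpow_le_rpow hQR.le hQ119 (by linarith)
        _ = (119 : ℝ) ^ (s - 1) * Real.exp ((s - 1) * TT m) := by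
            rw [Real.mul_rpow (by norm_num) (Real.exp_pos _).le, ← Real.exp_mul]
            congr 2; ring
        _ ≤ (119 : ℝ) ^ (2 : ℝ) * Real.exp ((s - 1) * TT m) := by
            gcongr
            · norm_num
            · linarith
        _ ≤ 10 ^ 4 * 2 * Real.exp ((s - 1) * TT m) := by
            gcongr
            rw [show (2 : ℝ) = ((2 : ℕ) : ℝ) by norm_num, Real.rpow_natCast]
            norm_num
    have hy : (0 : ℝ) < (y : ℝ) ^ (s - 1) := Real.rpow_pos_of_pos hQR _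
    rw [Real.rpow_neg hQR.le, ← div_eq_mul_inv, le_div_iff₀ hy]
    calc (10 : ℝ) ^ 8 * Real.exp (-(s - 1) * TT m) * (y : ℝ) ^ (s - 1)
        ≤ 10 ^ 8 * Real.exp (-(s - 1) * TT m) * (10 ^ 4 * 2 * Real.exp ((s - 1) * TT m)) := by
          gcongr
      _ = 2 * 10 ^ 12 * (Real.exp (-(s - 1) * TT m) * Real.exp ((s - 1) * TT m)) := by ring
      _ ≤ 10 ^ 13 := by
          rw [← Real.exp_add, show -(s - 1) * TT m + (s - 1) * TT m = 0 by ring, Real.exp_zero]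
          norm_num
  have hmem : (x, y) ∈ DP (10 ^ 13) al be ga ξ :=
    ⟨hx0, hxy, hcoN, r1.trans (hbig _), r2.trans (hbig _), r3.trans (hbig _), hdist3⟩
  have h3 : y ≤ N := hN ⟨(x, y), hmem, rfl⟩
  have h4 : (y : ℝ) ≤ N := by exact_mod_cast h3
  rw [one_mul, ← exp_TT] at f3
  nlinarith

end Pool.Agent.H34x.MA
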