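import Pool.Agent.H34x.MA.Dir3
import Pool.Agent.H34x.MA.Dim

/-!
# Every irrational number is approximated by the triples with prescribed radicals
-/

set_option autoImplicit false

namespace Pool.Agent.H34x.MA

open Filter Topology
open Pool.Agent.H785R2.ABC (rad)

theorem ev_rpow {y : ℝ} (hy : 0 < y) (C : ℝ) : ∀ᶠ q : ℕ in atTop, C ≤ (q : ℝ) ^ y := by
  have h : Tendsto (fun q : ℕ => (q : ℝ) ^ y) atTop atTop :=
    (tendsto_rpow_atTop hy).comp tendsto_natCast_atTop_atTop
  exact h.eventually_ge_atTop C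

/-- from constants to smaller exponents -/
theorem WP_of_DP {C al be ga al' be' ga' τ ξ : ℝ} (h1 : al' < al) (h2 : be' < be) (h3 : ga' < ga)
    (h4 : τ < al' + be' + ga' - 1) (h : (DP C al' be' ga' ξ).Infinite) :
    ξ ∈ WP (Ap al be ga) τ := by
  have e1 := ev_rpow (y := al - al') (by linarith) C
  have e2 := ev_rpow (y := be - be') (by linarith) C
  have e3 := ev_rpow (y := ga - ga') (by linarith) C
  have e4 := ev_rpow (y := al' + be' + ga' - 1 - τ) (by linarith) C
  obtain ⟨N, hN⟩ := eventually_atTop.1 (e1.and (e2.and (e3.and e4)))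
  intro hfin
  apply h
  have hsub : DP C al' be' ga' ξ ⊆ {t | t ∈ Ap al be ga ∧
      |ξ - (t.1 : ℝ) / t.2| ≤ (t.2 : ℝ) ^ (-τ)} ∪
        ((Set.Iic N) ×ˢ (Set.Iic N) : Set (ℕ × ℕ)) := by
    rintro ⟨x, y⟩ ⟨k1, k2, k3, k4, k5, k6, k7⟩
    simp only at k1 k2 k3 k4 k5 k6 k7
    rcases Nat.lt_or_ge y N with hy | hy
    · right
      exact ⟨(k2.trans hy).le, hy.le⟩
    · left
      obtain ⟨f1, f2, f3, f4⟩ := hN y hy
      have hy0 : (0 : ℝ) < y := by
        have : 0 < y := by omega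
        exact_mod_cast this
      have key : ∀ u v : ℝ, C ≤ (y : ℝ) ^ (v - u) → C * (y : ℝ) ^ u ≤ (y : ℝ) ^ v := by
        intro u v huv
        calc C * (y : ℝ) ^ u ≤ (y : ℝ) ^ (v - u) * (y : ℝ) ^ u := by gcongr
          _ = (y : ℝ) ^ v := by rw [← Real.rpow_add hy0]; congr 1; ring
      refine ⟨⟨k1, k2, k3, k4.trans (key _ _ f1), k5.trans (key _ _ f2), k6.trans (key _ _ f3)⟩,
        k7.trans (key _ _ ?_)⟩
      rw [show -τ - -(al' + be' + ga' - 1) = al' + be' + ga' - 1 - τ by ring]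
      exact f4
  exact (hfin.union ((Set.finite_Iic N).prod (Set.finite_Iic N))).subset hsub

/-- **every irrational number, and every rational number for exponents less than `1`** -/
theorem mem_WP {al be ga : ℝ} (a0 : 0 < al) (b0 : 0 < be) (c0 : 0 < ga) (a1 : al ≤ 1)
    (b1 : be ≤ 1) (c1 : ga ≤ 1) (hs : 1 < al + be + ga) {ξ τ : ℝ} (h0 : 0 < ξ) (h1 : ξ < 1)
    (hτ : τ < al + be + ga - 1) (hξ : Irrational ξ ∨ τ < 1) :
    ξ ∈ WP (Ap al be ga) τ := by
  obtain ⟨s, hsd⟩ : ∃ s, s = al + be + ga := ⟨_, rfl⟩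
  rw [← hsd] at hs hτ
  have hs0 : 0 < s := by linarith
  obtain ⟨v, v1, v2, v3, v4⟩ : ∃ v : ℝ, 1 < v ∧ τ + 1 < v ∧ v < s ∧ (Irrational ξ ∨ v < 2) := by
    rcases hξ with hξ | hξ
    · obtain ⟨v, hv1, hv2⟩ := exists_between (max_lt hs (show τ + 1 < s by linarith))
      exact ⟨v, (le_max_left _ _).trans_lt hv1, (le_max_right _ _).trans_lt hv1, hv2, Or.inl hξ⟩
    · obtain ⟨v, hv1, hv2⟩ := exists_between (show max 1 (τ + 1) < min s 2 from
        max_lt (lt_min hs (by norm_num)) (lt_min (by linarith) (by linarith)))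
      exact ⟨v, (le_max_left _ _).trans_lt hv1, (le_max_right _ _).trans_lt hv1,
        hv2.trans_le (min_le_left _ _), Or.inr (hv2.trans_le (min_le_right _ _))⟩
  have hl0 : 0 < v / s := by positivity
  have hl1 : v / s < 1 := (div_lt_one hs0).2 v3
  have hsum : v / s * al + v / s * be + v / s * ga = v := by
    rw [← mul_add, ← mul_add, ← hsd]
    field_simp
  have k1 : v / s * al < al := by nlinarith
  have k2 : v / s * be < be := by nlinarith
  have k3 : v / s * ga < ga := by nlinarith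
  refine WP_of_DP (C := 10 ^ 13) k1 k2 k3 (by linarith) ?_
  exact dirichlet_rad (by positivity) (by positivity) (by positivity) (by linarith) (by linarith)
    (by linarith) (by linarith) h0 h1 (v4.imp id fun h => by linarith)

end Pool.Agent.H34x.MA
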