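import Pool.Agent.H34x.MA.Bad

/-!
# One scale: the approximation of a number outside the bad set
-/

set_option autoImplicit false

namespace Pool.Agent.H34x.MA

open MeasureTheory Finset

/-- the distance from the end points -/
noncomputable def kap (i j k m : ℕ) (H : ℝ) : ℝ :=
  2 * dl i j k m / H + dl i j k m / (2 ^ i * 5 ^ k) + dl i j k m / (2 ^ i * 3 ^ j)

theorem good_point {i j k m w : ℕ} (him : i ≤ m) {H : ℝ} (hH : 2 * dl i j k m < H)
    (hns : NoShort i j k H) {ξ : ℝ} (h0 : kap i j k m H < ξ) (h1 : ξ < 1 - kap i j k m H)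
    (hnb : ξ ∉ Bad i j k m w) :
    ∃ p q g : ℕ, 0 < p ∧ p < q ∧ Nat.Coprime p q ∧ 0 < g ∧ g * q ≤ 2 ^ m ∧
      2 ^ m ≤ g * q * 2 ^ w ∧ 2 ^ (i - w) ∣ q ∧ 3 ^ (j - w) ∣ p ∧ 5 ^ (k - w) ∣ q - p ∧
      |ξ - (p : ℝ) / q| ≤ dl i j k m / (g * q) := by
  have hd := dl_pos i j k m
  have hH0 : 0 < H := by linarith
  have t1 : 0 < 2 * dl i j k m / H := by positivity
  have t2 : 0 < dl i j k m / (2 ^ i * 5 ^ k) := by positivity
  have t3 : 0 < dl i j k m / (2 ^ i * 3 ^ j) := by positivity
  have hk : kap i j k m H = 2 * dl i j k m / H + dl i j k m / (2 ^ i * 5 ^ k) +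
    dl i j k m / (2 ^ i * 3 ^ j) := rfl
  have hξ0 : 0 < ξ := by linarith
  have hξ1 : ξ < 1 := by linarith
  obtain ⟨p, q, hq0, hqm, h2, h3, h5, hap⟩ := dirich i j k m him ξ
  have hq0R : (0 : ℝ) < q := by exact_mod_cast hq0
  have hap' := abs_le.1 hap
  have hξq : 0 < (q : ℝ) * ξ := by positivity
  -- `p` is positive
  have hp0 : 0 < p := by
    by_contra hp
    push Not at hp
    rcases hp.lt_or_eq with hneg | hzero
    · have hpR : (p : ℝ) < 0 := by exact_mod_cast hneg
      have hqp : q - p ≠ 0 := by omega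
      have h4 := hns p q hneg.ne hq0.ne' hqp h2 h3 h5
      have h5' : |(p : ℝ)| ≤ dl i j k m := by
        rw [abs_of_neg hpR]
        linarith [hap'.2]
      have h6 : H ≤ q := by
        rcases le_max_iff.1 h4 with h7 | h7
        · linarith
        · rwa [abs_of_pos hq0R] at h7
      have h7 : H * ξ ≤ dl i j k m := by
        have : H * ξ ≤ q * ξ := by gcongr
        linarith [hap'.2]
      have h8 : ξ ≤ dl i j k m / H := by
        rw [le_div_iff₀ hH0]; linarith
      have h9 : dl i j k m / H ≤ 2 * dl i j k m / H := by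
        gcongr
        linarith
      linarith
    · subst hzero
      rw [sub_zero] at h5
      have h4 : (2 : ℤ) ^ i * 5 ^ k ∣ q := by
        apply IsCoprime.mul_dvd _ h2 h5
        apply IsCoprime.pow
        norm_num
      have h6 := Int.le_of_dvd hq0 h4
      have h6R : (2 : ℝ) ^ i * 5 ^ k ≤ q := by exact_mod_cast h6
      have h7 : (2 : ℝ) ^ i * 5 ^ k * ξ ≤ dl i j k m := by
        have : (2 : ℝ) ^ i * 5 ^ k * ξ ≤ q * ξ := by gcongr
        have h8 := hap'.2
        push_cast at h8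
        linarith
      have h8 : ξ ≤ dl i j k m / (2 ^ i * 5 ^ k) := by
        rw [le_div_iff₀ (by positivity)]; linarith
      linarith
  have hp0R : (0 : ℝ) < p := by exact_mod_cast hp0
  -- `p < q`
  have hpq : p < q := by
    by_contra hp
    push Not at hp
    rcases hp.lt_or_eq with hgt | heq
    · have hgtR : (q : ℝ) < p := by exact_mod_cast hgt
      have hqp : q - p ≠ 0 := by omega
      have h4 := hns p q hp0.ne' hq0.ne' hqp h2 h3 h5
      rw [abs_of_pos hp0R, abs_of_pos hq0R, max_eq_left hgtR.le] at h4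
      have h6 : (p : ℝ) - q * ξ ≤ dl i j k m := by linarith [hap'.1]
      have h7 : (q : ℝ) * ξ ≤ q := by nlinarith
      have h8 : H / 2 ≤ q := by linarith
      have h9 : (q : ℝ) * (1 - ξ) ≤ dl i j k m := by nlinarith
      have h10 : H / 2 * (1 - ξ) ≤ dl i j k m := by
        have : H / 2 * (1 - ξ) ≤ q * (1 - ξ) := by
          apply mul_le_mul_of_nonneg_right h8; linarith
        linarith
      have h11 : 1 - ξ ≤ 2 * dl i j k m / H := by
        rw [le_div_iff₀ hH0]; linarith
      linarith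
    · have h3' : (3 : ℤ) ^ j ∣ q := by rw [heq]; exact h3
      have h4 : (2 : ℤ) ^ i * 3 ^ j ∣ q := by
        apply IsCoprime.mul_dvd _ h2 h3'
        apply IsCoprime.pow
        norm_num
      have h6 := Int.le_of_dvd hq0 h4
      have h6R : (2 : ℝ) ^ i * 3 ^ j ≤ q := by exact_mod_cast h6
      have hpqR : (p : ℝ) = q := by exact_mod_cast heq.symm
      have h8 : (q : ℝ) * (1 - ξ) ≤ dl i j k m := by
        have := hap'.1
        rw [hpqR] at this
        linarith
      have h7 : (2 : ℝ) ^ i * 3 ^ j * (1 - ξ) ≤ dl i j k m := by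
        have : (2 : ℝ) ^ i * 3 ^ j * (1 - ξ) ≤ q * (1 - ξ) := by
          apply mul_le_mul_of_nonneg_right h6R; linarith
        linarith
      have h9 : 1 - ξ ≤ dl i j k m / (2 ^ i * 3 ^ j) := by
        rw [le_div_iff₀ (by positivity)]; linarith
      linarith
  -- natural numbers in lowest terms
  obtain ⟨P, rfl⟩ := Int.eq_ofNat_of_zero_le hp0.le
  obtain ⟨Q, rfl⟩ := Int.eq_ofNat_of_zero_le hq0.le
  simp only [Int.cast_natCast] at *
  have hP0 : 0 < P := by exact_mod_cast hp0
  have hQ0 : 0 < Q := by exact_mod_cast hq0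
  have hPQ : P < Q := by exact_mod_cast hpq
  set g := Nat.gcd P Q with hg
  have hg0 : 0 < g := Nat.gcd_pos_of_pos_left _ hP0
  obtain ⟨p', hp'⟩ : g ∣ P := Nat.gcd_dvd_left _ _
  obtain ⟨q', hq'⟩ : g ∣ Q := Nat.gcd_dvd_right _ _
  have hco : Nat.Coprime p' q' := by
    have h4 := Nat.coprime_div_gcd_div_gcd (m := P) (n := Q) hg0
    rw [← hg] at h4
    have e1 : P / g = p' := by rw [hp']; exact Nat.mul_div_cancel_left _ hg0
    have e2 : Q / g = q' := by rw [hq']; exact Nat.mul_div_cancel_left _ hg0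
    rwa [e1, e2] at h4
  have hp'0 : 0 < p' := by
    rcases Nat.eq_zero_or_pos p' with h | h
    · rw [h, mul_zero] at hp'; omega
    · exact h
  have hpq' : p' < q' := by
    have : g * p' < g * q' := by rw [← hp', ← hq']; exact hPQ
    exact Nat.lt_of_mul_lt_mul_left this
  have hgR : (0 : ℝ) < g := by exact_mod_cast hg0
  have hq'R : (0 : ℝ) < q' := by
    have : 0 < q' := by omega
    exact_mod_cast this
  have hQR : (Q : ℝ) = g * q' := by rw [hq']; push_cast; ring
  have hPR : (P : ℝ) = g * p' := by rw [hp']; push_cast; ring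
  have n2 : 2 ^ i ∣ g * q' := by rw [← hq']; exact_mod_cast h2
  have n3 : 3 ^ j ∣ g * p' := by rw [← hp']; exact_mod_cast h3
  have n5 : 5 ^ k ∣ g * (q' - p') := by
    have e1 : g * (q' - p') = Q - P := by rw [Nat.mul_sub, ← hp', ← hq']
    rw [e1]
    have : ((5 ^ k : ℕ) : ℤ) ∣ ((Q - P : ℕ) : ℤ) := by
      rw [Nat.cast_sub hPQ.le]; exact_mod_cast h5
    exact_mod_cast this
  have nm : g * q' ≤ 2 ^ m := by rw [← hq']; exact_mod_cast hqm
  have nap : |ξ - (p' : ℝ) / q'| ≤ dl i j k m / (g * q') := by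
    have e1 : ξ - (p' : ℝ) / q' = ((Q : ℝ) * ξ - P) / (g * q') := by
      rw [hQR, hPR]
      field_simp
    rw [e1, abs_div, abs_of_pos (mul_pos hgR hq'R)]
    gcongr
  refine ⟨p', q', g, hp'0, hpq', hco, hg0, nm, ?_⟩
  by_contra hcon
  apply hnb
  refine ⟨p', q', g, hp'0, hpq', hco, hg0, nm, n2, n3, n5, nap, ?_⟩
  by_contra hcon2
  push Not at hcon2
  exact hcon ⟨hcon2.1, hcon2.2.1, hcon2.2.2.1, hcon2.2.2.2, nap⟩

end Pool.Agent.H34x.MA
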