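import Pool.Agent.H34x.MA.Rid

/-!
# Points of the lattices `2 ^ i ∣ q`, `3 ^ j ∣ p`, `5 ^ k ∣ q - p` are not small: all points
-/

set_option autoImplicit false

namespace Pool.Agent.H34x.MA

/-- the power of a prime in a multiple -/
theorem pow_split (l : ℕ) (hl : l.Prime) (g : ℕ) (hg : g ≠ 0) : ∃ u : ℕ, l ^ u ∣ g ∧
    ∀ (x : ℤ) (i : ℕ), (l : ℤ) ^ i ∣ g * x → (l : ℤ) ^ (i - u) ∣ x := by
  obtain ⟨u, h, hh, hgh⟩ := Nat.exists_eq_pow_mul_and_not_dvd hg l hl.ne_one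
  refine ⟨u, ⟨h, hgh⟩, fun x i hi => ?_⟩
  rcases Nat.lt_or_ge u i with hui | hui
  · obtain ⟨t, rfl⟩ := Nat.exists_eq_add_of_lt hui
    have h1 : u + t + 1 - u = t + 1 := by omega
    rw [h1]
    rw [hgh] at hi
    push_cast at hi
    rw [show u + t + 1 = u + (t + 1) by ring, pow_add, mul_assoc] at hi
    have h2 : (l : ℤ) ^ u ≠ 0 := pow_ne_zero _ (by exact_mod_cast hl.ne_zero)
    have h3 : (l : ℤ) ^ (t + 1) ∣ (h : ℤ) * x := (mul_dvd_mul_iff_left h2).1 hi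
    have h4 : IsCoprime ((l : ℤ) ^ (t + 1)) (h : ℤ) := by
      apply IsCoprime.pow_left
      rw [Nat.isCoprime_iff_coprime]
      exact (Nat.Prime.coprime_iff_not_dvd hl).2 hh
    exact h4.dvd_of_dvd_mul_left h3
  · rw [Nat.sub_eq_zero_of_le hui, pow_zero]
    exact one_dvd _

theorem mul_three_dvd {u v w g : ℕ} (h2 : 2 ^ u ∣ g) (h3 : 3 ^ v ∣ g) (h5 : 5 ^ w ∣ g) :
    2 ^ u * 3 ^ v * 5 ^ w ∣ g := by
  have c1 : Nat.Coprime (2 ^ u) (3 ^ v) := Nat.Coprime.pow _ _ (by norm_num)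
  have c2 : Nat.Coprime (2 ^ u * 3 ^ v) (5 ^ w) :=
    Nat.Coprime.mul_left (Nat.Coprime.pow _ _ (by norm_num)) (Nat.Coprime.pow _ _ (by norm_num))
  exact c2.mul_dvd_of_dvd_of_dvd (c1.mul_dvd_of_dvd_of_dvd h2 h3) h5

/-- all points of the lattice with `p q (q - p) ≠ 0` -/
theorem lat_min (ε : ℝ) (hε : 0 < ε) (hε1 : ε ≤ 1) : ∃ c : ℝ, 0 < c ∧ ∀ p q : ℤ,
    p ≠ 0 → q ≠ 0 → q - p ≠ 0 → ∀ i j k : ℕ, (2 : ℤ) ^ i ∣ q → (3 : ℤ) ^ j ∣ p →
      (5 : ℤ) ^ k ∣ q - p →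
      c * ((2 : ℝ) ^ i * 3 ^ j * 5 ^ k) ≤ (max |(p : ℝ)| |(q : ℝ)|) ^ (2 + ε) := by
  obtain ⟨c, hc, h⟩ := rid3 ε hε hε1
  refine ⟨c / 2, by positivity, ?_⟩
  intro p q hp hq hqp i j k h2 h3 h5
  set g : ℕ := Int.gcd p q with hg
  have hg0 : 0 < g := Int.gcd_pos_of_ne_zero_left _ hp
  obtain ⟨p', hp'⟩ := Int.gcd_dvd_left p q
  obtain ⟨q', hq'⟩ := Int.gcd_dvd_right p q
  rw [← hg] at hp' hq'
  have hgz : (g : ℤ) ≠ 0 := by exact_mod_cast hg0.ne'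
  have hp'0 : p' ≠ 0 := by rintro rfl; exact hp (by rw [hp', mul_zero])
  have hq'0 : q' ≠ 0 := by rintro rfl; exact hq (by rw [hq', mul_zero])
  have hqp' : q - p = g * (q' - p') := by rw [hp', hq']; ring
  have hqp'0 : q' - p' ≠ 0 := by intro h0; exact hqp (by rw [hqp', h0, mul_zero])
  have hco : IsCoprime p' q' := by
    rw [Int.isCoprime_iff_gcd_eq_one]
    have h1 : Int.gcd p q = g * Int.gcd p' q' := by
      conv_lhs => rw [hp', hq']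
      rw [Int.gcd_mul_left, Int.natAbs_natCast]
    rw [← hg] at h1
    have h2 : g * 1 = g * Int.gcd p' q' := by rw [mul_one]; exact h1
    exact (Nat.eq_of_mul_eq_mul_left hg0 h2).symm
  obtain ⟨u, hu, hu'⟩ := pow_split 2 Nat.prime_two g hg0.ne'
  obtain ⟨v, hv, hv'⟩ := pow_split 3 Nat.prime_three g hg0.ne'
  obtain ⟨w, hw, hw'⟩ := pow_split 5 Nat.prime_five g hg0.ne'
  have d2 : (2 : ℤ) ^ (i - u) ∣ q' := by
    have := hu' q' i (by rw [← hq']; exact_mod_cast h2)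
    exact_mod_cast this
  have d3 : (3 : ℤ) ^ (j - v) ∣ p' := by
    have := hv' p' j (by rw [← hp']; exact_mod_cast h3)
    exact_mod_cast this
  have d5 : (5 : ℤ) ^ (k - w) ∣ q' - p' := by
    have := hw' (q' - p') k (by rw [← hqp']; exact_mod_cast h5)
    exact_mod_cast this
  have h6 := h p' q' hco hp'0 hq'0 hqp'0 _ _ _ d2 d3 d5
  set H : ℝ := max |(p' : ℝ)| |(q' : ℝ)| with hH
  have hH1 : 1 ≤ H := by
    refine le_max_of_le_left ?_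
    have : (1 : ℤ) ≤ |p'| := Int.one_le_abs hp'0
    exact_mod_cast this
  have hH0 : 0 < H := by linarith
  have hF : |((p' * q' * (q' - p') : ℤ) : ℝ)| ≤ 2 * H ^ 3 := by
    push_cast
    rw [abs_mul, abs_mul]
    have a1 : |(p' : ℝ)| ≤ H := le_max_left _ _
    have a2 : |(q' : ℝ)| ≤ H := le_max_right _ _
    have a3 : |(q' : ℝ) - p'| ≤ 2 * H := by
      have := abs_sub (q' : ℝ) p'
      linarith
    calc |(p' : ℝ)| * |(q' : ℝ)| * |(q' : ℝ) - p'| ≤ H * H * (2 * H) := by gcongr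
      _ = 2 * H ^ 3 := by ring
  have h7 : c * ((2 : ℝ) ^ (i - u) * 3 ^ (j - v) * 5 ^ (k - w)) ≤ 2 * H ^ (2 + ε) := by
    have h8 : c * ((2 : ℝ) ^ (i - u) * 3 ^ (j - v) * 5 ^ (k - w)) * H ^ (1 - ε) ≤
        2 * H ^ (2 + ε) * H ^ (1 - ε) := by
      calc c * ((2 : ℝ) ^ (i - u) * 3 ^ (j - v) * 5 ^ (k - w)) * H ^ (1 - ε)
          = c * H ^ (1 - ε) * ((2 : ℝ) ^ (i - u) * 3 ^ (j - v) * 5 ^ (k - w)) := by ring
        _ ≤ 2 * H ^ 3 := h6.trans hF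
        _ = 2 * H ^ (2 + ε) * H ^ (1 - ε) := by
            rw [mul_assoc, ← Real.rpow_add hH0]
            congr 1
            rw [← Real.rpow_natCast]
            congr 1
            push_cast
            ring
    exact le_of_mul_le_mul_right h8 (by positivity)
  have hgd : ((2 : ℝ) ^ u * 3 ^ v * 5 ^ w) ≤ g := by
    have := Nat.le_of_dvd hg0 (mul_three_dvd hu hv hw)
    exact_mod_cast this
  have hg1 : (1 : ℝ) ≤ g := by exact_mod_cast hg0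
  have hgp : (g : ℝ) ≤ (g : ℝ) ^ (2 + ε) := by
    conv_lhs => rw [← Real.rpow_one (g : ℝ)]
    exact Real.rpow_le_rpow_of_exponent_le hg1 (by linarith)
  have hmax : max |(p : ℝ)| |(q : ℝ)| = g * H := by
    have e1 : (p : ℝ) = g * p' := by rw [hp']; push_cast; ring
    have e2 : (q : ℝ) = g * q' := by rw [hq']; push_cast; ring
    rw [e1, e2, abs_mul, abs_mul, abs_of_pos (by linarith : (0 : ℝ) < g), hH,
      mul_max_of_nonneg _ _ (by linarith)]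
  rw [hmax, Real.mul_rpow (by linarith) hH0.le]
  have b2 : (2 : ℝ) ^ i ≤ 2 ^ u * 2 ^ (i - u) := by
    rw [← pow_add]; exact pow_le_pow_right₀ (by norm_num) (by omega)
  have b3 : (3 : ℝ) ^ j ≤ 3 ^ v * 3 ^ (j - v) := by
    rw [← pow_add]; exact pow_le_pow_right₀ (by norm_num) (by omega)
  have b5 : (5 : ℝ) ^ k ≤ 5 ^ w * 5 ^ (k - w) := by
    rw [← pow_add]; exact pow_le_pow_right₀ (by norm_num) (by omega)
  calc c / 2 * ((2 : ℝ) ^ i * 3 ^ j * 5 ^ k)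
      ≤ c / 2 * ((2 ^ u * 2 ^ (i - u)) * (3 ^ v * 3 ^ (j - v)) * (5 ^ w * 5 ^ (k - w))) := by
        gcongr
    _ = (2 ^ u * 3 ^ v * 5 ^ w) * (c * ((2 : ℝ) ^ (i - u) * 3 ^ (j - v) * 5 ^ (k - w))) / 2 := by
        ring
    _ ≤ (g : ℝ) ^ (2 + ε) * (2 * H ^ (2 + ε)) / 2 := by
        gcongr
        exact hgd.trans hgp
    _ = (g : ℝ) ^ (2 + ε) * H ^ (2 + ε) := by ring

end Pool.Agent.H34x.MA
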