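import Pool.Agent.H34x.MA.Good

/-!
# The parameters and the lemma of Borel and Cantelli
-/

set_option autoImplicit false

namespace Pool.Agent.H34x.MA

open MeasureTheory Finset Filter Topology

/-- `2 ^ m = exp (TT m)` -/
noncomputable def TT (m : ℕ) : ℝ := m * Real.log 2

theorem log2_pos : 0 < Real.log 2 := Real.log_pos (by norm_num)

theorem TT_nonneg (m : ℕ) : 0 ≤ TT m := by
  have := log2_pos
  unfold TT
  positivity

theorem exp_TT (m : ℕ) : (2 : ℝ) ^ m = Real.exp (TT m) := by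
  unfold TT
  rw [Real.exp_nat_mul, Real.exp_log (by norm_num)]

theorem TT_tendsto : Tendsto TT atTop atTop :=
  tendsto_natCast_atTop_atTop.atTop_mul_const log2_pos

/-- the exponent of `l` for the size `exp y` -/
noncomputable def ex (l : ℕ) (y : ℝ) : ℕ := ⌈y / Real.log l⌉₊

theorem ex_ge {l : ℕ} (hl : 2 ≤ l) (y : ℝ) : Real.exp y ≤ (l : ℝ) ^ ex l y := by
  have hlR : (1 : ℝ) < l := by exact_mod_cast hl
  have hlog := Real.log_pos hlR
  have h1 : y / Real.log l ≤ ex l y := Nat.le_ceil _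
  rw [div_le_iff₀ hlog] at h1
  calc Real.exp y ≤ Real.exp (ex l y * Real.log l) := Real.exp_le_exp.2 h1
    _ = (l : ℝ) ^ ex l y := by
        rw [Real.exp_nat_mul, Real.exp_log (by linarith)]

theorem ex_le {l : ℕ} (hl : 2 ≤ l) {y : ℝ} (hy : 0 ≤ y) :
    (l : ℝ) ^ ex l y ≤ l * Real.exp y := by
  have hlR : (1 : ℝ) < l := by exact_mod_cast hl
  have hlog := Real.log_pos hlR
  have h1 : (ex l y : ℝ) < y / Real.log l + 1 := Nat.ceil_lt_add_one (by positivity)
  have h2 : (ex l y : ℝ) * Real.log l ≤ Real.log l + y := by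
    have : (ex l y : ℝ) * Real.log l ≤ (y / Real.log l + 1) * Real.log l := by gcongr
    calc (ex l y : ℝ) * Real.log l ≤ (y / Real.log l + 1) * Real.log l := this
      _ = Real.log l + y := by field_simp; ring
  calc (l : ℝ) ^ ex l y = Real.exp (ex l y * Real.log l) := by
        rw [Real.exp_nat_mul, Real.exp_log (by linarith)]
    _ ≤ Real.exp (Real.log l + y) := Real.exp_le_exp.2 h2
    _ = l * Real.exp y := by rw [Real.exp_add, Real.exp_log (by linarith)]

theorem ex_le_m {l : ℕ} (hl : 2 ≤ l) {a : ℝ} (ha : a ≤ 1) (m : ℕ) : ex l (a * TT m) ≤ m := by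
  have hlR : (2 : ℝ) ≤ l := by exact_mod_cast hl
  have hlog : Real.log 2 ≤ Real.log l := Real.log_le_log (by norm_num) hlR
  have h2 := log2_pos
  unfold ex
  apply Nat.ceil_le.2
  rw [div_le_iff₀ (by linarith)]
  have h3 : a * TT m ≤ 1 * TT m := by
    apply mul_le_mul_of_nonneg_right ha (TT_nonneg m)
  calc a * TT m ≤ 1 * TT m := h3
    _ = m * Real.log 2 := by unfold TT; ring
    _ ≤ m * Real.log l := by gcongr

/-- the loss -/
noncomputable def ww (e : ℝ) (m : ℕ) : ℕ := ⌊e * m⌋₊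

theorem ww_le {e : ℝ} (he : 0 ≤ e) (m : ℕ) : (ww e m : ℝ) ≤ e * m := Nat.floor_le (by positivity)

theorem ww_pow2 {e : ℝ} (he : 0 ≤ e) (m : ℕ) : (2 : ℝ) ^ ww e m ≤ Real.exp (e * TT m) := by
  rw [exp_TT]
  apply Real.exp_le_exp.2
  unfold TT
  have := ww_le he m
  have h2 := log2_pos
  calc (ww e m : ℝ) * Real.log 2 ≤ (e * m) * Real.log 2 := by gcongr
    _ = e * (m * Real.log 2) := by ring

theorem ww_pow2' (e : ℝ) (m : ℕ) : Real.exp (e * TT m) ≤ 2 * (2 : ℝ) ^ ww e m := by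
  have h1 : e * m < ww e m + 1 := Nat.lt_floor_add_one _
  have h2 := log2_pos
  have h3 : e * TT m ≤ TT (ww e m + 1) := by
    unfold TT
    push_cast
    calc e * (m * Real.log 2) = (e * m) * Real.log 2 := by ring
      _ ≤ ((ww e m : ℝ) + 1) * Real.log 2 := by gcongr
  calc Real.exp (e * TT m) ≤ Real.exp (TT (ww e m + 1)) := Real.exp_le_exp.2 h3
    _ = 2 * (2 : ℝ) ^ ww e m := by rw [← exp_TT, pow_succ]; ring

theorem log3_le : Real.log 3 ≤ 2 * Real.log 2 := by
  have : (2 : ℝ) * Real.log 2 = Real.log (2 ^ 2) := by rw [Real.log_pow]; norm_num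
  rw [this]
  exact Real.log_le_log (by norm_num) (by norm_num)

theorem log5_le : Real.log 5 ≤ 3 * Real.log 2 := by
  have : (3 : ℝ) * Real.log 2 = Real.log (2 ^ 3) := by rw [Real.log_pow]; norm_num
  rw [this]
  exact Real.log_le_log (by norm_num) (by norm_num)

theorem ww_pow3 {e : ℝ} (he : 0 ≤ e) (m : ℕ) : (3 : ℝ) ^ ww e m ≤ Real.exp (2 * e * TT m) := by
  have h : (3 : ℝ) ^ ww e m = Real.exp (ww e m * Real.log 3) := by
    rw [Real.exp_nat_mul, Real.exp_log (by norm_num)]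
  rw [h]
  apply Real.exp_le_exp.2
  have h1 := ww_le he m
  have h2 := log2_pos
  have h3 := log3_le
  calc (ww e m : ℝ) * Real.log 3 ≤ (e * m) * (2 * Real.log 2) := by
        apply mul_le_mul h1 h3 (Real.log_nonneg (by norm_num)) (by positivity)
    _ = 2 * e * TT m := by unfold TT; ring

theorem ww_pow5 {e : ℝ} (he : 0 ≤ e) (m : ℕ) : (5 : ℝ) ^ ww e m ≤ Real.exp (3 * e * TT m) := by
  have h : (5 : ℝ) ^ ww e m = Real.exp (ww e m * Real.log 5) := by
    rw [Real.exp_nat_mul, Real.exp_log (by norm_num)]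
  rw [h]
  apply Real.exp_le_exp.2
  have h1 := ww_le he m
  have h2 := log2_pos
  have h3 := log5_le
  calc (ww e m : ℝ) * Real.log 5 ≤ (e * m) * (3 * Real.log 2) := by
        apply mul_le_mul h1 h3 (Real.log_nonneg (by norm_num)) (by positivity)
    _ = 3 * e * TT m := by unfold TT; ring

/-- the parameters of a scale -/
structure Par where
  a : ℝ
  b : ℝ
  c : ℝ
  e : ℝ
  a0 : 0 < a
  b0 : 0 < b
  c0 : 0 < c
  a1 : a < 1
  b1 : b < 1
  c1 : c < 1
  e0 : 0 < e
  hs : a + b + c < 2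

namespace Par

variable (P : Par)

noncomputable def I (m : ℕ) : ℕ := ex 2 (P.a * TT m)
noncomputable def J (m : ℕ) : ℕ := ex 3 (P.b * TT m)
noncomputable def K (m : ℕ) : ℕ := ex 5 (P.c * TT m)
noncomputable def W (m : ℕ) : ℕ := ww P.e m
noncomputable def s : ℝ := P.a + P.b + P.c

theorem s0 : 0 < P.s := by
  have := P.a0; have := P.b0; have := P.c0
  unfold s; linarith

theorem I_ge (m : ℕ) : Real.exp (P.a * TT m) ≤ 2 ^ P.I m := by
  have := ex_ge (l := 2) (by norm_num) (P.a * TT m)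
  exact_mod_cast this

theorem J_ge (m : ℕ) : Real.exp (P.b * TT m) ≤ 3 ^ P.J m := by
  have := ex_ge (l := 3) (by norm_num) (P.b * TT m)
  exact_mod_cast this

theorem K_ge (m : ℕ) : Real.exp (P.c * TT m) ≤ 5 ^ P.K m := by
  have := ex_ge (l := 5) (by norm_num) (P.c * TT m)
  exact_mod_cast this

theorem I_le (m : ℕ) : (2 : ℝ) ^ P.I m ≤ 2 * Real.exp (P.a * TT m) := by
  have h := TT_nonneg m
  have ha := P.a0
  have := ex_le (l := 2) (by norm_num) (y := P.a * TT m) (by positivity)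
  exact_mod_cast this

theorem J_le (m : ℕ) : (3 : ℝ) ^ P.J m ≤ 3 * Real.exp (P.b * TT m) := by
  have h := TT_nonneg m
  have ha := P.b0
  have := ex_le (l := 3) (by norm_num) (y := P.b * TT m) (by positivity)
  exact_mod_cast this

theorem K_le (m : ℕ) : (5 : ℝ) ^ P.K m ≤ 5 * Real.exp (P.c * TT m) := by
  have h := TT_nonneg m
  have ha := P.c0
  have := ex_le (l := 5) (by norm_num) (y := P.c * TT m) (by positivity)
  exact_mod_cast this

theorem I_m (m : ℕ) : P.I m ≤ m := ex_le_m (by norm_num) P.a1.le m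
theorem J_m (m : ℕ) : P.J m ≤ m := ex_le_m (by norm_num) P.b1.le m
theorem K_m (m : ℕ) : P.K m ≤ m := ex_le_m (by norm_num) P.c1.le m

theorem M_ge (m : ℕ) : Real.exp (P.s * TT m) ≤ MM (P.I m) (P.J m) (P.K m) := by
  rw [MM_cast]
  have h1 := P.I_ge m
  have h2 := P.J_ge m
  have h3 := P.K_ge m
  calc Real.exp (P.s * TT m) =
        Real.exp (P.a * TT m) * Real.exp (P.b * TT m) * Real.exp (P.c * TT m) := by
        rw [← Real.exp_add, ← Real.exp_add]; unfold s; congr 1; ring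
    _ ≤ 2 ^ P.I m * 3 ^ P.J m * 5 ^ P.K m := by gcongr

theorem M_le (m : ℕ) : (MM (P.I m) (P.J m) (P.K m) : ℝ) ≤ 30 * Real.exp (P.s * TT m) := by
  rw [MM_cast]
  have h1 := P.I_le m
  have h2 := P.J_le m
  have h3 := P.K_le m
  calc (2 : ℝ) ^ P.I m * 3 ^ P.J m * 5 ^ P.K m
      ≤ (2 * Real.exp (P.a * TT m)) * (3 * Real.exp (P.b * TT m)) *
        (5 * Real.exp (P.c * TT m)) := by gcongr
    _ = 30 * (Real.exp (P.a * TT m) * Real.exp (P.b * TT m) * Real.exp (P.c * TT m)) := by ring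
    _ = 30 * Real.exp (P.s * TT m) := by
        rw [← Real.exp_add, ← Real.exp_add]; unfold s; congr 3; ring

/-- the quality -/
noncomputable def D (m : ℕ) : ℝ := dl (P.I m) (P.J m) (P.K m) m

theorem D_pos (m : ℕ) : 0 < P.D m := dl_pos _ _ _ _

theorem D_le (m : ℕ) : P.D m ≤ 30 * Real.exp ((P.s - 1) * TT m) := by
  unfold D dl
  rw [exp_TT, div_le_iff₀ (Real.exp_pos _)]
  calc (MM (P.I m) (P.J m) (P.K m) : ℝ) ≤ 30 * Real.exp (P.s * TT m) := P.M_le m
    _ = 30 * Real.exp ((P.s - 1) * TT m) * Real.exp (TT m) := by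
        rw [mul_assoc, ← Real.exp_add]; congr 2; ring

/-- the exponents and constants of the scales -/
theorem short : ∃ C th : ℝ, 0 < C ∧ 0 < th ∧ ∃ H : ℕ → ℝ, (∀ m, 0 < H m) ∧
    (∀ m, NoShort (P.I m) (P.J m) (P.K m) (H m)) ∧
    (∀ m, P.D m / H m ≤ C * Real.exp (-th * TT m)) := by
  set ε : ℝ := min 1 (2 - P.s) with hε
  have hs2 : P.s < 2 := P.hs
  have hs0 := P.s0
  have hε0 : 0 < ε := lt_min one_pos (by linarith)
  have hε1 : ε ≤ 1 := min_le_left _ _
  have hε2 : ε ≤ 2 - P.s := min_le_right _ _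
  obtain ⟨c, hc, h⟩ := lat_min ε hε0 hε1
  have h2ε : 0 < 2 + ε := by linarith
  set th : ℝ := 1 + P.s / (2 + ε) - P.s with hth
  have hth0 : 0 < th := by
    have : P.s * (1 + ε) < 2 + ε := by nlinarith
    have h3 : th = (2 + ε - P.s * (1 + ε)) / (2 + ε) := by
      rw [hth]; field_simp; ring
    rw [h3]
    apply div_pos _ h2ε
    linarith
  refine ⟨30 / c ^ (1 / (2 + ε)), th, by positivity, hth0,
    fun m => (c * Real.exp (P.s * TT m)) ^ (1 / (2 + ε)), fun m => by positivity, ?_, ?_⟩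
  · intro m p q hp hq hqp h2 h3 h5
    have h4 := h p q hp hq hqp _ _ _ h2 h3 h5
    have h6 := P.M_ge m
    rw [MM_cast] at h6
    have h7 : c * Real.exp (P.s * TT m) ≤ (max |(p : ℝ)| |(q : ℝ)|) ^ (2 + ε) := by
      refine le_trans ?_ h4
      gcongr
    have h0 : (0 : ℝ) ≤ max |(p : ℝ)| |(q : ℝ)| := le_max_of_le_left (abs_nonneg _)
    calc (c * Real.exp (P.s * TT m)) ^ (1 / (2 + ε))
        ≤ ((max |(p : ℝ)| |(q : ℝ)|) ^ (2 + ε)) ^ (1 / (2 + ε)) := by gcongr
      _ = max |(p : ℝ)| |(q : ℝ)| := by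
          rw [← Real.rpow_mul h0, mul_one_div_cancel h2ε.ne', Real.rpow_one]
  · intro m
    have h1 := P.D_le m
    beta_reduce
    rw [Real.mul_rpow hc.le (Real.exp_pos _).le, ← Real.exp_mul]
    rw [div_le_iff₀ (by positivity)]
    refine h1.trans (le_of_eq ?_)
    have e1 : Real.exp ((P.s - 1) * TT m) =
        Real.exp (-th * TT m) * Real.exp (P.s * TT m * (1 / (2 + ε))) := by
      rw [← Real.exp_add]
      congr 1
      rw [hth]
      field_simp
      ring
    rw [e1]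
    field_simp

end Par

end Pool.Agent.H34x.MA
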