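import Pool.Agent.Y670.RD.Rid

/-!
# Points of the lattices `2 ^ i ∣ q`, `3 ^ j ∣ p`, `5 ^ k ∣ q - p` are not small
-/

set_option autoImplicit false

namespace Pool.Agent.H34x.MA

open Polynomial Finset Pool.Agent.Y670.RD

/-- the polynomial `x (x - 1) (x - 2)` -/
noncomputable def g3 : ℤ[X] := X ^ 3 - C 3 * X ^ 2 + C 2 * X

theorem g3_deg : g3.natDegree = 3 := by
  unfold g3
  compute_degree!

theorem g3_fv (s t : ℤ) : fv g3.natDegree g3 s t = s * (s - t) * (s - 2 * t) := by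
  rw [g3_deg]
  unfold fv g3
  simp only [sum_range_succ, sum_range_zero, coeff_add, coeff_sub, coeff_X_pow, coeff_C_mul,
    coeff_X]
  norm_num
  ring

theorem g3_sqf : Squarefree (g3.map (Int.castRingHom ℚ)) := by
  apply Separable.squarefree
  rw [separable_def]
  refine ⟨C (-9 / 2) * (X - C 1), C (-1) + C (3 / 2) * (X - C 1) ^ 2, ?_⟩
  apply Polynomial.funext
  intro r
  unfold g3
  simp
  ring

/-- the part of `x` prime to `30` -/
noncomputable def phi (x : ℤ) : ℝ :=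
  |(x : ℝ)| * (padicNorm 2 (x : ℚ) * (padicNorm 3 (x : ℚ) * padicNorm 5 (x : ℚ)) : ℚ)

theorem phi_two (x : ℤ) : phi (2 * x) = phi x := by
  haveI : Fact (Nat.Prime 2) := ⟨by norm_num⟩
  haveI : Fact (Nat.Prime 3) := ⟨by norm_num⟩
  haveI : Fact (Nat.Prime 5) := ⟨by norm_num⟩
  have h2 : padicNorm 2 (2 : ℚ) = (2 : ℚ)⁻¹ := by
    have := padicNorm.padicNorm_p_of_prime (p := 2)
    simpa using this
  have h3 : padicNorm 3 (2 : ℚ) = 1 := by
    have := padicNorm.padicNorm_of_prime_of_ne (p := 3) (q := 2) (by norm_num)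
    simpa using this
  have h5 : padicNorm 5 (2 : ℚ) = 1 := by
    have := padicNorm.padicNorm_of_prime_of_ne (p := 5) (q := 2) (by norm_num)
    simpa using this
  unfold phi
  push_cast
  rw [padicNorm.mul, padicNorm.mul, padicNorm.mul, h2, h3, h5, abs_mul]
  push_cast
  rw [abs_of_pos (by norm_num : (0 : ℝ) < 2)]
  ring

theorem phi_le {x : ℤ} {i j k : ℕ} (h2 : (2 : ℤ) ^ i ∣ x) (h3 : (3 : ℤ) ^ j ∣ x)
    (h5 : (5 : ℤ) ^ k ∣ x) : phi x * ((2 : ℝ) ^ i * 3 ^ j * 5 ^ k) ≤ |(x : ℝ)| := by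
  haveI : Fact (Nat.Prime 2) := ⟨by norm_num⟩
  haveI : Fact (Nat.Prime 3) := ⟨by norm_num⟩
  haveI : Fact (Nat.Prime 5) := ⟨by norm_num⟩
  have e2 : (padicNorm 2 (x : ℚ) : ℝ) ≤ ((2 : ℝ) ^ i)⁻¹ := by
    have := (padicNorm.dvd_iff_norm_le (p := 2) (n := i) (z := x)).1 (by exact_mod_cast h2)
    have h : ((padicNorm 2 (x : ℚ) : ℚ) : ℝ) ≤ (((2 : ℕ) : ℚ) ^ (-(i : ℤ)) : ℚ) := by
      exact_mod_cast this
    simpa [zpow_neg] using h
  have e3 : (padicNorm 3 (x : ℚ) : ℝ) ≤ ((3 : ℝ) ^ j)⁻¹ := by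
    have := (padicNorm.dvd_iff_norm_le (p := 3) (n := j) (z := x)).1 (by exact_mod_cast h3)
    have h : ((padicNorm 3 (x : ℚ) : ℚ) : ℝ) ≤ (((3 : ℕ) : ℚ) ^ (-(j : ℤ)) : ℚ) := by
      exact_mod_cast this
    simpa [zpow_neg] using h
  have e5 : (padicNorm 5 (x : ℚ) : ℝ) ≤ ((5 : ℝ) ^ k)⁻¹ := by
    have := (padicNorm.dvd_iff_norm_le (p := 5) (n := k) (z := x)).1 (by exact_mod_cast h5)
    have h : ((padicNorm 5 (x : ℚ) : ℚ) : ℝ) ≤ (((5 : ℕ) : ℚ) ^ (-(k : ℤ)) : ℚ) := by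
      exact_mod_cast this
    simpa [zpow_neg] using h
  have n2 : (0 : ℝ) ≤ (padicNorm 2 (x : ℚ) : ℝ) := by exact_mod_cast padicNorm.nonneg _
  have n3 : (0 : ℝ) ≤ (padicNorm 3 (x : ℚ) : ℝ) := by exact_mod_cast padicNorm.nonneg _
  have n5 : (0 : ℝ) ≤ (padicNorm 5 (x : ℚ) : ℝ) := by exact_mod_cast padicNorm.nonneg _
  unfold phi
  push_cast
  have h : (padicNorm 2 (x : ℚ) : ℝ) * ((padicNorm 3 (x : ℚ) : ℝ) * (padicNorm 5 (x : ℚ) : ℝ)) *
      ((2 : ℝ) ^ i * 3 ^ j * 5 ^ k) ≤ 1 := by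
    calc (padicNorm 2 (x : ℚ) : ℝ) * ((padicNorm 3 (x : ℚ) : ℝ) * (padicNorm 5 (x : ℚ) : ℝ)) *
          ((2 : ℝ) ^ i * 3 ^ j * 5 ^ k)
        ≤ ((2 : ℝ) ^ i)⁻¹ * (((3 : ℝ) ^ j)⁻¹ * ((5 : ℝ) ^ k)⁻¹) *
          ((2 : ℝ) ^ i * 3 ^ j * 5 ^ k) := by gcongr
      _ = 1 := by field_simp
  calc |(x : ℝ)| * ((padicNorm 2 (x : ℚ) : ℝ) * ((padicNorm 3 (x : ℚ) : ℝ) *
        (padicNorm 5 (x : ℚ) : ℝ))) * ((2 : ℝ) ^ i * 3 ^ j * 5 ^ k)
      = |(x : ℝ)| * ((padicNorm 2 (x : ℚ) : ℝ) * ((padicNorm 3 (x : ℚ) : ℝ) *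
        (padicNorm 5 (x : ℚ) : ℝ)) * ((2 : ℝ) ^ i * 3 ^ j * 5 ^ k)) := by ring
    _ ≤ |(x : ℝ)| * 1 := by gcongr
    _ = _ := mul_one _

/-- Ridout's theorem for `p q (q - p)` -/
theorem rid3 (ε : ℝ) (hε : 0 < ε) (hε1 : ε ≤ 1) : ∃ c : ℝ, 0 < c ∧ ∀ p q : ℤ, IsCoprime p q →
    p ≠ 0 → q ≠ 0 → q - p ≠ 0 → ∀ i j k : ℕ, (2 : ℤ) ^ i ∣ q → (3 : ℤ) ^ j ∣ p →
      (5 : ℤ) ^ k ∣ q - p →
      c * (max |(p : ℝ)| |(q : ℝ)|) ^ (1 - ε) * ((2 : ℝ) ^ i * 3 ^ j * 5 ^ k) ≤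
        |((p * q * (q - p) : ℤ) : ℝ)| := by
  obtain ⟨c, hc, h⟩ := rid_form' g3 g3_sqf (by rw [g3_deg]; norm_num) {2, 3, 5}
    (by decide) ε hε
  refine ⟨c * (1 / 4 : ℝ) ^ (1 - ε), by positivity, ?_⟩
  intro p q hpq hp hq hqp i j k h2 h3 h5
  have key : ∀ s t : ℤ, IsCoprime s t → s * (s - t) * (s - 2 * t) ≠ 0 →
      c * (max |(s : ℝ)| |(t : ℝ)|) ^ (1 - ε) ≤ phi (s * (s - t) * (s - 2 * t)) := by
    intro s t hst hne
    have h1 := h s t hst (by rw [g3_fv]; exact hne)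
    rw [g3_fv, g3_deg] at h1
    have e : ((3 : ℕ) : ℝ) - 2 - ε = 1 - ε := by norm_num
    rw [e] at h1
    refine h1.trans (le_of_eq ?_)
    unfold phi
    rw [prod_insert (by decide), prod_insert (by decide), prod_singleton]
    push_cast
    ring
  have hF2 : (2 : ℤ) ^ i ∣ p * q * (q - p) := (h2.mul_left p).mul_right _
  have hF3 : (3 : ℤ) ^ j ∣ p * q * (q - p) := (h3.mul_right q).mul_right _
  have hF5 : (5 : ℤ) ^ k ∣ p * q * (q - p) := h5.mul_left _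
  have hfin := phi_le hF2 hF3 hF5
  have hM : (0 : ℝ) ≤ (2 : ℝ) ^ i * 3 ^ j * 5 ^ k := by positivity
  have hmain : c * (1 / 4 : ℝ) ^ (1 - ε) * (max |(p : ℝ)| |(q : ℝ)|) ^ (1 - ε) ≤
      phi (p * q * (q - p)) := by
    have h0 : (0 : ℝ) ≤ max |(p : ℝ)| |(q : ℝ)| := le_max_of_le_left (abs_nonneg _)
    rw [mul_assoc, ← Real.mul_rpow (by norm_num) h0]
    rcases Int.even_or_odd q with ⟨r, hr⟩ | hodd
    · -- `q = 2 r`
      have hr' : q = 2 * r := by omega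
      have hpr : IsCoprime p r := by
        rw [hr'] at hpq
        exact hpq.of_mul_right_right
      have hco : IsCoprime p (p - r) := by
        have : IsCoprime p (-r + p * 1) := hpr.neg_right.add_mul_left_right 1
        rwa [show -r + p * 1 = p - r by ring] at this
      have e1 : p * (p - (p - r)) * (p - 2 * (p - r)) = p * r * (2 * r - p) := by ring
      have hr0 : r ≠ 0 := by rintro rfl; simp at hr'; exact hq hr'
      have hne : p * (p - (p - r)) * (p - 2 * (p - r)) ≠ 0 := by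
        rw [e1]
        refine mul_ne_zero (mul_ne_zero hp hr0) ?_
        rwa [hr'] at hqp
      have h6 := key p (p - r) hco hne
      rw [e1] at h6
      have e2 : phi (p * r * (2 * r - p)) = phi (p * q * (q - p)) := by
        rw [← phi_two, hr']
        congr 1
        ring
      rw [e2] at h6
      refine le_trans ?_ h6
      apply mul_le_mul_of_nonneg_left _ hc.le
      apply Real.rpow_le_rpow (by positivity) _ (by linarith)
      have a1 : |(p : ℝ)| ≤ max |(p : ℝ)| |((p - r : ℤ) : ℝ)| := le_max_left _ _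
      have a2 : |((p - r : ℤ) : ℝ)| ≤ max |(p : ℝ)| |((p - r : ℤ) : ℝ)| := le_max_right _ _
      have a3 : |(q : ℝ)| ≤ 2 * (|(p : ℝ)| + |((p - r : ℤ) : ℝ)|) := by
        rw [hr']
        push_cast
        have : (2 : ℝ) * r = 2 * (p - (p - r)) := by ring
        rw [this, abs_mul, abs_of_pos (by norm_num : (0 : ℝ) < 2)]
        have := abs_sub (p : ℝ) (p - r)
        linarith
      have a4 := abs_nonneg (p : ℝ)
      have a5 := abs_nonneg ((p - r : ℤ) : ℝ)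
      have a6 : max |(p : ℝ)| |(q : ℝ)| ≤ 4 * max |(p : ℝ)| |((p - r : ℤ) : ℝ)| :=
        max_le (by linarith) (by linarith)
      linarith
    · have hq2 : IsCoprime (2 : ℤ) q := by
        obtain ⟨r, hr⟩ := hodd
        exact ⟨-r, 1, by rw [hr]; ring⟩
      have hco0 : IsCoprime (2 * p) q := hq2.mul_left hpq
      have hco : IsCoprime (2 * p) (2 * p - q) := by
        have : IsCoprime (2 * p) (-q + 2 * p * 1) := hco0.neg_right.add_mul_left_right 1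
        rwa [show -q + 2 * p * 1 = 2 * p - q by ring] at this
      have e1 : 2 * p * (2 * p - (2 * p - q)) * (2 * p - 2 * (2 * p - q)) =
          2 * (2 * (p * q * (q - p))) := by ring
      have hne : 2 * p * (2 * p - (2 * p - q)) * (2 * p - 2 * (2 * p - q)) ≠ 0 := by
        rw [e1]
        refine mul_ne_zero two_ne_zero (mul_ne_zero two_ne_zero ?_)
        exact mul_ne_zero (mul_ne_zero hp hq) hqp
      have h6 := key (2 * p) (2 * p - q) hco hne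
      rw [e1, phi_two, phi_two] at h6
      refine le_trans ?_ h6
      apply mul_le_mul_of_nonneg_left _ hc.le
      apply Real.rpow_le_rpow (by positivity) _ (by linarith)
      have a1 : |((2 * p : ℤ) : ℝ)| ≤ max |((2 * p : ℤ) : ℝ)| |((2 * p - q : ℤ) : ℝ)| :=
        le_max_left _ _
      have a2 : |((2 * p - q : ℤ) : ℝ)| ≤ max |((2 * p : ℤ) : ℝ)| |((2 * p - q : ℤ) : ℝ)| :=
        le_max_right _ _
      have a3 : |((2 * p : ℤ) : ℝ)| = 2 * |(p : ℝ)| := by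
        push_cast
        rw [abs_mul, abs_of_pos (by norm_num : (0 : ℝ) < 2)]
      have a4 : |(q : ℝ)| ≤ |((2 * p : ℤ) : ℝ)| + |((2 * p - q : ℤ) : ℝ)| := by
        have : (q : ℝ) = ((2 * p : ℤ) : ℝ) - ((2 * p - q : ℤ) : ℝ) := by push_cast; ring
        rw [this]
        exact abs_sub _ _
      have a5 := abs_nonneg (p : ℝ)
      have a6 := abs_nonneg ((2 * p - q : ℤ) : ℝ)
      have a7 : max |(p : ℝ)| |(q : ℝ)| ≤
          4 * max |((2 * p : ℤ) : ℝ)| |((2 * p - q : ℤ) : ℝ)| :=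
        max_le (by linarith) (by linarith)
      linarith
  calc c * (1 / 4 : ℝ) ^ (1 - ε) * (max |(p : ℝ)| |(q : ℝ)|) ^ (1 - ε) *
        ((2 : ℝ) ^ i * 3 ^ j * 5 ^ k)
      ≤ phi (p * q * (q - p)) * ((2 : ℝ) ^ i * 3 ^ j * 5 ^ k) := by gcongr
    _ ≤ _ := hfin

end Pool.Agent.H34x.MA
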