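import Pool.Agent.H34x.MA.Lat

/-!
# One scale: Dirichlet's theorem for the lattices, and the measure of the bad set
-/

set_option autoImplicit false

namespace Pool.Agent.H34x.MA

open MeasureTheory Finset

/-- the index of the lattice -/
def MM (i j k : ℕ) : ℕ := 2 ^ i * 3 ^ j * 5 ^ k

theorem MM_pos (i j k : ℕ) : 0 < MM i j k := by unfold MM; positivity

theorem MM_cast (i j k : ℕ) : (MM i j k : ℝ) = 2 ^ i * 3 ^ j * 5 ^ k := by
  unfold MM; push_cast; ring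

/-- the quality of Dirichlet's theorem -/
noncomputable def dl (i j k m : ℕ) : ℝ := (MM i j k : ℝ) / 2 ^ m

theorem dl_pos (i j k m : ℕ) : 0 < dl i j k m := by
  have := MM_pos i j k
  unfold dl
  positivity

/-- Dirichlet's theorem for the lattice -/
theorem dirich (i j k m : ℕ) (him : i ≤ m) (ξ : ℝ) : ∃ p q : ℤ, 0 < q ∧ q ≤ 2 ^ m ∧
    (2 : ℤ) ^ i ∣ q ∧ (3 : ℤ) ^ j ∣ p ∧ (5 : ℤ) ^ k ∣ q - p ∧
    |(q : ℝ) * ξ - p| ≤ dl i j k m := by
  have hco : IsCoprime ((3 : ℤ) ^ j) ((5 : ℤ) ^ k) := by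
    apply IsCoprime.pow
    norm_num
  obtain ⟨a, b, hab⟩ := hco
  -- `r = a 3 ^ j`
  set r : ℤ := a * 3 ^ j with hr
  have hr5 : (5 : ℤ) ^ k ∣ 1 - r := ⟨b, by rw [hr]; linear_combination -hab⟩
  have hr3 : (3 : ℤ) ^ j ∣ r := ⟨a, by rw [hr]; ring⟩
  set N : ℕ := 2 ^ (m - i) with hN
  have hN0 : 0 < N := by positivity
  set B : ℝ := 3 ^ j * 5 ^ k with hB
  have hB0 : 0 < B := by positivity
  obtain ⟨t, d, hd0, hdN, hdt⟩ := Real.exists_int_int_abs_mul_sub_le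
    ((2 : ℝ) ^ i * (ξ - r) / B) hN0
  refine ⟨2 ^ i * d * r + 3 ^ j * 5 ^ k * t, 2 ^ i * d, by positivity, ?_,
    ⟨d, rfl⟩, ?_, ?_, ?_⟩
  · calc (2 : ℤ) ^ i * d ≤ 2 ^ i * N := by gcongr
      _ = 2 ^ m := by
          rw [hN]; push_cast; rw [← pow_add]; congr 1; omega
  · refine dvd_add (hr3.mul_left _) ?_
    exact ⟨5 ^ k * t, by ring⟩
  · obtain ⟨y, hy⟩ := hr5
    refine ⟨2 ^ i * d * y - 3 ^ j * t, ?_⟩
    linear_combination (2 ^ i * d) * hy
  · have e : ((2 ^ i * d : ℤ) : ℝ) * ξ - ((2 ^ i * d * r + 3 ^ j * 5 ^ k * t : ℤ) : ℝ) =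
        B * (d * ((2 : ℝ) ^ i * (ξ - r) / B) - t) := by
      push_cast
      rw [hB]
      field_simp
      ring
    rw [e, abs_mul, abs_of_pos hB0]
    have hNr : (0 : ℝ) < N := by exact_mod_cast hN0
    have h1 : (1 : ℝ) / (N + 1) ≤ 2 ^ i / 2 ^ m := by
      have h2 : (2 : ℝ) ^ i / 2 ^ m = 1 / N := by
        rw [hN]
        push_cast
        rw [div_eq_div_iff (by positivity) (by positivity), one_mul, ← pow_add]
        congr 1
        omega
      rw [h2]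
      apply one_div_le_one_div_of_le hNr
      linarith
    calc B * |(d : ℝ) * ((2 : ℝ) ^ i * (ξ - r) / B) - t| ≤ B * (2 ^ i / 2 ^ m) := by
          apply mul_le_mul_of_nonneg_left (hdt.trans h1) hB0.le
      _ = dl i j k m := by
          unfold dl
          rw [MM_cast, hB]
          ring

/-- the reduced fractions of the lattice in a dyadic block -/
def FF (a b c K : ℕ) : Finset (ℕ × ℕ) :=
  (range (2 ^ (K + 1)) ×ˢ range (2 ^ (K + 1))).filter fun t =>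
    0 < t.1 ∧ t.1 < t.2 ∧ Nat.Coprime t.1 t.2 ∧ 2 ^ a ∣ t.2 ∧ 3 ^ b ∣ t.1 ∧ 5 ^ c ∣ t.2 - t.1 ∧
      2 ^ K ≤ t.2

theorem mem_FF {a b c K p q : ℕ} : (p, q) ∈ FF a b c K ↔ 0 < p ∧ p < q ∧ Nat.Coprime p q ∧
    2 ^ a ∣ q ∧ 3 ^ b ∣ p ∧ 5 ^ c ∣ q - p ∧ 2 ^ K ≤ q ∧ q < 2 ^ (K + 1) := by
  unfold FF
  simp only [mem_filter, mem_product, mem_range]
  constructor
  · rintro ⟨⟨h1, h2⟩, h3, h4, h5, h6, h7, h8, h9⟩
    exact ⟨h3, h4, h5, h6, h7, h8, h9, h2⟩
  · rintro ⟨h3, h4, h5, h6, h7, h8, h9, h2⟩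
    exact ⟨⟨by omega, h2⟩, h3, h4, h5, h6, h7, h8, h9⟩

/-- the determinant is divisible by the index -/
theorem det_dvd {a b c : ℕ} {p q p' q' : ℕ} (hpq : p < q) (hpq' : p' < q') (h2 : 2 ^ a ∣ q)
    (h2' : 2 ^ a ∣ q') (h3 : 3 ^ b ∣ p) (h3' : 3 ^ b ∣ p') (h5 : 5 ^ c ∣ q - p)
    (h5' : 5 ^ c ∣ q' - p') : ((MM a b c : ℕ) : ℤ) ∣ (p : ℤ) * q' - p' * q := by
  have e2 : ((2 ^ a : ℕ) : ℤ) ∣ (p : ℤ) * q' - p' * q :=
    dvd_sub (Dvd.dvd.mul_left (by exact_mod_cast h2') _) (Dvd.dvd.mul_left (by exact_mod_cast h2) _)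
  have e3 : ((3 ^ b : ℕ) : ℤ) ∣ (p : ℤ) * q' - p' * q :=
    dvd_sub (Dvd.dvd.mul_right (by exact_mod_cast h3) _)
      (Dvd.dvd.mul_right (by exact_mod_cast h3') _)
  have e5 : ((5 ^ c : ℕ) : ℤ) ∣ (p : ℤ) * q' - p' * q := by
    have f1 : ((5 ^ c : ℕ) : ℤ) ∣ (q : ℤ) - p := by
      have := (Int.natCast_dvd_natCast.2 h5)
      rwa [Nat.cast_sub hpq.le] at this
    have f2 : ((5 ^ c : ℕ) : ℤ) ∣ (q' : ℤ) - p' := by
      have := (Int.natCast_dvd_natCast.2 h5')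
      rwa [Nat.cast_sub hpq'.le] at this
    have : (p : ℤ) * q' - p' * q = p * ((q' : ℤ) - p') - p' * (q - p) := by ring
    rw [this]
    exact dvd_sub (f2.mul_left _) (f1.mul_left _)
  rw [Int.natCast_dvd] at e2 e3 e5 ⊢
  exact mul_three_dvd e2 e3 e5

theorem coprime_frac {p q p' q' : ℕ} (hq : 0 < q) (hco : Nat.Coprime p q)
    (hco' : Nat.Coprime p' q') (hq' : 0 < q') (h : (p : ℤ) * q' - p' * q = 0) :
    p = p' ∧ q = q' := by
  have h1 : p * q' = p' * q := by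
    have : (p : ℤ) * q' = p' * q := by linarith
    exact_mod_cast this
  have h2 : q ∣ q' := (hco.symm).dvd_of_dvd_mul_left (by rw [h1]; exact Dvd.intro_left _ rfl)
  have h3 : q' ∣ q := (hco'.symm).dvd_of_dvd_mul_left (by rw [← h1]; exact Dvd.intro_left _ rfl)
  have h4 : q = q' := Nat.dvd_antisymm h2 h3
  subst h4
  exact ⟨Nat.eq_of_mul_eq_mul_right hq h1, rfl⟩

theorem card_FF (a b c K : ℕ) : ((FF a b c K).card : ℝ) ≤ 4 ^ (K + 1) / MM a b c + 1 := by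
  have hM : (0 : ℝ) < MM a b c := by exact_mod_cast MM_pos a b c
  set L : ℝ := 4 ^ (K + 1) / MM a b c with hL
  have hL0 : 0 < L := by positivity
  have hmaps : Set.MapsTo (fun t : ℕ × ℕ => ⌊(t.1 : ℝ) / t.2 * L⌋₊) (FF a b c K : Set (ℕ × ℕ))
      (range (⌊L⌋₊ + 1) : Set ℕ) := by
    rintro ⟨p, q⟩ h
    rw [Finset.mem_coe, mem_FF] at h
    rw [Finset.mem_coe, mem_range]
    apply Nat.lt_succ_of_le
    apply Nat.floor_le_floor
    have hq : (0 : ℝ) < q := by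
      have : 0 < q := by omega
      exact_mod_cast this
    have : (p : ℝ) / q ≤ 1 := by
      rw [div_le_one hq]
      exact_mod_cast h.2.1.le
    calc (p : ℝ) / q * L ≤ 1 * L := by gcongr
      _ = L := one_mul _
  have hinj : Set.InjOn (fun t : ℕ × ℕ => ⌊(t.1 : ℝ) / t.2 * L⌋₊) (FF a b c K : Set (ℕ × ℕ)) := by
    rintro ⟨p, q⟩ h ⟨p', q'⟩ h' heq
    rw [Finset.mem_coe, mem_FF] at h h'
    simp only at heq
    by_contra hne
    obtain ⟨h1, h2, h3, h4, h5, h6, h7, h8⟩ := h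
    obtain ⟨h1', h2', h3', h4', h5', h6', h7', h8'⟩ := h'
    have hd := det_dvd h2 h2' h4 h4' h5 h5' h6 h6'
    have hd0 : (p : ℤ) * q' - p' * q ≠ 0 := by
      intro h0
      obtain ⟨e1, e2⟩ := coprime_frac (by omega) h3 h3' (by omega) h0
      exact hne (by rw [e1, e2])
    have hle : (MM a b c : ℤ) ≤ |(p : ℤ) * q' - p' * q| := by
      apply Int.le_of_dvd (abs_pos.2 hd0)
      rwa [dvd_abs]
    have hleR : (MM a b c : ℝ) ≤ |(p : ℝ) * q' - p' * q| := by exact_mod_cast hle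
    have hq : (0 : ℝ) < q := by
      have : 0 < q := by omega
      exact_mod_cast this
    have hq' : (0 : ℝ) < q' := by
      have : 0 < q' := by omega
      exact_mod_cast this
    have hqK : (q : ℝ) < 2 ^ (K + 1) := by exact_mod_cast h8
    have hqK' : (q' : ℝ) < 2 ^ (K + 1) := by exact_mod_cast h8'
    have hdist : |(p : ℝ) / q * L - (p' : ℝ) / q' * L| < 1 := by
      have ha := Nat.floor_le (show 0 ≤ (p : ℝ) / q * L by positivity)
      have hb := Nat.lt_floor_add_one ((p : ℝ) / q * L)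
      have ha' := Nat.floor_le (show 0 ≤ (p' : ℝ) / q' * L by positivity)
      have hb' := Nat.lt_floor_add_one ((p' : ℝ) / q' * L)
      rw [heq] at ha hb
      rw [abs_lt]
      constructor <;> linarith
    have h9 : (p : ℝ) / q * L - (p' : ℝ) / q' * L = ((p : ℝ) * q' - p' * q) / (q * q') * L := by
      field_simp
    rw [h9, abs_mul, abs_div, abs_of_pos hL0, abs_of_pos (mul_pos hq hq')] at hdist
    have h10 : (1 : ℝ) < |(p : ℝ) * q' - p' * q| / (q * q') * L := by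
      have h11 : (q : ℝ) * q' < 4 ^ (K + 1) := by
        calc (q : ℝ) * q' < 2 ^ (K + 1) * 2 ^ (K + 1) := by
              apply mul_lt_mul'' hqK hqK' hq.le hq'.le
          _ = 4 ^ (K + 1) := by rw [← mul_pow]; norm_num
      have h12 : (MM a b c : ℝ) / (q * q') * L ≤ |(p : ℝ) * q' - p' * q| / (q * q') * L := by
        gcongr
      refine lt_of_lt_of_le ?_ h12
      rw [hL, div_mul_div_comm, lt_div_iff₀ (by positivity), one_mul]
      calc (q : ℝ) * q' * MM a b c < 4 ^ (K + 1) * MM a b c := by gcongr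
        _ = MM a b c * 4 ^ (K + 1) := by ring
    linarith
  have h1 := Finset.card_le_card_of_injOn _ hmaps hinj
  rw [card_range] at h1
  have h2 : ((FF a b c K).card : ℝ) ≤ ((⌊L⌋₊ + 1 : ℕ) : ℝ) := by exact_mod_cast h1
  push_cast at h2
  have h3 : (⌊L⌋₊ : ℝ) ≤ L := Nat.floor_le hL0.le
  linarith

end Pool.Agent.H34x.MA
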