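import Pool.Agent.H34x.MA.Dim
import Pool.Agent.Results.MP_7aad9f_nt.ApproximatingFractions

/-!
# The exponents of the radicals near almost every number
-/

set_option autoImplicit false

namespace Pool.Agent.H34x.MA

open MeasureTheory Finset Filter Topology
open Pool.Agent.H785R2.ABC (rad)
open Pool.Agent.R479.DA (rad_mul_le rad_le_self)

/-- `(x, y, z)` is a limit point of the exponents of the radicals of `p`, `q - p`, `q` for the
fractions `p / q` with `|ξ - p / q| ≤ q ^ (-τ)` -/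
def LimPt (ξ τ x y z : ℝ) : Prop := ∀ ε : ℝ, 0 < ε → {t : ℕ × ℕ | 0 < t.1 ∧ t.1 < t.2 ∧
  Nat.Coprime t.1 t.2 ∧ |ξ - (t.1 : ℝ) / t.2| ≤ (t.2 : ℝ) ^ (-τ) ∧
  |Real.log (rad t.1) / Real.log t.2 - x| < ε ∧
  |Real.log (rad (t.2 - t.1)) / Real.log t.2 - y| < ε ∧
  |Real.log (rad t.2) / Real.log t.2 - z| < ε}.Infinite

theorem rad_posR (n : ℕ) : (0 : ℝ) < rad n := by
  exact_mod_cast Pool.Agent.R479.DA.rad_pos' n

theorem rad3_le (p q : ℕ) : (rad (p * q * (q - p)) : ℝ) ≤ rad p * rad (q - p) * rad q := by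
  have h8 : rad (p * q * (q - p)) ≤ rad p * rad q * rad (q - p) :=
    (rad_mul_le _ _).trans (Nat.mul_le_mul_right _ (rad_mul_le _ _))
  have h9 : (rad (p * q * (q - p)) : ℝ) ≤ rad p * rad q * rad (q - p) := by exact_mod_cast h8
  linarith

theorem log_rad_le {n q : ℕ} (hn : 0 < n) (hnq : n ≤ q) : Real.log (rad n) ≤ Real.log q := by
  apply Real.log_le_log (rad_posR n)
  have : rad n ≤ q := (rad_le_self hn).trans hnq
  exact_mod_cast this

/-- an exponent close to `x` from above -/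
theorem exists_exp {x ε : ℝ} (hx : x ≤ 1) (hε : 0 < ε) : ∃ a : ℚ, x ≤ a ∧ (a : ℝ) ≤ 1 ∧
    (a : ℝ) ≤ x + ε ∧ (x < a ∨ (x = 1 ∧ (a : ℝ) = 1)) := by
  rcases hx.lt_or_eq with h | h
  · obtain ⟨a, ha1, ha2⟩ := exists_rat_btwn (show x < min 1 (x + ε) from lt_min h (by linarith))
    exact ⟨a, ha1.le, (ha2.trans_le (min_le_left _ _)).le, (ha2.trans_le (min_le_right _ _)).le,
      Or.inl ha1⟩
  · exact ⟨1, by simp [h], by simp, by rw [h]; push_cast; linarith, Or.inr ⟨h, by simp⟩⟩

/-- **The exponents of the radicals near almost every number.** -/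
theorem spec : ∀ᵐ ξ ∂(volume : Measure ℝ), ξ ∈ Set.Ioo (0 : ℝ) 1 → ∀ τ : ℝ, 1 < τ → τ < 2 →
    ∀ x y z : ℝ, LimPt ξ τ x y z ↔ (x ≤ 1 ∧ y ≤ 1 ∧ z ≤ 1 ∧ 1 + τ ≤ x + y + z) := by
  -- the two almost sure properties
  have hA : ∀ᵐ ξ ∂(volume : Measure ℝ), ∀ r : ℚ, 1 < (r : ℝ) → ∀ lam : ℝ, lam < 1 + r →
      ∀ B : ℝ, (Pool.Agent.Results.MP_7aad9f_nt.ApproximatingFractions.Exceptions
        (r : ℝ) lam B ξ).Finite := by
    rw [ae_all_iff]
    intro r
    by_cases hr : 1 < (r : ℝ)
    · filter_upwards [Pool.Agent.Results.MP_7aad9f_nt.ApproximatingFractions.part_two (r : ℝ) hr]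
        with ξ hξ _ lam hlam B
      exact hξ lam hlam B
    · exact Filter.Eventually.of_forall fun ξ h => absurd h hr
  have hB : ∀ᵐ ξ ∂(volume : Measure ℝ), ξ ∈ Set.Ioo (0 : ℝ) 1 → ∀ a b c t : ℚ, 0 < (a : ℝ) →
      0 < (b : ℝ) → 0 < (c : ℝ) → (a : ℝ) ≤ 1 → (b : ℝ) ≤ 1 → (c : ℝ) ≤ 1 →
      1 < (a : ℝ) + b + c → (t : ℝ) < (a : ℝ) + b + c - 1 → ξ ∈ WP (Ap a b c) t := by
    have h0 : ∀ᵐ ξ ∂(volume : Measure ℝ), ∀ w : ℚ × ℚ × ℚ × ℚ, ξ ∈ Set.Ioo (0 : ℝ) 1 →
        0 < (w.1 : ℝ) → 0 < (w.2.1 : ℝ) → 0 < (w.2.2.1 : ℝ) → (w.1 : ℝ) ≤ 1 →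
        (w.2.1 : ℝ) ≤ 1 → (w.2.2.1 : ℝ) ≤ 1 → 1 < (w.1 : ℝ) + w.2.1 + w.2.2.1 →
        (w.2.2.2 : ℝ) < (w.1 : ℝ) + w.2.1 + w.2.2.1 - 1 →
        ξ ∈ WP (Ap w.1 w.2.1 w.2.2.1) w.2.2.2 := by
      rw [ae_all_iff]
      rintro ⟨a, b, c, t⟩
      simp only
      by_cases h : 0 < (a : ℝ) ∧ 0 < (b : ℝ) ∧ 0 < (c : ℝ) ∧ (a : ℝ) ≤ 1 ∧ (b : ℝ) ≤ 1 ∧
        (c : ℝ) ≤ 1 ∧ 1 < (a : ℝ) + b + c ∧ (t : ℝ) < (a : ℝ) + b + c - 1
      · obtain ⟨h1, h2, h3, h4, h5, h6, h7, h8⟩ := h
        filter_upwards [ae_ap h1 h2 h3 h4 h5 h6 h7 h8] with ξ hξ h01 _ _ _ _ _ _ _ _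
        apply mem_WP_of_frequently
        exact (hξ h01).mono fun q ⟨p, hp, hd⟩ => ⟨p, hp, hd.le⟩
      · exact Filter.Eventually.of_forall fun ξ _ h1 h2 h3 h4 h5 h6 h7 h8 =>
          absurd ⟨h1, h2, h3, h4, h5, h6, h7, h8⟩ h
    filter_upwards [h0] with ξ hξ h01 a b c t
    exact hξ (a, b, c, t) h01
  filter_upwards [hA, hB] with ξ hξA hξB h01 τ hτ1 hτ2 x y z
  constructor
  · -- limit points have large sums
    intro hlim
    -- each exponent is at most one
    have hone : ∀ t : ℕ × ℕ, 0 < t.1 → t.1 < t.2 → 0 < Real.log t.2 := by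
      intro t h1 h2
      apply Real.log_pos
      have : 1 < t.2 := by omega
      exact_mod_cast this
    have hle : x ≤ 1 ∧ y ≤ 1 ∧ z ≤ 1 := by
      refine ⟨?_, ?_, ?_⟩ <;>
      · apply le_of_forall_pos_le_add
        intro ε hε
        obtain ⟨t, t1, t2, t3, t4, t5, t6, t7⟩ := (hlim ε hε).nonempty
        have hlog := hone t t1 t2
        have r1 : Real.log (rad t.1) / Real.log t.2 ≤ 1 := by
          rw [div_le_one hlog]; exact log_rad_le t1 t2.le
        have r2 : Real.log (rad (t.2 - t.1)) / Real.log t.2 ≤ 1 := by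
          rw [div_le_one hlog]; exact log_rad_le (by omega) (by omega)
        have r3 : Real.log (rad t.2) / Real.log t.2 ≤ 1 := by
          rw [div_le_one hlog]; exact log_rad_le (by omega) le_rfl
        have s1 := abs_lt.1 t5
        have s2 := abs_lt.1 t6
        have s3 := abs_lt.1 t7
        linarith [s1.1, s2.1, s3.1]
    refine ⟨hle.1, hle.2.1, hle.2.2, ?_⟩
    by_contra hcon
    push Not at hcon
    obtain ⟨r, hr1, hr2⟩ := exists_rat_btwn (show max 1 (x + y + z - 1) < τ from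
      max_lt hτ1 (by linarith))
    have hr3 : 1 < (r : ℝ) := (le_max_left _ _).trans_lt hr1
    have hr4 : x + y + z - 1 < (r : ℝ) := (le_max_right _ _).trans_lt hr1
    set lam : ℝ := (x + y + z + 1 + r) / 2 with hlam
    have hlam1 : lam < 1 + r := by rw [hlam]; linarith
    set ε : ℝ := (lam - (x + y + z)) / 3 with hε
    have hε0 : 0 < ε := by rw [hε, hlam]; linarith
    apply hlim ε hε0
    refine (hξA r hr3 lam hlam1 1).subset ?_
    rintro ⟨p, q⟩ ⟨t1, t2, t3, t4, t5, t6, t7⟩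
    simp only at t1 t2 t3 t4 t5 t6 t7
    have hlog : 0 < Real.log q := hone (p, q) t1 t2
    have hq1 : (1 : ℝ) ≤ q := by
      have : 1 ≤ q := by omega
      exact_mod_cast this
    have hq0 : (0 : ℝ) < q := by linarith
    refine ⟨t1, t2, t3, t4.trans ?_, ?_⟩
    · exact Real.rpow_le_rpow_of_exponent_le hq1 (by linarith)
    · simp only
      have s1 := (abs_lt.1 t5).2
      have s2 := (abs_lt.1 t6).2
      have s3 := (abs_lt.1 t7).2
      have u1 : Real.log (rad p) < (x + ε) * Real.log q := by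
        rw [← div_lt_iff₀ hlog]; linarith
      have u2 : Real.log (rad (q - p)) < (y + ε) * Real.log q := by
        rw [← div_lt_iff₀ hlog]; linarith
      have u3 : Real.log (rad q) < (z + ε) * Real.log q := by
        rw [← div_lt_iff₀ hlog]; linarith
      have hp := rad_posR p
      have hqp := rad_posR (q - p)
      have hqq := rad_posR q
      have u4 : Real.log ((rad p : ℝ) * rad (q - p) * rad q) ≤ lam * Real.log q := by
        rw [Real.log_mul (by positivity) (by positivity), Real.log_mul (by positivity)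
          (by positivity)]
        have e : lam = (x + ε) + (y + ε) + (z + ε) := by rw [hε]; ring
        rw [e]
        linarith
      have u5 : (rad p : ℝ) * rad (q - p) * rad q ≤ (q : ℝ) ^ lam := by
        rw [Real.rpow_def_of_pos hq0, mul_comm (Real.log (q : ℝ)) lam]
        rw [← Real.exp_log (show (0 : ℝ) < (rad p : ℝ) * rad (q - p) * rad q by positivity)]
        exact Real.exp_le_exp.2 u4
      have u6 := rad3_le p q
      have u7 : Pool.Agent.Results.MP_7aad9f_nt.ApproximatingFractions.R (p * (q - p) * q) =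
          rad (p * q * (q - p)) := by
        rw [show p * (q - p) * q = p * q * (q - p) by ring]
        rfl
      rw [u7, one_mul]
      exact u6.trans u5
  · -- every point of the simplex is a limit point
    rintro ⟨hx, hy, hz, hsum⟩ ε hε
    set δ : ℝ := ε / 4 with hδ
    have hδ0 : 0 < δ := by positivity
    obtain ⟨a, a1, a2, a3, a4⟩ := exists_exp hx hδ0
    obtain ⟨b, b1, b2, b3, b4⟩ := exists_exp hy hδ0
    obtain ⟨c, c1, c2, c3, c4⟩ := exists_exp hz hδ0
    have hS : 1 + τ < (a : ℝ) + b + c := by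
      rcases a4 with a4 | ⟨a4, a5⟩
      · linarith
      · rcases b4 with b4 | ⟨b4, b5⟩
        · linarith
        · rcases c4 with c4 | ⟨c4, c5⟩
          · linarith
          · linarith
    have ha0 : 0 < (a : ℝ) := by linarith
    have hb0 : 0 < (b : ℝ) := by linarith
    have hc0 : 0 < (c : ℝ) := by linarith
    obtain ⟨t, ht1, ht2⟩ := exists_rat_btwn (show max τ ((a : ℝ) + b + c - 1 - δ) <
      (a : ℝ) + b + c - 1 from max_lt (by linarith) (by linarith))
    have ht3 : τ < (t : ℝ) := (le_max_left _ _).trans_lt ht1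
    have ht4 : (a : ℝ) + b + c - 1 - δ < t := (le_max_right _ _).trans_lt ht1
    have hinf : ξ ∈ WP (Ap a b c) t := hξB h01 a b c t ha0 hb0 hc0 a2 b2 c2 (by linarith) ht2
    have hfin := hξA t (by linarith) (1 + t - δ) (by linarith) 1
    have hdiff := Set.Infinite.diff hinf hfin
    refine hdiff.mono ?_
    rintro ⟨p, q⟩ ⟨⟨⟨h1, h2, h3, h4, h5, h6⟩, h7⟩, h8⟩
    simp only at h1 h2 h3 h4 h5 h6 h7
    have hlog : 0 < Real.log q := by
      apply Real.log_pos
      have : 1 < q := by omega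
      exact_mod_cast this
    have hq1 : (1 : ℝ) ≤ q := by
      have : 1 ≤ q := by omega
      exact_mod_cast this
    have hq0 : (0 : ℝ) < q := by linarith
    have hbig : (q : ℝ) ^ (1 + (t : ℝ) - δ) < rad p * rad (q - p) * rad q := by
      by_contra hcon
      push Not at hcon
      apply h8
      refine ⟨h1, h2, h3, h7, ?_⟩
      simp only
      have u7 : Pool.Agent.Results.MP_7aad9f_nt.ApproximatingFractions.R (p * (q - p) * q) =
          rad (p * q * (q - p)) := by
        rw [show p * (q - p) * q = p * q * (q - p) by ring]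
        rfl
      rw [u7, one_mul]
      exact (rad3_le p q).trans hcon
    have hp := rad_posR p
    have hqp := rad_posR (q - p)
    have hqq := rad_posR q
    have v1 : Real.log (rad p) ≤ a * Real.log q := by
      have := Real.log_le_log hp h4
      rwa [Real.log_rpow hq0] at this
    have v2 : Real.log (rad (q - p)) ≤ b * Real.log q := by
      have := Real.log_le_log hqp h5
      rwa [Real.log_rpow hq0] at this
    have v3 : Real.log (rad q) ≤ c * Real.log q := by
      have := Real.log_le_log hqq h6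
      rwa [Real.log_rpow hq0] at this
    have v4 : (1 + (t : ℝ) - δ) * Real.log q <
        Real.log (rad p) + Real.log (rad (q - p)) + Real.log (rad q) := by
      have := Real.log_lt_log (by positivity) hbig
      rwa [Real.log_rpow hq0, Real.log_mul (by positivity) (by positivity),
        Real.log_mul (by positivity) (by positivity)] at this
    have w1 : Real.log (rad p) / Real.log q ≤ a := by rwa [div_le_iff₀ hlog]
    have w2 : Real.log (rad (q - p)) / Real.log q ≤ b := by rwa [div_le_iff₀ hlog]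
    have w3 : Real.log (rad q) / Real.log q ≤ c := by rwa [div_le_iff₀ hlog]
    have w4 : 1 + (t : ℝ) - δ < Real.log (rad p) / Real.log q +
        Real.log (rad (q - p)) / Real.log q + Real.log (rad q) / Real.log q := by
      rw [← add_div, ← add_div, lt_div_iff₀ hlog]
      exact v4
    refine ⟨h1, h2, h3, h7.trans ?_, ?_, ?_, ?_⟩
    · exact Real.rpow_le_rpow_of_exponent_le hq1 (by linarith)
    · rw [abs_lt]
      constructor <;> simp only <;> linarith
    · rw [abs_lt]
      constructor <;> simp only <;> linarith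
    · rw [abs_lt]
      constructor <;> simp only <;> linarith

end Pool.Agent.H34x.MA
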